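import Pool.Agent.Work.MP_e487d8_al.Grad.Lp
import Pool.Agent.Work.MP_e487d8_al.Conv.Api

/-! MP_e487d8_al: gradings of KLR modules. -/

set_option autoImplicit false
set_option linter.unusedSectionVars false

namespace Pool.Agent.KLR

variable {K I : Type} [Field K] [Fintype I] [DecidableEq I]

/-- a `K`-linear map which commutes with the generators is linear over the KLR algebra -/
theorem smul_of_gens {D : Datum K I} {P Q : Type*} [AddCommGroup P] [Module K P]
    [Module (KLRAlg D) P] [IsScalarTower K (KLRAlg D) P] [AddCommGroup Q] [Module K Q]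
    [Module (KLRAlg D) Q] [IsScalarTower K (KLRAlg D) Q] (f : P →ₗ[K] Q)
    (he : ∀ k i u, f (D.e k i • u) = D.e k i • f u) (hx : ∀ k u, f (D.x k • u) = D.x k • f u)
    (ht : ∀ k u, f (D.t k • u) = D.t k • f u) (a : KLRAlg D) (u : P) : f (a • u) = a • f u := by
  induction a using KLRAlg.induction generalizing u with
  | hs r => rw [algebraMap_smul, algebraMap_smul, map_smul]
  | he k i => exact he k i u
  | hx k => exact hx k u
  | ht k => exact ht k u
  | hadd a b ha hb => rw [add_smul, add_smul, map_add, ha, hb]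
  | hmul a b ha hb => rw [mul_smul, mul_smul, ha, hb]

/-- a `K`-linear map which commutes with the generators as a linear map over the KLR algebra -/
def ofGens {D : Datum K I} {P Q : Type*} [AddCommGroup P] [Module K P]
    [Module (KLRAlg D) P] [IsScalarTower K (KLRAlg D) P] [AddCommGroup Q] [Module K Q]
    [Module (KLRAlg D) Q] [IsScalarTower K (KLRAlg D) Q] (f : P →ₗ[K] Q)
    (he : ∀ k i u, f (D.e k i • u) = D.e k i • f u) (hx : ∀ k u, f (D.x k • u) = D.x k • f u)
    (ht : ∀ k u, f (D.t k • u) = D.t k • f u) : P →ₗ[KLRAlg D] Q where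
  toFun := f
  map_add' := f.map_add
  map_smul' := smul_of_gens f he hx ht

@[simp] theorem ofGens_apply {D : Datum K I} {P Q : Type*} [AddCommGroup P] [Module K P]
    [Module (KLRAlg D) P] [IsScalarTower K (KLRAlg D) P] [AddCommGroup Q] [Module K Q]
    [Module (KLRAlg D) Q] [IsScalarTower K (KLRAlg D) Q] (f : P →ₗ[K] Q)
    (he : ∀ k i u, f (D.e k i • u) = D.e k i • f u) (hx : ∀ k u, f (D.x k • u) = D.x k • f u)
    (ht : ∀ k u, f (D.t k • u) = D.t k • f u) (u : P) : ofGens f he hx ht u = f u := rfl

/-- `M ⊗ K[q, q⁻¹]` with the twisted action: `e` has degree `0`, `x` has degree `2`, `t e_i e_j` has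
degree `-A i j` -/
@[nolint unusedArguments]
def Lau (_D : Datum K I) (M : Type) [AddCommGroup M] : Type := ℤ →₀ M

section

variable (D : Datum K I) (M : Type) [AddCommGroup M] [Module K M] [Module (KLRAlg D) M]
  [IsScalarTower K (KLRAlg D) M]

noncomputable instance : AddCommGroup (Lau D M) := inferInstanceAs (AddCommGroup (ℤ →₀ M))
noncomputable instance : Module K (Lau D M) := inferInstanceAs (Module K (ℤ →₀ M))

/-- the twisted action -/
noncomputable def psiHom : KLRAlg D →ₐ[K] Module.End K (ℤ →₀ M) :=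
  liftHom (psi_rels (D := D) (M := M))

noncomputable instance : Module (KLRAlg D) (Lau D M) :=
  Module.compHom (ℤ →₀ M) (psiHom D M : KLRAlg D →+* Module.End K (ℤ →₀ M))

instance : IsScalarTower K (KLRAlg D) (Lau D M) where
  smul_assoc r a z := by
    have h : psiHom D M (r • a) = r • psiHom D M a := map_smul _ _ _
    exact congrArg (fun F : Module.End K (ℤ →₀ M) => F z) h

end

namespace Lau

section Klin

variable (D : Datum K I) {M N P : Type} [AddCommGroup M] [Module K M] [AddCommGroup N] [Module K N]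
  [AddCommGroup P] [Module K P]

/-- the element `u` in degree `d` -/
noncomputable def sg (d : ℤ) : M →ₗ[K] Lau D M := (Finsupp.lsingle d : M →ₗ[K] (ℤ →₀ M))

/-- the component of degree `d` -/
noncomputable def co (d : ℤ) : Lau D M →ₗ[K] M := (Finsupp.lapply d : (ℤ →₀ M) →ₗ[K] M)

/-- linear map given on the components -/
noncomputable def lift (g : ℤ → M →ₗ[K] P) : Lau D M →ₗ[K] P :=
  (Finsupp.lsum K g : (ℤ →₀ M) →ₗ[K] P)

variable {D}

@[simp] theorem lift_sg (g : ℤ → M →ₗ[K] P) (d : ℤ) (u : M) : lift D g (sg D d u) = g d u := by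
  change (Finsupp.lsum K g : (ℤ →₀ M) →ₗ[K] P) (Finsupp.single d u) = _
  simp

theorem co_sg (d d' : ℤ) (u : M) : co D d (sg D d' u) = if d' = d then u else 0 := by
  change (Finsupp.single d' u) d = _
  rw [Finsupp.single_apply]

theorem induction {p : Lau D M → Prop} (z : Lau D M) (h0 : p 0) (h : ∀ d (u : M), p (sg D d u))
    (hadd : ∀ y z, p y → p z → p (y + z)) : p z :=
  Finsupp.induction_linear z h0 hadd h

theorem ext_co {y z : Lau D M} (h : ∀ d, co D d y = co D d z) : y = z := Finsupp.ext h

theorem co_fin (z : Lau D M) : ∃ S : Finset ℤ, ∀ d, d ∉ S → co D d z = 0 :=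
  ⟨Finsupp.support (z : ℤ →₀ M), fun _ hd => Finsupp.notMem_support_iff.1 hd⟩

theorem sum_co (z : Lau D M) (S : Finset ℤ) (hS : ∀ d, d ∉ S → co D d z = 0) :
    ∑ d ∈ S, sg D d (co D d z) = z := by
  apply ext_co
  intro d
  rw [map_sum]
  simp only [co_sg]
  by_cases hd : d ∈ S
  · rw [Finset.sum_eq_single d]
    · simp
    · intro b _ hb; rw [if_neg hb]
    · intro h; exact absurd hd h
  · rw [hS d hd]
    refine Finset.sum_eq_zero fun b hb => ?_
    rw [if_neg]
    rintro rfl
    exact hd hb

theorem hom_extK {f g : Lau D M →ₗ[K] P} (h : ∀ d (u : M), f (sg D d u) = g (sg D d u)) : f = g := by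
  apply LinearMap.ext
  intro z
  induction z using Lau.induction with
  | h0 => simp
  | h d u => exact h d u
  | hadd y z hy hz => rw [map_add, map_add, hy, hz]

theorem sg_injective (d : ℤ) : Function.Injective (sg D d : M →ₗ[K] Lau D M) := by
  intro u v h
  have := congrArg (co D d) h
  simpa [co_sg] using this

/-- auxiliary map -/
noncomputable def cvA (b : M →ₗ[K] N →ₗ[K] P) (p : ℤ) : M →ₗ[K] Lau D N →ₗ[K] Lau D P where
  toFun u := lift D (fun q => (sg D (p + q)).comp (b u))
  map_add' u u' := by apply hom_extK; intro d v; simp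
  map_smul' r u := by apply hom_extK; intro d v; simp

/-- convolution of families with the bilinear map `b` -/
noncomputable def cv (b : M →ₗ[K] N →ₗ[K] P) : Lau D M →ₗ[K] Lau D N →ₗ[K] Lau D P :=
  lift D (cvA b)

@[simp] theorem cv_sg (b : M →ₗ[K] N →ₗ[K] P) (p q : ℤ) (u : M) (v : N) :
    cv b (sg D p u) (sg D q v) = sg D (p + q) (b u v) := by
  unfold cv
  rw [lift_sg]
  exact lift_sg _ _ _

/-- two bilinear maps on families agree if they agree on homogeneous elements -/
theorem bil_ext {f g : Lau D M →ₗ[K] Lau D N →ₗ[K] P}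
    (h : ∀ p q (u : M) (v : N), f (sg D p u) (sg D q v) = g (sg D p u) (sg D q v)) (y : Lau D M)
    (z : Lau D N) : f y z = g y z := by
  have : f = g := by
    apply hom_extK
    intro p u
    apply hom_extK
    intro q v
    exact h p q u v
  rw [this]

end Klin

variable {D : Datum K I} {M N P : Type} [AddCommGroup M] [Module K M] [Module (KLRAlg D) M]
  [IsScalarTower K (KLRAlg D) M] [AddCommGroup N] [Module K N] [Module (KLRAlg D) N]
  [IsScalarTower K (KLRAlg D) N] [AddCommGroup P] [Module K P] [Module (KLRAlg D) P]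
  [IsScalarTower K (KLRAlg D) P]

theorem hom_ext {f g : Lau D M →ₗ[KLRAlg D] P} (h : ∀ d (u : M), f (sg D d u) = g (sg D d u)) :
    f = g := by
  apply LinearMap.ext
  intro z
  induction z using Lau.induction with
  | h0 => simp
  | h d u => exact h d u
  | hadd y z hy hz => rw [map_add, map_add, hy, hz]

theorem e_sg (k : ℕ) (i : I) (d : ℤ) (u : M) : D.e k i • sg D d u = sg D d (D.e k i • u) := by
  change psiHom D M (D.e k i) (Finsupp.single d u) = Finsupp.single d _
  rw [psiHom, liftHom_e, psi_single, add_zero]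

theorem x_sg (k : ℕ) (d : ℤ) (u : M) : D.x k • sg D d u = sg D (d + 2) (D.x k • u) := by
  change psiHom D M (D.x k) (Finsupp.single d u) = Finsupp.single (d + 2) _
  rw [psiHom, liftHom_x, psi_single]

theorem t_sg (k : ℕ) (d : ℤ) (u : M) : D.t k • sg D d u =
    ∑ i, ∑ j, sg D (d - D.A i j) ((D.t k * (D.e k i * D.e (k + 1) j)) • u) := by
  change psiHom D M (D.t k) (Finsupp.single d u) = _
  rw [psiHom, liftHom_t, psiT]
  simp only [LinearMap.sum_apply, psi_single]
  rfl

theorem t_ee_sg (k : ℕ) (i j : I) (d : ℤ) (u : M) :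
    (D.t k * (D.e k i * D.e (k + 1) j)) • sg D d u =
      sg D (d - D.A i j) ((D.t k * (D.e k i * D.e (k + 1) j)) • u) := by
  rw [mul_smul, mul_smul, e_sg, e_sg, ← mul_smul, t_sg]
  rw [Finset.sum_eq_single i, Finset.sum_eq_single j]
  · rw [← mul_smul, mul_assoc, ee_idem]
  · intro j' _ hj
    rw [← mul_smul, mul_assoc, ee_ne k i j' i j (fun h => hj h.2), mul_zero, zero_smul, map_zero]
  · simp
  · intro i' _ hi
    refine Finset.sum_eq_zero fun j' _ => ?_
    rw [← mul_smul, mul_assoc, ee_ne k i' j' i j (fun h => hi h.1), mul_zero, zero_smul, map_zero]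
  · simp

/-- criterion for linearity of a map out of `Lau D M` -/
noncomputable def liftR (g : ℤ → M →ₗ[K] P)
    (he : ∀ k i d u, g d (D.e k i • u) = D.e k i • g d u)
    (hx : ∀ k d u, g (d + 2) (D.x k • u) = D.x k • g d u)
    (ht : ∀ k d u, ∑ i, ∑ j, g (d - D.A i j) ((D.t k * (D.e k i * D.e (k + 1) j)) • u) =
      D.t k • g d u) : Lau D M →ₗ[KLRAlg D] P :=
  ofGens (lift D g)
    (fun k i z => by
      induction z using Lau.induction with
      | h0 => simp
      | h d u => rw [e_sg, lift_sg, lift_sg, he]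
      | hadd y z hy hz => rw [smul_add, map_add, map_add, smul_add, hy, hz])
    (fun k z => by
      induction z using Lau.induction with
      | h0 => simp
      | h d u => rw [x_sg, lift_sg, lift_sg, hx]
      | hadd y z hy hz => rw [smul_add, map_add, map_add, smul_add, hy, hz])
    (fun k z => by
      induction z using Lau.induction with
      | h0 => simp
      | h d u =>
        rw [t_sg, lift_sg, map_sum, ← ht]
        refine Finset.sum_congr rfl fun i _ => ?_
        rw [map_sum]
        exact Finset.sum_congr rfl fun j _ => lift_sg _ _ _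
      | hadd y z hy hz => rw [smul_add, map_add, map_add, smul_add, hy, hz])

@[simp] theorem liftR_sg (g : ℤ → M →ₗ[K] P) (he hx ht) (d : ℤ) (u : M) :
    liftR (D := D) g he hx ht (sg D d u) = g d u := by
  unfold liftR
  rw [ofGens_apply, lift_sg]

/-- the crossing is the sum of its homogeneous parts -/
theorem t_smul_sum (k : ℕ) (u : P) :
    ∑ i, ∑ j, (D.t k * (D.e k i * D.e (k + 1) j)) • u = D.t k • u := by
  have h1 : ∑ i, ∑ j, D.t k * (D.e k i * D.e (k + 1) j) = D.t k := by
    simp only [← Finset.mul_sum]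
    have h2 : ∑ i, D.e k i * ∑ j, D.e (k + 1) j = D.E k * D.E (k + 1) := by
      unfold Datum.E; rw [Finset.sum_mul]
    rw [h2, ← mul_assoc, D.t_E, D.t_E']
  conv_rhs => rw [← h1]
  simp only [Finset.sum_smul]

/-- functoriality -/
noncomputable def map (f : M →ₗ[KLRAlg D] P) : Lau D M →ₗ[KLRAlg D] Lau D P :=
  liftR (fun d => (sg D d).comp (Conv.toK f))
    (fun k i d u => by simp [e_sg]) (fun k d u => by simp [x_sg])
    (fun k d u => by simp [t_sg])

@[simp] theorem map_sg (f : M →ₗ[KLRAlg D] P) (d : ℤ) (u : M) :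
    map f (sg D d u) = sg D d (f u) := by
  unfold map
  rw [liftR_sg]
  rfl

theorem co_map (f : M →ₗ[KLRAlg D] P) (d : ℤ) (z : Lau D M) : co D d (map f z) = f (co D d z) := by
  induction z using Lau.induction with
  | h0 => simp
  | h d' u => rw [map_sg, co_sg, co_sg]; split_ifs <;> simp
  | hadd y z hy hz => rw [map_add, map_add, map_add, map_add, hy, hz]

variable (D M) in
/-- sum of the components -/
noncomputable def tot : Lau D M →ₗ[KLRAlg D] M :=
  liftR (fun _ => LinearMap.id) (fun _ _ _ _ => rfl) (fun _ _ _ => rfl)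
    (fun k _ u => t_smul_sum k u)

@[simp] theorem tot_sg (d : ℤ) (u : M) : tot D M (sg D d u) = u := by
  unfold tot
  rw [liftR_sg]
  rfl

variable (D M) in
/-- the diagonal map -/
noncomputable def dg : Lau D M →ₗ[KLRAlg D] Lau D (Lau D M) :=
  liftR (fun d => (sg D d).comp (sg D d)) (fun k i d u => by simp [e_sg])
    (fun k d u => by simp [x_sg])
    (fun k d u => by
      simp only [LinearMap.comp_apply]
      rw [t_sg]
      refine Finset.sum_congr rfl fun i _ => Finset.sum_congr rfl fun j _ => ?_
      rw [t_ee_sg])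

@[simp] theorem dg_sg (d : ℤ) (u : M) : dg D M (sg D d u) = sg D d (sg D d u) := by
  unfold dg
  rw [liftR_sg]
  rfl

variable (D M) in
/-- the shift of the degrees by `s` -/
noncomputable def shift (s : ℤ) : Lau D M →ₗ[KLRAlg D] Lau D M :=
  liftR (fun d => sg D (d + s)) (fun k i d u => by simp [e_sg])
    (fun k d u => by rw [x_sg, add_right_comm])
    (fun k d u => by
      rw [t_sg]
      refine Finset.sum_congr rfl fun i _ => Finset.sum_congr rfl fun j _ => ?_
      rw [add_sub_right_comm])

@[simp] theorem shift_sg (s d : ℤ) (u : M) : shift D M s (sg D d u) = sg D (d + s) u := by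
  unfold shift
  rw [liftR_sg]

theorem co_shift (s d : ℤ) (z : Lau D M) : co D (d + s) (shift D M s z) = co D d z := by
  induction z using Lau.induction with
  | h0 => simp
  | h d' u =>
    rw [shift_sg, co_sg, co_sg]
    by_cases h : d' = d
    · simp [h]
    · rw [if_neg h, if_neg (fun h' => h (by linarith))]
  | hadd y z hy hz => rw [map_add, map_add, map_add, hy, hz]

theorem map_shift (f : M →ₗ[KLRAlg D] P) (s : ℤ) (z : Lau D M) :
    map f (shift D M s z) = shift D P s (map f z) := by
  induction z using Lau.induction with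
  | h0 => simp
  | h d u => simp
  | hadd y z hy hz => rw [map_add, map_add, map_add, map_add, hy, hz]

theorem shift_shift (s s' : ℤ) (z : Lau D M) :
    shift D M s (shift D M s' z) = shift D M (s' + s) z := by
  induction z using Lau.induction with
  | h0 => simp
  | h d u => simp [add_assoc]
  | hadd y z hy hz => rw [map_add, map_add, map_add, hy, hz]

theorem shift_zero (z : Lau D M) : shift D M 0 z = z := by
  induction z using Lau.induction with
  | h0 => simp
  | h d u => simp
  | hadd y z hy hz => rw [map_add, hy, hz]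

theorem tot_map (f : M →ₗ[KLRAlg D] P) (z : Lau D M) : tot D P (map f z) = f (tot D M z) := by
  induction z using Lau.induction with
  | h0 => simp
  | h d u => simp
  | hadd y z hy hz => rw [map_add, map_add, map_add, map_add, hy, hz]

theorem tot_shift (s : ℤ) (z : Lau D M) : tot D M (shift D M s z) = tot D M z := by
  induction z using Lau.induction with
  | h0 => simp
  | h d u => simp
  | hadd y z hy hz => rw [map_add, map_add, map_add, hy, hz]

theorem map_map (f : M →ₗ[KLRAlg D] N) (g : N →ₗ[KLRAlg D] P) (z : Lau D M) :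
    map g (map f z) = map (g.comp f) z := by
  induction z using Lau.induction with
  | h0 => simp
  | h d u => simp
  | hadd y z hy hz => rw [map_add, map_add, map_add, hy, hz]

theorem map_dg (f : M →ₗ[KLRAlg D] P) (z : Lau D M) : map (map f) (dg D M z) = dg D P (map f z) := by
  induction z using Lau.induction with
  | h0 => simp
  | h d u => simp
  | hadd y z hy hz => rw [map_add, map_add, map_add, map_add, hy, hz]

theorem co_dg (d : ℤ) (z : Lau D M) : co D d (dg D M z) = sg D d (co D d z) := by
  induction z using Lau.induction with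
  | h0 => simp
  | h d' u =>
    rw [dg_sg, co_sg, co_sg]
    split_ifs with h
    · rw [h]
    · simp
  | hadd y z hy hz => rw [map_add, map_add, map_add, map_add, hy, hz]

end Lau

/-! ### gradings -/

/-- a grading of the module `M`: the map which sends an element to the family of its
homogeneous components -/
structure Grd (D : Datum K I) (M : Type) [AddCommGroup M] [Module K M] [Module (KLRAlg D) M]
    [IsScalarTower K (KLRAlg D) M] where
  rho : M →ₗ[KLRAlg D] Lau D M
  tot : ∀ u, Lau.tot D M (rho u) = u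
  dg : ∀ u, Lau.map rho (rho u) = Lau.dg D M (rho u)

namespace Grd

variable {D : Datum K I} {M N P : Type} [AddCommGroup M] [Module K M] [Module (KLRAlg D) M]
  [IsScalarTower K (KLRAlg D) M] [AddCommGroup N] [Module K N] [Module (KLRAlg D) N]
  [IsScalarTower K (KLRAlg D) N] [AddCommGroup P] [Module K P] [Module (KLRAlg D) P]
  [IsScalarTower K (KLRAlg D) P]

/-- the homogeneous component of degree `d` -/
noncomputable def pr (g : Grd D M) (d : ℤ) : M →ₗ[K] M := (Lau.co D d).comp (Conv.toK g.rho)

theorem pr_apply (g : Grd D M) (d : ℤ) (u : M) : g.pr d u = Lau.co D d (g.rho u) := rfl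

theorem rho_pr (g : Grd D M) (d : ℤ) (u : M) : g.rho (g.pr d u) = Lau.sg D d (g.pr d u) := by
  rw [pr_apply, ← Lau.co_map, g.dg, Lau.co_dg]

theorem pr_pr (g : Grd D M) (d d' : ℤ) (u : M) :
    g.pr d (g.pr d' u) = if d' = d then g.pr d' u else 0 := by
  rw [pr_apply g d, rho_pr, Lau.co_sg]

/-- homogeneous of degree `d` -/
def Hm (g : Grd D M) (d : ℤ) (u : M) : Prop := g.rho u = Lau.sg D d u

theorem hm_pr (g : Grd D M) (d : ℤ) (u : M) : g.Hm d (g.pr d u) := g.rho_pr d u

theorem Hm.pr_eq {g : Grd D M} {d : ℤ} {u : M} (h : g.Hm d u) (d' : ℤ) :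
    g.pr d' u = if d = d' then u else 0 := by
  rw [pr_apply, h, Lau.co_sg]

theorem hm_iff {g : Grd D M} {d : ℤ} {u : M} : g.Hm d u ↔ g.pr d u = u := by
  constructor
  · intro h; rw [h.pr_eq, if_pos rfl]
  · intro h; rw [← h]; exact g.hm_pr d u

theorem Hm.zero {g : Grd D M} {d : ℤ} : g.Hm d 0 := by unfold Hm; simp
theorem Hm.add {g : Grd D M} {d : ℤ} {u v : M} (hu : g.Hm d u) (hv : g.Hm d v) :
    g.Hm d (u + v) := by
  unfold Hm at *; rw [map_add, map_add, hu, hv]
theorem Hm.e {g : Grd D M} {d : ℤ} {u : M} (h : g.Hm d u) (k : ℕ) (i : I) :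
    g.Hm d (D.e k i • u) := by
  unfold Hm at *; rw [map_smul, h, Lau.e_sg]
theorem Hm.x {g : Grd D M} {d : ℤ} {u : M} (h : g.Hm d u) (k : ℕ) : g.Hm (d + 2) (D.x k • u) := by
  unfold Hm at *; rw [map_smul, h, Lau.x_sg]
theorem Hm.t {g : Grd D M} {d : ℤ} {u : M} (h : g.Hm d u) (k : ℕ) (i j : I) :
    g.Hm (d - D.A i j) ((D.t k * (D.e k i * D.e (k + 1) j)) • u) := by
  unfold Hm at *; rw [map_smul, h, Lau.t_ee_sg]

end Grd

/-- the homomorphism `f` is homogeneous of degree `s` -/
def HomDeg {D : Datum K I} {M N : Type} [AddCommGroup M] [Module K M] [Module (KLRAlg D) M]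
    [IsScalarTower K (KLRAlg D) M] [AddCommGroup N] [Module K N] [Module (KLRAlg D) N]
    [IsScalarTower K (KLRAlg D) N] (g : Grd D M) (h : Grd D N) (s : ℤ) (f : M →ₗ[KLRAlg D] N) :
    Prop :=
  ∀ u, h.rho (f u) = Lau.shift D N s (Lau.map f (g.rho u))

end Pool.Agent.KLR
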