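import Pool.Agent.Work.MP_e487d8_al.Grad.Jm
import Pool.Agent.Work.MP_e487d8_al.Grad.Self
import Pool.Agent.Work.MP_e487d8_al.Rmat.Facts
import Pool.Agent.Work.MP_e487d8_al.Fin.Eps

/-! MP_e487d8_al, GRAD: the formula for `Λ(C, Y)` for commuting pairs, the contract `GFacts`. -/

set_option autoImplicit false
set_option linter.unusedSectionVars false

open Pool.Agent.E487.Hopf

namespace Pool.Agent.KLR

variable {K I : Type} [Field K] [Fintype I] [DecidableEq I] {D : Datum K I}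

namespace SMod

theorem Emax.LW {i : I} {a : ℕ} {X Y : SMod D} (h : Emax i a X Y) :
    Sh.LW (List.replicate a i) X.chq = (a.factorial : ℚ) • Y.chq := by
  apply Sh.ext'
  intro w
  show (X.ch _ : ℚ) = _ * (Y.ch w : ℚ)
  rw [h.2.1]
  push_cast
  rfl

theorem Emax.LW_zero {i : I} {a b : ℕ} {X Y : SMod D} (h : Emax i a X Y) (hb : a < b) :
    Sh.LW (List.replicate b i) X.chq = 0 := by
  apply Sh.ext'
  intro w
  show (X.ch _ : ℚ) = 0
  rw [h.zero hb, Nat.cast_zero]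

theorem Emax.L {i : I} {a : ℕ} {X Y : SMod D} (h : Emax i a X Y) : Sh.L i Y.chq = 0 := by
  apply Sh.ext'
  intro w
  show (Y.ch _ : ℚ) = 0
  rw [h.2.2, Nat.cast_zero]

theorem exists_mul_ne (X Y : SMod D) : ∃ w, (X.chq * Y.chq) w ≠ 0 := by
  obtain ⟨u, hu⟩ := X.exists_ch_ne
  obtain ⟨v, hv⟩ := Y.exists_ch_ne
  refine ⟨u ++ v, (Sh.mul_ne_iff (f := X.chq) (g := Y.chq) (fun w => Nat.cast_nonneg _)
      (fun w => Nat.cast_nonneg _)).2 ⟨u, v, IsSh.append u v, ?_, ?_⟩⟩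
  · show (X.ch u : ℚ) ≠ 0
    exact_mod_cast hu
  · show (Y.ch v : ℚ) ≠ 0
    exact_mod_cast hv

/-- the product of a commuting pair as a simple module -/
noncomputable def cv (hb : S_basis D) {X Y : SMod D} (h : X.Comm Y) : SMod D where
  n := X.n + Y.n
  M := X.conv Y
  smp := { fdConv hb X Y with simple := h }

theorem chq_cv (hb : S_basis D) {X Y : SMod D} (h : X.Comm Y) : (cv hb h).chq = X.chq * Y.chq :=
  (Conv.fdMod_chrQ hb X.smp.toFdMod Y.smp.toFdMod).2

/-- `ε_i` and `e_i^max` of a simple product -/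
theorem emax_cv (hb : S_basis D) {i : I} {a b : ℕ} {C Y C₁ Y₁ : SMod D} (h : C.Comm Y)
    (h1 : Emax i a C C₁) (h2 : Emax i b Y Y₁) :
    KLR.eps D i (C.conv Y) = a + b ∧ (Em hb i (cv hb h)).chq = C₁.chq * Y₁.chq := by
  have hE := emax_self hb i (cv hb h)
  have h3 : Sh.LW (List.replicate (a + b) i) (cv hb h).chq =
      ((a + b).factorial : ℚ) • (C₁.chq * Y₁.chq) := by
    rw [chq_cv]
    refine (Sh.Lp_mul i (a + b) a b C.chq Y.chq rfl (h1.LW_zero (Nat.lt_succ_self _))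
      (h2.LW_zero (Nat.lt_succ_self _))).trans ?_
    have e1 : Sh.Lp i a C.chq = (a.factorial : ℚ) • C₁.chq := h1.LW
    have e2 : Sh.Lp i b Y.chq = (b.factorial : ℚ) • Y₁.chq := h2.LW
    rw [e1, e2, smul_mul_smul_comm, smul_smul]
    congr 1
    have h3 := Nat.choose_mul_factorial_mul_factorial (Nat.le_add_right a b)
    rw [Nat.add_sub_cancel_left] at h3
    rw [← mul_assoc]
    exact_mod_cast h3
  have hf : ((a + b).factorial : ℚ) ≠ 0 := by exact_mod_cast Nat.factorial_ne_zero _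
  have hab : KLR.eps D i (cv hb h).M = a + b := by
    rcases lt_trichotomy (KLR.eps D i (cv hb h).M) (a + b) with h4 | h4 | h4
    · exfalso
      obtain ⟨w, hw⟩ := exists_mul_ne C₁ Y₁
      rw [hE.LW_zero h4] at h3
      have h5 := congrFun h3 w
      rcases mul_eq_zero.1 (show ((a + b).factorial : ℚ) * (C₁.chq * Y₁.chq) w = 0 from h5.symm)
        with h6 | h6
      · exact hf h6
      · exact hw h6
    · exact h4
    · exfalso
      obtain ⟨ν, hν⟩ := hE.ex
      rw [replicate_append h4] at hν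
      apply hν
      have h5 := congrFun h3 (i :: (List.replicate (KLR.eps D i (cv hb h).M - (a + b) - 1) i ++ ν))
      have h6 : (C₁.chq * Y₁.chq)
          (i :: (List.replicate (KLR.eps D i (cv hb h).M - (a + b) - 1) i ++ ν)) = 0 := by
        rw [Sh.mul_cons, h1.L, h2.L, zero_mul, mul_zero]
        exact add_zero _
      have h7 : (((cv hb h).ch (List.replicate (a + b) i ++
          (i :: (List.replicate (KLR.eps D i (cv hb h).M - (a + b) - 1) i ++ ν))) : ℕ) : ℚ) =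
          ((a + b).factorial : ℚ) * (C₁.chq * Y₁.chq)
            (i :: (List.replicate (KLR.eps D i (cv hb h).M - (a + b) - 1) i ++ ν)) := h5
      rw [h6, mul_zero] at h7
      exact_mod_cast h7
  refine ⟨hab, ?_⟩
  have h4 := hE.LW
  rw [hab, h3] at h4
  exact (smul_right_injective _ hf h4).symm

theorem comm_emax (hb : S_basis D) {i : I} {a b : ℕ} {C Y C₁ Y₁ : SMod D} (h : C.Comm Y)
    (h1 : Emax i a C C₁) (h2 : Emax i b Y Y₁) : C₁.Comm Y₁ := by
  have hconv : S_conv D := fun m n M N _ _ _ _ _ _ _ _ hM hN => Conv.fdMod_chrQ hb hM hN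
  rw [Sm.comm_iff (cFacts hb) hconv]
  exact ⟨Sm.cls (Em hb i (cv hb h)), (emax_cv hb h h1 h2).2.symm⟩

/-- `Kr i a X ≅ Y` for `Y = e_i^max X` -/
theorem Emax.equiv (hb : S_basis D) {i : I} {a : ℕ} {X Y : SMod D} (h : Emax i a X Y) :
    KLR.eps D i X.M = a ∧ Nonempty (Kr D i a X.M ≃ₗ[KLRAlg D] Y.M) := by
  obtain ⟨h1, h2⟩ := (emax_self hb i X).unique rfl h
  subst h1
  exact ⟨rfl, iso_of_ch (cFacts hb) _ rfl h2⟩

end SMod

section

variable {M N : Type} [AddCommGroup M] [Module K M] [Module (KLRAlg D) M]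
  [IsScalarTower K (KLRAlg D) M] [AddCommGroup N] [Module K N] [Module (KLRAlg D) N]
  [IsScalarTower K (KLRAlg D) N]

theorem HomDeg.symm {gM : Grd D M} {gN : Grd D N} {s : ℤ} {f : M ≃ₗ[KLRAlg D] N}
    (hf : HomDeg gM gN s f.toLinearMap) : HomDeg gN gM (-s) f.symm.toLinearMap := by
  refine HomDeg.of_comp_right hf f.surjective ?_
  have h1 : f.symm.toLinearMap.comp f.toLinearMap = LinearMap.id := by
    ext u
    exact f.symm_apply_apply u
  rw [h1, add_neg_cancel]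
  exact HomDeg.id

theorem WtOf.equiv {n : ℕ} {β : I → ℕ} (h : WtOf D n N β) (f : M ≃ₗ[KLRAlg D] N) :
    WtOf D n M β := by
  intro ν u hν hw hu
  refine h ν (f u) hν ?_ (fun h0 => hu (f.injective (h0.trans (map_zero f).symm)))
  rw [wdAt_zero_iff] at hw ⊢
  rw [← map_smul, hw]

end

theorem Conv.map_bij {m m' : ℕ} {M N M' N' : Type}
    [AddCommGroup M] [Module K M] [Module (KLRAlg D) M] [IsScalarTower K (KLRAlg D) M]
    [AddCommGroup N] [Module K N] [Module (KLRAlg D) N] [IsScalarTower K (KLRAlg D) N]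
    [AddCommGroup M'] [Module K M'] [Module (KLRAlg D) M'] [IsScalarTower K (KLRAlg D) M']
    [AddCommGroup N'] [Module K N'] [Module (KLRAlg D) N'] [IsScalarTower K (KLRAlg D) N']
    (h : m = m') (f : M ≃ₗ[KLRAlg D] M') (g : N ≃ₗ[KLRAlg D] N') :
    Function.Bijective (Conv.map h f.toLinearMap g.toLinearMap) := by
  subst h
  constructor
  · intro y z hyz
    have h1 := congrArg (Conv.map (rfl : m = m) f.symm.toLinearMap g.symm.toLinearMap) hyz
    rw [Conv.map_map, Conv.map_map] at h1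
    have h2 : f.symm.toLinearMap.comp f.toLinearMap = LinearMap.id := by
      ext u
      exact f.symm_apply_apply u
    have h3 : g.symm.toLinearMap.comp g.toLinearMap = LinearMap.id := by
      ext u
      exact g.symm_apply_apply u
    rw [h2, h3, Conv.map_id] at h1
    exact h1
  · exact Conv.map_surjective rfl _ _ f.surjective g.surjective

namespace SMod

/-- the map `J` is bijective for a commuting pair -/
theorem mapJ_bijective (hb : S_basis D) {i : I} {a b c : ℕ} {C Y C₁ Y₁ : SMod D} (h : C.Comm Y)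
    (h1 : Emax i a C C₁) (h2 : Emax i b Y Y₁) (hc : a + b = c)
    (h0 : ∀ w : Kr D i a C.M, D.e 0 i • w = 0) :
    Function.Bijective (mapJ (m := C.n) (N := Y.M) h1.1 hc h0) := by
  obtain ⟨-, ⟨φ⟩⟩ := h1.equiv hb
  obtain ⟨-, ⟨ψ⟩⟩ := h2.equiv hb
  have hs : IsSimpleModule (KLRAlg D) (C₁.conv Y₁) := comm_emax hb h h1 h2
  have hs' : IsSimpleModule (KLRAlg D) (Conv D C₁.n (Kr D i a C.M) (Kr D i b Y.M)) :=
    simple_of_equiv (LinearEquiv.ofBijective _ (Conv.map_bij rfl φ ψ)).symm hs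
  have ht : IsSimpleModule (KLRAlg D) (Kr D i c (C.conv Y)) := by
    have h3 := (emax_cv hb h h1 h2).1
    have h4 := Kr.simple hb (cv hb h).smp i
    have h5 : KLR.eps D i (cv hb h).M = c := h3.trans hc
    rw [h5] at h4
    exact h4
  rcases LinearMap.bijective_or_eq_zero (mapJ (m := C.n) (N := Y.M) h1.1 hc h0) with h3 | h3
  · exact h3
  · exfalso
    have s1 := C₁.smp.simple
    have s2 := Y₁.smp.simple
    have n1 : Nontrivial C₁.M := IsSimpleModule.nontrivial (KLRAlg D) C₁.M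
    have n2 : Nontrivial Y₁.M := IsSimpleModule.nontrivial (KLRAlg D) Y₁.M
    obtain ⟨u, hu⟩ := exists_ne (0 : C₁.M)
    obtain ⟨v, hv⟩ := exists_ne (0 : Y₁.M)
    refine mapJ_ne (N := Y.M) h1.1 hc h0 hb C.smp.strand Y.smp.strand (u := φ.symm u)
      (v := ψ.symm v) ?_ ?_ ?_
    · intro h4; exact hu (by rw [← φ.apply_symm_apply u, h4, map_zero])
    · intro h4; exact hv (by rw [← ψ.apply_symm_apply v, h4, map_zero])
    · rw [h3, LinearMap.zero_apply]

theorem e0_Kr (hb : S_basis D) {i : I} {a : ℕ} {C C₁ : SMod D} (h1 : Emax i a C C₁)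
    (w : Kr D i a C.M) : D.e 0 i • w = 0 := by
  apply Kr.val_injective
  rw [Kr.val_zero, Kr.val_smul, D.shn_e, Nat.add_zero]
  have h2 := (h1.equiv hb).1
  refine eq_zero_of_eps_lt (i := i) (a := a + 1) C.smp.strand (by omega) ?_
  intro k hk
  by_cases h : k < a
  · rw [← mul_smul, D.e_comm, mul_smul, (Kr.val_isKr w k h).1]
  · have hk' : k = a := by omega
    subst hk'
    rw [← mul_smul, D.e_idem]

/-- the formula for `Λ(C, Y)` for commuting pairs -/
theorem lam (hb : S_basis D) {i : I} {a b : ℕ} {C Y C₁ Y₁ : SMod D} (h : C.Comm Y)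
    (h1 : Emax i a C C₁) (h2 : Emax i b Y Y₁) : (SMod.dd C Y : ℤ) - 2 * sOrd C Y =
      (SMod.dd C₁ Y₁ : ℤ) - 2 * sOrd C₁ Y₁ + (b * SMod.pr i C₁ - a * SMod.pr i Y₁) := by
  obtain ⟨gC⟩ := gradable hb C.n C.M C.smp
  obtain ⟨gY⟩ := gradable hb Y.n Y.M Y.smp
  obtain ⟨-, ⟨φ⟩⟩ := h1.equiv hb
  obtain ⟨-, ⟨ψ⟩⟩ := h2.equiv hb
  have h' : Y.Comm C := comm_symm hb h
  have h₁ : C₁.Comm Y₁ := comm_emax hb h h1 h2
  have dφ : HomDeg (gC.kr i a) ((gC.kr i a).ofEquiv φ) 0 φ.toLinearMap := Grd.ofEquiv_hom _ _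
  have dψ : HomDeg (gY.kr i b) ((gY.kr i b).ofEquiv ψ) 0 ψ.toLinearMap := Grd.ofEquiv_hom _ _
  have dφ' := dφ.symm
  have dψ' := dψ.symm
  obtain ⟨r, hr, hr0⟩ := sOrd_spec hb C Y
  obtain ⟨r₁, hr₁, hr₁0⟩ := sOrd_spec hb C₁ Y₁
  have br := equiv_of_comm hb h hr0
  have br₁ := equiv_of_comm hb h₁ hr₁0
  have dr := lead_homDeg hb C Y gC gY hr
  have dr₁ := lead_homDeg hb C₁ Y₁ ((gC.kr i a).ofEquiv φ) ((gY.kr i b).ofEquiv ψ) hr₁
  have bJ := mapJ_bijective hb h h1 h2 (rfl : a + b = a + b) (e0_Kr hb h1)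
  have bJ' := mapJ_bijective hb h' h2 h1 (Nat.add_comm b a) (e0_Kr hb h2)
  have dJ := mapJ_hom (N := Y.M) h1.1 (rfl : a + b = a + b) (e0_Kr hb h1)
    (strand_surj C₁.smp.strand φ.symm.toLinearMap φ.symm.surjective) (C₁.wtOf.equiv φ) gC gY
  have dJ' := mapJ_hom (N := C.M) h2.1 (Nat.add_comm b a) (e0_Kr hb h2)
    (strand_surj Y₁.smp.strand ψ.symm.toLinearMap ψ.symm.surjective) (Y₁.wtOf.equiv ψ) gY gC
  have d1 := (dφ'.map (rfl : C₁.n = C₁.n) dψ').comp (dJ.comp (dr.kr (i := i) (a := a + b)))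
  have d2 := dr₁.comp ((dψ'.map (rfl : Y₁.n = Y₁.n) dφ').comp dJ')
  have b1 := ((Kr.map_bijective (i := i) (a := a + b) br).comp bJ).comp
    (Conv.map_bij (rfl : C₁.n = C₁.n) φ.symm ψ.symm)
  have b2 := (bJ'.comp (Conv.map_bij (rfl : Y₁.n = Y₁.n) ψ.symm φ.symm)).comp br₁
  have := (fdConv hb C₁ Y₁).fd
  have := nontrivialConv hb C₁ Y₁
  have h3 := d1.deg_unique d2 b1 b2
  have h4 : prw D i C₁.wt = SMod.pr i C₁ := rfl
  have h5 : prw D i Y₁.wt = SMod.pr i Y₁ := rfl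
  rw [h4, h5] at h3
  linarith

end SMod

/-- THE CONTRACT of the block GRAD -/
theorem gFacts (hb : S_basis D) : GFacts (D := D) sOrd SMod.sOrd' where
  self C hC := SMod.two_sOrd_self hb C hC
  self' C hC := by
    rw [← SMod.dd_mir]
    exact SMod.two_sOrd_self hb C.mir (SMod.real_mir hC)
  lam i a b C Y C₁ Y₁ _ h h1 h2 := SMod.lam hb h h1 h2

end Pool.Agent.KLR
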