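import Pool.Agent.Work.MP_e487d8_al.Grad.ToG

/-! MP_e487d8_al, GRAD: homogeneous components of homomorphisms; graded simple modules which are
isomorphic are isomorphic up to a shift; the contract `GrFacts`. -/

set_option autoImplicit false
set_option linter.unusedSectionVars false

namespace Pool.Agent.KLR

variable {K I : Type} [Field K] [Fintype I] [DecidableEq I] {D : Datum K I}

section

variable {M N : Type} [AddCommGroup M] [Module K M] [Module (KLRAlg D) M]
  [IsScalarTower K (KLRAlg D) M] [AddCommGroup N] [Module K N] [Module (KLRAlg D) N]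
  [IsScalarTower K (KLRAlg D) N]

/-- projection of a family to the diagonal which is shifted by `s` -/
noncomputable def Grd.dgp (g : Grd D N) (s : ℤ) : Lau D N →ₗ[KLRAlg D] N :=
  Lau.liftR (fun d => g.pr (d + s)) (fun k i d u => g.pr_e _ k i u)
    (fun k d u => by rw [g.pr_x, show d + 2 + s - 2 = d + s by ring])
    (fun k d u => by
      simp only [g.pr_t]
      have h1 : ∀ i j : I, d - D.A i j + s + D.A i j = d + s := fun i j => by ring
      simp only [h1]
      exact Lau.t_smul_sum k (g.pr (d + s) u))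

theorem Grd.dgp_sg (g : Grd D N) (s d : ℤ) (u : N) :
    g.dgp s (Lau.sg D d u) = g.pr (d + s) u := by
  unfold Grd.dgp
  rw [Lau.liftR_sg]

/-- the component of degree `s` of a homomorphism -/
noncomputable def homComp (gM : Grd D M) (gN : Grd D N) (s : ℤ) (f : M →ₗ[KLRAlg D] N) :
    M →ₗ[KLRAlg D] N :=
  (gN.dgp s).comp ((Lau.map f).comp gM.rho)

theorem homComp_hm {gM : Grd D M} (gN : Grd D N) (s : ℤ) (f : M →ₗ[KLRAlg D] N) {d : ℤ} {u : M}
    (hu : gM.Hm d u) : homComp gM gN s f u = gN.pr (d + s) (f u) := by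
  unfold homComp
  rw [LinearMap.comp_apply, LinearMap.comp_apply, hu, Lau.map_sg, Grd.dgp_sg]

theorem homComp_homDeg (gM : Grd D M) (gN : Grd D N) (s : ℤ) (f : M →ₗ[KLRAlg D] N) :
    HomDeg gM gN s (homComp gM gN s f) :=
  HomDeg.of_hm fun d u hu => by
    rw [homComp_hm gN s f hu]
    exact gN.hm_pr (d + s) (f u)

/-- a nonzero homomorphism has a nonzero homogeneous component -/
theorem exists_homDeg (gM : Grd D M) (gN : Grd D N) {f : M →ₗ[KLRAlg D] N} (hf : f ≠ 0) :
    ∃ (s : ℤ) (f' : M →ₗ[KLRAlg D] N), f' ≠ 0 ∧ HomDeg gM gN s f' := by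
  have h1 : ∃ d u, gM.Hm d u ∧ f u ≠ 0 := by
    by_contra h
    push Not at h
    apply hf
    ext u
    induction u using gM.induction with
    | h0 => simp
    | h d u hu => exact h d u hu
    | hadd u v hu hv => rw [map_add, hu, hv, map_add]
  obtain ⟨d, u, hu, hfu⟩ := h1
  obtain ⟨d', hd'⟩ := gN.exists_hm_ne hfu
  refine ⟨d' - d, homComp gM gN (d' - d) f, fun h => hd' ?_, homComp_homDeg gM gN _ f⟩
  have h2 := homComp_hm gN (d' - d) f hu
  rw [h, LinearMap.zero_apply, show d + (d' - d) = d' by ring] at h2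
  exact h2.symm

theorem exists_homDeg_equiv (gM : Grd D M) (gN : Grd D N) [IsSimpleModule (KLRAlg D) N]
    (f : M ≃ₗ[KLRAlg D] N) : ∃ (s : ℤ) (f' : M ≃ₗ[KLRAlg D] N),
      HomDeg gM gN s f'.toLinearMap := by
  have hM : IsSimpleModule (KLRAlg D) M := IsSimpleModule.congr f
  have hN := IsSimpleModule.nontrivial (KLRAlg D) N
  have hf : f.toLinearMap ≠ 0 := by
    intro h
    obtain ⟨v, hv⟩ := exists_ne (0 : N)
    apply hv
    have h1 := LinearMap.congr_fun h (f.symm v)
    simpa using h1
  obtain ⟨s, f', h0, h1⟩ := exists_homDeg gM gN hf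
  exact ⟨s, LinearEquiv.ofBijective f' (LinearMap.bijective_of_ne_zero h0), h1⟩

/-- the dots act nilpotently on finite dimensional graded modules -/
theorem Grd.nilp [FiniteDimensional K M] (g : Grd D M) : Nilp D M := by
  intro k
  obtain ⟨S, hS⟩ := g.fin_degrees
  obtain ⟨B, hB⟩ : ∃ B : ℕ, ∀ d ∈ S, |d| ≤ B := by
    refine ⟨∑ d ∈ S, d.natAbs, fun d hd => ?_⟩
    rw [Int.abs_eq_natAbs]
    exact_mod_cast Finset.single_le_sum (f := fun d => d.natAbs) (fun _ _ => Nat.zero_le _) hd
  refine ⟨B + 1, fun u => ?_⟩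
  have hpow : ∀ (N : ℕ) (d : ℤ) (u : M), g.Hm d u → g.Hm (d + 2 * N) (D.x k ^ N • u) := by
    intro N
    induction N with
    | zero => intro d u hu; simpa using hu
    | succ N ih =>
      intro d u hu
      rw [pow_succ, mul_smul]
      have h1 := ih (d + 2) _ (hu.x k)
      convert h1 using 1
      push_cast
      ring
  induction u using g.induction with
  | h0 => rw [smul_zero]
  | hadd u v hu hv => rw [smul_add, hu, hv, add_zero]
  | h d u hu =>
    by_cases hd : d ∈ S
    · have h1 := hpow (B + 1) d u hu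
      have h2 : d + 2 * ((B + 1 : ℕ) : ℤ) ∉ S := by
        intro h
        have h3 := hB _ h
        have h4 := hB _ hd
        rw [abs_le] at h3 h4
        push_cast at h3
        omega
      rw [← Grd.hm_iff.1 h1, hS _ h2]
    · rw [← Grd.hm_iff.1 hu, hS _ hd, smul_zero]

end

/-- the facts on gradings -/
theorem grFacts (hb : S_basis D) : GrFacts D where
  nilp X := by
    have := X.fd
    exact X.grd.nilp
  simple X h := X.simple_of_irr h
  exists_gr Y := exists_gmod hb Y
  shift X Y hX hY := by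
    rintro ⟨f⟩
    have := Y.simple_of_irr hY
    obtain ⟨s, f', h⟩ := exists_homDeg_equiv X.grd Y.grd f
    refine ⟨s, f', fun d u hu => ?_⟩
    rw [← Y.hm_iff]
    exact h.hm ((X.hm_iff d u).2 hu)
  conv X Y Z hX hY hZ := by
    rintro ⟨f⟩
    have := Z.simple_of_irr hZ
    obtain ⟨s, f', h⟩ := exists_homDeg_equiv (Grd.conv X.n X.grd Y.grd) Z.grd f
    refine ⟨s, f', fun a b u v hu hv => ?_⟩
    rw [← Z.hm_iff]
    exact h.hm (Grd.Hm.mk X.n ((X.hm_iff a u).2 hu) ((Y.hm_iff b v).2 hv))

end Pool.Agent.KLR
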