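import Pool.Agent.Work.MP_e487d8_al.Grad.Defs

/-! MP_e487d8_al: homogeneous maps, the grading of the convolution product. -/

set_option autoImplicit false
set_option linter.unusedSectionVars false

namespace Pool.Agent.KLR

variable {K I : Type} [Field K] [Fintype I] [DecidableEq I] {D : Datum K I}

section
variable {M N P : Type} [AddCommGroup M] [Module K M] [Module (KLRAlg D) M]
  [IsScalarTower K (KLRAlg D) M] [AddCommGroup N] [Module K N] [Module (KLRAlg D) N]
  [IsScalarTower K (KLRAlg D) N] [AddCommGroup P] [Module K P] [Module (KLRAlg D) P]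
  [IsScalarTower K (KLRAlg D) P]

/-! ### truncation and shift are homogeneous -/

namespace Lau

theorem tr_e_sg (m k : ℕ) (i : I) (d : ℤ) (w : P) :
    D.tr m (D.e k i) • sg D d w = sg D d (D.tr m (D.e k i) • w) := by
  rw [D.tr_e]
  split_ifs
  · rw [e_sg]
  · simp

theorem tr_x_sg (m k : ℕ) (d : ℤ) (w : P) :
    D.tr m (D.x k) • sg D d w = sg D (d + 2) (D.tr m (D.x k) • w) := by
  rw [D.tr_x]
  split_ifs
  · rw [x_sg]
  · simp

theorem tr_t_sg (m k : ℕ) (d : ℤ) (w : P) : D.tr m (D.t k) • sg D d w =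
    ∑ i, ∑ j, sg D (d - D.A i j) (D.tr m (D.t k * (D.e k i * D.e (k + 1) j)) • w) := by
  rw [D.tr_t]
  split_ifs with h
  · rw [t_sg]
    refine Finset.sum_congr rfl fun i _ => Finset.sum_congr rfl fun j _ => ?_
    rw [map_mul, map_mul, D.tr_t, D.tr_e, D.tr_e, if_pos h, if_pos h, if_pos (by omega)]
  · rw [zero_smul]
    symm
    refine Finset.sum_eq_zero fun i _ => Finset.sum_eq_zero fun j _ => ?_
    rw [map_mul, D.tr_t, if_neg h, zero_mul, zero_smul, map_zero]

theorem shn_e_sg (m k : ℕ) (i : I) (d : ℤ) (w : P) :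
    D.shn m (D.e k i) • sg D d w = sg D d (D.shn m (D.e k i) • w) := by
  rw [D.shn_e, e_sg]

theorem shn_x_sg (m k : ℕ) (d : ℤ) (w : P) :
    D.shn m (D.x k) • sg D d w = sg D (d + 2) (D.shn m (D.x k) • w) := by
  rw [D.shn_x, x_sg]

theorem shn_t_sg (m k : ℕ) (d : ℤ) (w : P) : D.shn m (D.t k) • sg D d w =
    ∑ i, ∑ j, sg D (d - D.A i j) (D.shn m (D.t k * (D.e k i * D.e (k + 1) j)) • w) := by
  rw [D.shn_t, t_sg]
  refine Finset.sum_congr rfl fun i _ => Finset.sum_congr rfl fun j _ => ?_
  rw [map_mul, map_mul, D.shn_t, D.shn_e, D.shn_e]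
  rfl

end Lau

/-- a balanced map gives a balanced map on families -/
theorem balanced_cv {m : ℕ} {b : M →ₗ[K] N →ₗ[K] P} (hb : Balanced D m b) :
    Balanced D m (Lau.cv (D := D) b) where
  left a y z := by
    induction a using KLRAlg.induction generalizing y with
    | hs r => rw [AlgHom.commutes, algebraMap_smul, algebraMap_smul, map_smul]; rfl
    | hadd a a' ha ha' =>
      rw [map_add, add_smul, add_smul, map_add, ha, ha']; rfl
    | hmul a a' ha ha' => rw [map_mul, mul_smul, mul_smul, ha', ha]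
    | he k i =>
      refine Lau.bil_ext (D := D) (f := LinearMap.compr₂ (Lau.cv b)
        (Algebra.lsmul K K (Lau D P) (D.tr m (D.e k i))))
        (g := (Lau.cv b).comp (Algebra.lsmul K K (Lau D M) (D.e k i))) ?_ y z
      intro p q u v
      simp only [LinearMap.compr₂_apply, LinearMap.comp_apply, Algebra.lsmul_coe]
      rw [Lau.cv_sg, Lau.tr_e_sg, Lau.e_sg, Lau.cv_sg, hb.left]
    | hx k =>
      refine Lau.bil_ext (D := D) (f := LinearMap.compr₂ (Lau.cv b)
        (Algebra.lsmul K K (Lau D P) (D.tr m (D.x k))))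
        (g := (Lau.cv b).comp (Algebra.lsmul K K (Lau D M) (D.x k))) ?_ y z
      intro p q u v
      simp only [LinearMap.compr₂_apply, LinearMap.comp_apply, Algebra.lsmul_coe]
      rw [Lau.cv_sg, Lau.tr_x_sg, Lau.x_sg, Lau.cv_sg, hb.left]
      congr 2
      ring
    | ht k =>
      refine Lau.bil_ext (D := D) (f := LinearMap.compr₂ (Lau.cv b)
        (Algebra.lsmul K K (Lau D P) (D.tr m (D.t k))))
        (g := (Lau.cv b).comp (Algebra.lsmul K K (Lau D M) (D.t k))) ?_ y z
      intro p q u v
      simp only [LinearMap.compr₂_apply, LinearMap.comp_apply, Algebra.lsmul_coe]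
      rw [Lau.cv_sg, Lau.tr_t_sg, Lau.t_sg]
      simp only [map_sum, LinearMap.sum_apply]
      refine Finset.sum_congr rfl fun i _ => Finset.sum_congr rfl fun j _ => ?_
      rw [Lau.cv_sg, hb.left]
      congr 2
      ring
  right a y z := by
    induction a using KLRAlg.induction generalizing z with
    | hs r => rw [AlgHom.commutes, algebraMap_smul, algebraMap_smul, map_smul]
    | hadd a a' ha ha' =>
      rw [map_add, add_smul, add_smul, map_add, ha, ha']
    | hmul a a' ha ha' => rw [map_mul, mul_smul, mul_smul, ha', ha]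
    | he k i =>
      refine Lau.bil_ext (D := D) (f := LinearMap.compr₂ (Lau.cv b)
        (Algebra.lsmul K K (Lau D P) (D.shn m (D.e k i))))
        (g := LinearMap.compl₂ (Lau.cv b) (Algebra.lsmul K K (Lau D N) (D.e k i))) ?_ y z
      intro p q u v
      simp only [LinearMap.compr₂_apply, LinearMap.compl₂_apply, Algebra.lsmul_coe]
      rw [Lau.cv_sg, Lau.shn_e_sg, Lau.e_sg, Lau.cv_sg, hb.right]
    | hx k =>
      refine Lau.bil_ext (D := D) (f := LinearMap.compr₂ (Lau.cv b)
        (Algebra.lsmul K K (Lau D P) (D.shn m (D.x k))))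
        (g := LinearMap.compl₂ (Lau.cv b) (Algebra.lsmul K K (Lau D N) (D.x k))) ?_ y z
      intro p q u v
      simp only [LinearMap.compr₂_apply, LinearMap.compl₂_apply, Algebra.lsmul_coe]
      rw [Lau.cv_sg, Lau.shn_x_sg, Lau.x_sg, Lau.cv_sg, hb.right]
      congr 2
      ring
    | ht k =>
      refine Lau.bil_ext (D := D) (f := LinearMap.compr₂ (Lau.cv b)
        (Algebra.lsmul K K (Lau D P) (D.shn m (D.t k))))
        (g := LinearMap.compl₂ (Lau.cv b) (Algebra.lsmul K K (Lau D N) (D.t k))) ?_ y z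
      intro p q u v
      simp only [LinearMap.compr₂_apply, LinearMap.compl₂_apply, Algebra.lsmul_coe]
      rw [Lau.cv_sg, Lau.shn_t_sg, Lau.t_sg]
      simp only [map_sum]
      refine Finset.sum_congr rfl fun i _ => Finset.sum_congr rfl fun j _ => ?_
      rw [Lau.cv_sg, hb.right]
      congr 2
      ring

/-! ### homogeneous maps -/

namespace HomDeg

variable {gM : Grd D M} {gN : Grd D N} {gP : Grd D P} {s s' : ℤ}

theorem hm {f : M →ₗ[KLRAlg D] N} (h : HomDeg gM gN s f) {d : ℤ} {u : M} (hu : gM.Hm d u) :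
    gN.Hm (d + s) (f u) := by
  unfold Grd.Hm at *
  rw [h, hu, Lau.map_sg, Lau.shift_sg]

/-- an element is the sum of its homogeneous components -/
theorem _root_.Pool.Agent.KLR.Grd.sum_pr (g : Grd D M) (u : M) :
    ∃ S : Finset ℤ, (∀ d, d ∉ S → g.pr d u = 0) ∧ ∑ d ∈ S, g.pr d u = u := by
  obtain ⟨S, hS⟩ := Lau.co_fin (g.rho u)
  refine ⟨S, hS, ?_⟩
  have h := congrArg (Lau.tot D M) (Lau.sum_co (g.rho u) S hS)
  rw [g.tot, map_sum] at h
  simp only [Lau.tot_sg] at h
  exact h

/-- induction over homogeneous elements -/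
theorem _root_.Pool.Agent.KLR.Grd.induction (g : Grd D M) {p : M → Prop} (h0 : p 0)
    (h : ∀ d u, g.Hm d u → p u) (hadd : ∀ u v, p u → p v → p (u + v)) (u : M) : p u := by
  obtain ⟨S, h1, hS⟩ := g.sum_pr u
  rw [← hS]
  clear hS h1
  classical
  induction S using Finset.induction_on with
  | empty => simpa using h0
  | insert a S ha ih => rw [Finset.sum_insert ha]; exact hadd _ _ (h a _ (g.hm_pr a u)) ih

theorem of_hm {f : M →ₗ[KLRAlg D] N} (h : ∀ d u, gM.Hm d u → gN.Hm (d + s) (f u)) :
    HomDeg gM gN s f := by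
  intro u
  induction u using gM.induction with
  | h0 => simp
  | h d u hu =>
    have h1 := h d u hu
    unfold Grd.Hm at *
    rw [h1, hu, Lau.map_sg, Lau.shift_sg]
  | hadd u v hu hv => rw [map_add, map_add, map_add, map_add, map_add, hu, hv]

theorem pr {f : M →ₗ[KLRAlg D] N} (h : HomDeg gM gN s f) (d : ℤ) (u : M) :
    gN.pr (d + s) (f u) = f (gM.pr d u) := by
  rw [Grd.pr_apply, Grd.pr_apply, h, Lau.co_shift, Lau.co_map]

theorem id : HomDeg gM gM 0 LinearMap.id :=
  of_hm fun _ _ hu => by simpa using hu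

theorem comp {f : M →ₗ[KLRAlg D] N} {g : N →ₗ[KLRAlg D] P} (hf : HomDeg gM gN s f)
    (hg : HomDeg gN gP s' g) : HomDeg gM gP (s + s') (g.comp f) :=
  of_hm fun d u hu => by
    have := hg.hm (hf.hm hu)
    rwa [add_assoc] at this

theorem zero : HomDeg gM gN s 0 := of_hm fun _ _ _ => by simpa using Grd.Hm.zero

theorem add {f f' : M →ₗ[KLRAlg D] N} (hf : HomDeg gM gN s f) (hf' : HomDeg gM gN s f') :
    HomDeg gM gN s (f + f') := of_hm fun d u hu => (hf.hm hu).add (hf'.hm hu)

/-- if `f` is injective and homogeneous and `f ∘ g` is homogeneous then `g` is homogeneous -/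
theorem of_comp_left {f : M →ₗ[KLRAlg D] N} {g : N →ₗ[KLRAlg D] P} (hg : HomDeg gN gP s' g)
    (hi : Function.Injective g) (h : HomDeg gM gP (s + s') (g.comp f)) : HomDeg gM gN s f :=
  of_hm fun d u hu => by
    have h1 := h.hm hu
    rw [Grd.hm_iff] at h1 ⊢
    rw [LinearMap.comp_apply, ← add_assoc, hg.pr] at h1
    exact hi h1

/-- if `f` is surjective and homogeneous and `g ∘ f` is homogeneous then `g` is homogeneous -/
theorem of_comp_right {f : M →ₗ[KLRAlg D] N} {g : N →ₗ[KLRAlg D] P} (hf : HomDeg gM gN s f)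
    (hi : Function.Surjective f) (h : HomDeg gM gP (s + s') (g.comp f)) : HomDeg gN gP s' g :=
  of_hm fun d u hu => by
    obtain ⟨v, rfl⟩ := hi u
    rw [Grd.hm_iff] at hu
    have h1 := hf.pr (d - s) v
    rw [sub_add_cancel, hu] at h1
    have h2 := h.hm (gM.hm_pr (d - s) v)
    rw [LinearMap.comp_apply, ← h1] at h2
    convert h2 using 1
    ring

end HomDeg

/-! ### the grading of the convolution product -/

/-- two bilinear maps agree if they agree on homogeneous elements -/
theorem Grd.hom_ext_hm {m : ℕ} (gM : Grd D M) (gN : Grd D N) {f g : Conv D m M N →ₗ[KLRAlg D] P}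
    (h : ∀ p q u v, gM.Hm p u → gN.Hm q v → f (Conv.mk D m M N u v) = g (Conv.mk D m M N u v)) :
    f = g := by
  apply Conv.hom_ext
  intro u v
  induction u using gM.induction with
  | h0 => simp
  | hadd u u' hu hu' => rw [map_add, LinearMap.add_apply, map_add, map_add, hu, hu']
  | h p u hu =>
    induction v using gN.induction with
    | h0 => simp
    | hadd v v' hv hv' => rw [map_add, map_add, map_add, hv, hv']
    | h q v hv => exact h p q u v hu hv

variable (m : ℕ)

/-- the family of the homogeneous components on the convolution product -/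
noncomputable def convRho (gM : Grd D M) (gN : Grd D N) :
    Conv D m M N →ₗ[KLRAlg D] Lau D (Conv D m M N) :=
  Conv.lift ((Lau.cv (Conv.mk D m M N)).compl₁₂ (Conv.toK gM.rho) (Conv.toK gN.rho))
    { left := fun a u v => by
        have h := (balanced_cv (D := D) (m := m) (Conv.balanced_mk (D := D) (m := m) (M := M)
          (N := N))).left a (gM.rho u) (gN.rho v)
        simpa using h
      right := fun a u v => by
        have h := (balanced_cv (D := D) (m := m) (Conv.balanced_mk (D := D) (m := m) (M := M)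
          (N := N))).right a (gM.rho u) (gN.rho v)
        simpa using h }

theorem convRho_mk (gM : Grd D M) (gN : Grd D N) (u : M) (v : N) :
    convRho m gM gN (Conv.mk D m M N u v) = Lau.cv (Conv.mk D m M N) (gM.rho u) (gN.rho v) := by
  unfold convRho
  rw [Conv.lift_mk]
  rfl

theorem convRho_hm (gM : Grd D M) (gN : Grd D N) {p q : ℤ} {u : M} {v : N} (hu : gM.Hm p u)
    (hv : gN.Hm q v) : convRho m gM gN (Conv.mk D m M N u v) =
      Lau.sg D (p + q) (Conv.mk D m M N u v) := by
  rw [convRho_mk, hu, hv, Lau.cv_sg]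

/-- the grading of the convolution product -/
noncomputable def Grd.conv (gM : Grd D M) (gN : Grd D N) : Grd D (Conv D m M N) where
  rho := convRho m gM gN
  tot z := by
    have h : (Lau.tot D (Conv D m M N)).comp (convRho m gM gN) = LinearMap.id := by
      apply Grd.hom_ext_hm gM gN
      intro p q u v hu hv
      rw [LinearMap.comp_apply, convRho_hm m gM gN hu hv, Lau.tot_sg]
      rfl
    exact LinearMap.congr_fun h z
  dg z := by
    have h : (Lau.map (convRho m gM gN)).comp (convRho m gM gN) =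
        (Lau.dg D (Conv D m M N)).comp (convRho m gM gN) := by
      apply Grd.hom_ext_hm gM gN
      intro p q u v hu hv
      rw [LinearMap.comp_apply, LinearMap.comp_apply, convRho_hm m gM gN hu hv, Lau.map_sg,
        convRho_hm m gM gN hu hv, Lau.dg_sg]
    exact LinearMap.congr_fun h z

theorem Grd.Hm.mk {gM : Grd D M} {gN : Grd D N} {p q : ℤ} {u : M} {v : N} (hu : gM.Hm p u)
    (hv : gN.Hm q v) : (Grd.conv m gM gN).Hm (p + q) (Conv.mk D m M N u v) :=
  convRho_hm m gM gN hu hv

/-- criterion for homogeneity of a map out of the convolution product -/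
theorem HomDeg.of_mk {gM : Grd D M} {gN : Grd D N} {gP : Grd D P} {s : ℤ}
    {f : Conv D m M N →ₗ[KLRAlg D] P}
    (h : ∀ p q u v, gM.Hm p u → gN.Hm q v → gP.Hm (p + q + s) (f (Conv.mk D m M N u v))) :
    HomDeg (Grd.conv m gM gN) gP s f := by
  have h1 : gP.rho.comp f = ((Lau.shift D P s).comp (Lau.map f)).comp (Grd.conv m gM gN).rho := by
    apply Grd.hom_ext_hm gM gN
    intro p q u v hu hv
    have h2 := h p q u v hu hv
    have h3 : (Grd.conv m gM gN).Hm (p + q) (Conv.mk D m M N u v) := hu.mk m hv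
    unfold Grd.Hm at h2 h3
    rw [LinearMap.comp_apply, h2, LinearMap.comp_apply, h3, LinearMap.comp_apply, Lau.map_sg,
      Lau.shift_sg]
  exact fun u => LinearMap.congr_fun h1 u

end

section
variable {M N M' N' : Type} [AddCommGroup M] [Module K M] [Module (KLRAlg D) M]
  [IsScalarTower K (KLRAlg D) M] [AddCommGroup N] [Module K N] [Module (KLRAlg D) N]
  [IsScalarTower K (KLRAlg D) N] [AddCommGroup M'] [Module K M'] [Module (KLRAlg D) M']
  [IsScalarTower K (KLRAlg D) M'] [AddCommGroup N'] [Module K N'] [Module (KLRAlg D) N']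
  [IsScalarTower K (KLRAlg D) N']

theorem HomDeg.map {m m' : ℕ} (hm : m = m') {gM : Grd D M} {gN : Grd D N} {gM' : Grd D M'}
    {gN' : Grd D N'} {s s' : ℤ} {f : M →ₗ[KLRAlg D] M'} {g : N →ₗ[KLRAlg D] N'}
    (hf : HomDeg gM gM' s f) (hg : HomDeg gN gN' s' g) :
    HomDeg (Grd.conv m gM gN) (Grd.conv m' gM' gN') (s + s') (Conv.map hm f g) := by
  apply HomDeg.of_mk
  intro p q u v hu hv
  rw [Conv.map_mk]
  have h := (hf.hm hu).mk m' (hg.hm hv)
  convert h using 1
  ring

end

end Pool.Agent.KLR
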