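import Pool.Agent.Work.MP_e487d8_al.Grad.Sub

/-! MP_e487d8_al, GRAD: the associated graded submodule (top components); graded simple modules
are simple; a unique maximal submodule is homogeneous. -/

set_option autoImplicit false
set_option linter.unusedSectionVars false

namespace Pool.Agent.KLR

variable {K I : Type} [Field K] [Fintype I] [DecidableEq I] {D : Datum K I}

section

variable {M N P : Type} [AddCommGroup M] [Module K M] [Module (KLRAlg D) M]
  [IsScalarTower K (KLRAlg D) M]

theorem Grd.pr_e (g : Grd D M) (d : ℤ) (k : ℕ) (i : I) (u : M) :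
    g.pr d (D.e k i • u) = D.e k i • g.pr d u := by
  induction u using g.induction with
  | h0 => simp
  | hadd u v hu hv => rw [smul_add, map_add, map_add, smul_add, hu, hv]
  | h d' u hu =>
    rw [(hu.e k i).pr_eq, hu.pr_eq]
    split_ifs <;> simp

theorem Grd.pr_x (g : Grd D M) (d : ℤ) (k : ℕ) (u : M) :
    g.pr d (D.x k • u) = D.x k • g.pr (d - 2) u := by
  induction u using g.induction with
  | h0 => simp
  | hadd u v hu hv => rw [smul_add, map_add, map_add, smul_add, hu, hv]
  | h d' u hu =>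
    rw [(hu.x k).pr_eq, hu.pr_eq]
    by_cases h : d' + 2 = d
    · rw [if_pos h, if_pos (by omega)]
    · rw [if_neg h, if_neg (by omega), smul_zero]

theorem Grd.pr_t (g : Grd D M) (d : ℤ) (k : ℕ) (i j : I) (u : M) :
    g.pr d ((D.t k * (D.e k i * D.e (k + 1) j)) • u) =
      (D.t k * (D.e k i * D.e (k + 1) j)) • g.pr (d + D.A i j) u := by
  induction u using g.induction with
  | h0 => simp
  | hadd u v hu hv => rw [smul_add, map_add, map_add, smul_add, hu, hv]
  | h d' u hu =>
    rw [(hu.t k i j).pr_eq, hu.pr_eq]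
    by_cases h : d' - D.A i j = d
    · rw [if_pos h, if_pos (by omega)]
    · rw [if_neg h, if_neg (by omega), smul_zero]

/-- closure of a `K`-subspace under the KLR algebra -/
theorem smul_mem_of_gens (S : Submodule K M) (he : ∀ k i u, u ∈ S → D.e k i • u ∈ S)
    (hx : ∀ k u, u ∈ S → D.x k • u ∈ S)
    (ht : ∀ k i j u, u ∈ S → (D.t k * (D.e k i * D.e (k + 1) j)) • u ∈ S) (a : KLRAlg D) {u : M}
    (hu : u ∈ S) : a • u ∈ S := by
  induction a using KLRAlg.induction generalizing u with
  | hs r => rw [algebraMap_smul]; exact S.smul_mem r hu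
  | he k i => exact he k i u hu
  | hx k => exact hx k u hu
  | ht k =>
    rw [← Lau.t_smul_sum k u]
    exact Submodule.sum_mem _ fun i _ => Submodule.sum_mem _ fun j _ => ht k i j u hu
  | hadd a b ha hb => rw [add_smul]; exact S.add_mem (ha hu) (hb hu)
  | hmul a b ha hb => rw [mul_smul]; exact ha (hb hu)

/-- `s` is an element of `S` with components in degrees `≤ d` -/
def LeDeg (g : Grd D M) (S : Submodule (KLRAlg D) M) (d : ℤ) (s : M) : Prop :=
  s ∈ S ∧ ∀ e, d < e → g.pr e s = 0

theorem LeDeg.add {g : Grd D M} {S : Submodule (KLRAlg D) M} {d : ℤ} {s s' : M}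
    (h : LeDeg g S d s) (h' : LeDeg g S d s') : LeDeg g S d (s + s') :=
  ⟨S.add_mem h.1 h'.1, fun e he => by rw [map_add, h.2 e he, h'.2 e he, add_zero]⟩

theorem LeDeg.zero {g : Grd D M} {S : Submodule (KLRAlg D) M} {d : ℤ} : LeDeg g S d 0 :=
  ⟨S.zero_mem, fun _ _ => map_zero _⟩

/-- the top components of the elements of `S` -/
noncomputable def grSub (g : Grd D M) (S : Submodule (KLRAlg D) M) : Submodule (KLRAlg D) M :=
  let T : Submodule K M :=
    { carrier := {u | ∀ d, ∃ s, LeDeg g S d s ∧ g.pr d s = g.pr d u}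
      zero_mem' := fun d => ⟨0, LeDeg.zero, rfl⟩
      add_mem' := fun {u v} hu hv d => by
        obtain ⟨s, h1, h2⟩ := hu d
        obtain ⟨s', h3, h4⟩ := hv d
        exact ⟨s + s', h1.add h3, by rw [map_add, map_add, h2, h4]⟩
      smul_mem' := fun r u hu d => by
        obtain ⟨s, h1, h2⟩ := hu d
        refine ⟨r • s, ⟨?_, fun e he => by rw [map_smul, h1.2 e he, smul_zero]⟩, by
          rw [map_smul, map_smul, h2]⟩
        rw [← algebraMap_smul (KLRAlg D) r s]
        exact S.smul_mem _ h1.1 }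
  { carrier := T
    zero_mem' := T.zero_mem
    add_mem' := T.add_mem
    smul_mem' := fun a u hu => by
      refine smul_mem_of_gens T ?_ ?_ ?_ a hu
      · intro k i u hu d
        obtain ⟨s, h1, h2⟩ := hu d
        refine ⟨D.e k i • s, ⟨S.smul_mem _ h1.1, fun e he => ?_⟩, ?_⟩
        · rw [g.pr_e, h1.2 e he, smul_zero]
        · rw [g.pr_e, g.pr_e, h2]
      · intro k u hu d
        obtain ⟨s, h1, h2⟩ := hu (d - 2)
        refine ⟨D.x k • s, ⟨S.smul_mem _ h1.1, fun e he => ?_⟩, ?_⟩
        · rw [g.pr_x, h1.2 _ (by omega), smul_zero]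
        · rw [g.pr_x, g.pr_x, h2]
      · intro k i j u hu d
        obtain ⟨s, h1, h2⟩ := hu (d + D.A i j)
        refine ⟨(D.t k * (D.e k i * D.e (k + 1) j)) • s, ⟨S.smul_mem _ h1.1, fun e he => ?_⟩, ?_⟩
        · rw [g.pr_t, h1.2 _ (by omega), smul_zero]
        · rw [g.pr_t, g.pr_t, h2] }

theorem mem_grSub {g : Grd D M} {S : Submodule (KLRAlg D) M} {u : M} :
    u ∈ grSub g S ↔ ∀ d, ∃ s, LeDeg g S d s ∧ g.pr d s = g.pr d u := Iff.rfl

/-- `grSub` is homogeneous -/
theorem grSub_pr {g : Grd D M} {S : Submodule (KLRAlg D) M} {u : M} (h : u ∈ grSub g S) (d : ℤ) :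
    g.pr d u ∈ grSub g S := by
  rw [mem_grSub] at *
  intro e
  by_cases hde : d = e
  · subst hde
    obtain ⟨s, h1, h2⟩ := h d
    exact ⟨s, h1, by rw [h2, g.pr_pr, if_pos rfl]⟩
  · exact ⟨0, LeDeg.zero, by rw [g.pr_pr, if_neg hde, map_zero]⟩

/-- the top component of an element of `S` is in `grSub` -/
theorem LeDeg.top_mem {g : Grd D M} {S : Submodule (KLRAlg D) M} {d : ℤ} {s : M}
    (h : LeDeg g S d s) : g.pr d s ∈ grSub g S := by
  rw [mem_grSub]
  intro e
  by_cases hde : d = e
  · subst hde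
    exact ⟨s, h, by rw [g.pr_pr, if_pos rfl]⟩
  · exact ⟨0, LeDeg.zero, by rw [g.pr_pr, if_neg hde, map_zero]⟩

theorem exists_top (g : Grd D M) {u : M} (hu : u ≠ 0) :
    ∃ d, g.pr d u ≠ 0 ∧ ∀ e, d < e → g.pr e u = 0 := by
  classical
  obtain ⟨S, hS, _⟩ := g.sum_pr u
  obtain ⟨d₀, hd₀⟩ := g.exists_hm_ne hu
  let S' := S.filter fun d => g.pr d u ≠ 0
  have hne : S'.Nonempty := ⟨d₀, Finset.mem_filter.2 ⟨by
    by_contra h; exact hd₀ (hS _ h), hd₀⟩⟩
  refine ⟨S'.max' hne, (Finset.mem_filter.1 (S'.max'_mem hne)).2, fun e he => ?_⟩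
  by_contra h
  have : e ∈ S' := Finset.mem_filter.2 ⟨by by_contra h'; exact h (hS _ h'), h⟩
  exact absurd (S'.le_max' e this) (not_le.2 he)

theorem grSub_ne_bot {g : Grd D M} {S : Submodule (KLRAlg D) M} (h : S ≠ ⊥) : grSub g S ≠ ⊥ := by
  obtain ⟨u, hu, hu0⟩ := (Submodule.ne_bot_iff S).1 h
  obtain ⟨d, hd, hd'⟩ := exists_top g hu0
  exact (Submodule.ne_bot_iff _).2 ⟨g.pr d u, LeDeg.top_mem ⟨hu, hd'⟩, hd⟩

/-- induction from the bottom: if `grSub g S` is everything then `S` is everything -/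
theorem eq_top_of_grSub [FiniteDimensional K M] {g : Grd D M} {S : Submodule (KLRAlg D) M}
    (h : grSub g S = ⊤) : S = ⊤ := by
  obtain ⟨T, hT⟩ := g.fin_degrees
  -- a lower bound for the degrees
  obtain ⟨b, hb⟩ : ∃ b : ℤ, ∀ d, d < b → ∀ u, g.pr d u = 0 := by
    obtain ⟨b, hb⟩ := T.bddBelow
    exact ⟨b, fun d hd => hT d fun hd' => absurd (hb hd') (not_le.2 hd)⟩
  have key : ∀ k : ℕ, ∀ u : M, (∀ e, b + k ≤ e → g.pr e u = 0) → u ∈ S := by
    intro k
    induction k with
    | zero =>
      intro u hu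
      have : u = 0 := by
        by_contra hu0
        obtain ⟨d, hd⟩ := g.exists_hm_ne hu0
        rcases lt_or_ge d b with h1 | h1
        · exact hd (hb d h1 u)
        · exact hd (hu d (by simpa using h1))
      rw [this]
      exact S.zero_mem
    | succ k ih =>
      intro u hu
      have hu' : u ∈ grSub g S := by rw [h]; trivial
      obtain ⟨s, h1, h2⟩ := mem_grSub.1 hu' (b + k)
      have h3 : u - s ∈ S := by
        apply ih
        intro e he
        rw [map_sub]
        rcases eq_or_lt_of_le he with h4 | h4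
        · rw [← h4, h2, sub_self]
        · rw [h1.2 e h4, sub_zero]
          exact hu e (by push_cast; omega)
      have := S.add_mem h3 h1.1
      rwa [sub_add_cancel] at this
  rw [eq_top_iff]
  intro u _
  obtain ⟨B, hB⟩ := T.bddAbove
  refine key (B + 1 - b).toNat u fun e he => hT e (fun hd' => ?_) u
  have h5 := hB hd'
  have h6 := Int.self_le_toNat (B + 1 - b)
  omega

/-- if `grSub g S` is contained in `S` then `S` is homogeneous -/
theorem pr_mem_of_grSub_le {g : Grd D M} {S : Submodule (KLRAlg D) M} (h : grSub g S ≤ S) {u : M}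
    (hu : u ∈ S) (d : ℤ) : g.pr d u ∈ S := by
  classical
  have key : ∀ k : ℕ, ∀ u ∈ S, ∀ T : Finset ℤ, T.card ≤ k → (∀ e, e ∉ T → g.pr e u = 0) →
      ∀ d, g.pr d u ∈ S := by
    intro k
    induction k with
    | zero =>
      intro u _ T hT hT' d
      have : T = ∅ := Finset.card_eq_zero.1 (by omega)
      rw [hT' d (by rw [this]; simp)]
      exact S.zero_mem
    | succ k ih =>
      intro u hu T hT hT' d
      by_cases hu0 : u = 0
      · rw [hu0, map_zero]; exact S.zero_mem
      obtain ⟨t, ht, ht'⟩ := exists_top g hu0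
      have h1 : g.pr t u ∈ S := h (LeDeg.top_mem ⟨hu, ht'⟩)
      have htT : t ∈ T := by by_contra h2; exact ht (hT' t h2)
      have h3 := ih (u - g.pr t u) (S.sub_mem hu h1) (T.erase t) (by
        rw [Finset.card_erase_of_mem htT]; omega) (by
        intro e he
        rw [map_sub, g.pr_pr]
        by_cases h4 : t = e
        · rw [if_pos h4, h4, sub_self]
        · rw [if_neg h4, sub_zero]
          apply hT'
          intro h5
          exact he (Finset.mem_erase.2 ⟨Ne.symm h4, h5⟩)) d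
      rw [map_sub, g.pr_pr] at h3
      by_cases h4 : t = d
      · rwa [← h4]
      · rwa [if_neg h4, sub_zero] at h3
  obtain ⟨T, hT, _⟩ := g.sum_pr u
  exact key T.card u hu T le_rfl hT d

/-- a unique maximal submodule is homogeneous -/
theorem pr_mem_of_unique_max [FiniteDimensional K M] (g : Grd D M) {S : Submodule (KLRAlg D) M}
    (hS : S ≠ ⊤) (hmax : ∀ U : Submodule (KLRAlg D) M, U ≠ ⊤ → U ≤ S) {u : M} (hu : u ∈ S)
    (d : ℤ) : g.pr d u ∈ S :=
  pr_mem_of_grSub_le (hmax _ fun h => hS (eq_top_of_grSub h)) hu d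

/-- a graded simple module is simple -/
theorem simple_of_graded_simple [FiniteDimensional K M] [Nontrivial M] (g : Grd D M)
    (h : ∀ S : Submodule (KLRAlg D) M, (∀ u ∈ S, ∀ d, g.pr d u ∈ S) → S = ⊥ ∨ S = ⊤) :
    IsSimpleModule (KLRAlg D) M := by
  rw [isSimpleModule_iff]
  refine { exists_pair_ne := exists_pair_ne _, eq_bot_or_eq_top := fun S => ?_ }
  by_cases hS : S = ⊥
  · exact Or.inl hS
  · right
    rcases h (grSub g S) (fun u hu d => grSub_pr hu d) with h1 | h1
    · exact absurd h1 (grSub_ne_bot hS)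
    · exact eq_top_of_grSub h1

end

end Pool.Agent.KLR
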