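import Pool.Agent.Work.MP_e487d8_al.Grad.Word
import Pool.Agent.Work.MP_e487d8_al.Rmat.Lead

/-! MP_e487d8_al, GRAD: the degree of the R-matrix and of its leading term. -/

set_option autoImplicit false
set_option linter.unusedSectionVars false

namespace Pool.Agent.KLR

variable {K I : Type} [Field K] [Fintype I] [DecidableEq I] {D : Datum K I}

/-- the module has the weight `β` -/
def WtOf (D : Datum K I) (n : ℕ) (M : Type) [AddCommGroup M] [Module (KLRAlg D) M] (β : I → ℕ) :
    Prop :=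
  ∀ (ν : List I) (u : M), ν.length = n → WdAt D 0 ν u → u ≠ 0 → ∀ i, ν.count i = β i

/-- the degree of the R-matrix for the weights `β`, `γ` -/
def dqw (D : Datum K I) (β γ : I → ℕ) : ℤ := ∑ i, ∑ j, dq D i j * (β i * γ j)

theorem dq_symm (i j : I) : dq D i j = dq D j i := by
  unfold dq Datum.q
  rw [D.symm i j]
  simp only [eq_comm]

theorem dqw_symm (β γ : I → ℕ) : dqw D β γ = dqw D γ β := by
  unfold dqw
  rw [Finset.sum_comm]
  refine Finset.sum_congr rfl fun i _ => Finset.sum_congr rfl fun j _ => ?_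
  rw [dq_symm]
  ring

theorem sum_map_count (f : I → ℤ) (ν : List I) : (ν.map f).sum = ∑ i, (ν.count i : ℤ) * f i := by
  induction ν with
  | nil => simp
  | cons a ν ih =>
    rw [List.map_cons, List.sum_cons, ih]
    simp only [List.count_cons]
    have : ∀ i, ((ν.count i + if a == i then 1 else 0 : ℕ) : ℤ) * f i =
        (ν.count i : ℤ) * f i + if a = i then f i else 0 := by
      intro i
      by_cases h : a = i
      · simp [h]; ring
      · simp [h]
    simp only [this, Finset.sum_add_distrib, Finset.sum_ite_eq, Finset.mem_univ, if_true]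
    ring

theorem dqs_eq (ν μ : List I) : dqs D ν μ = dqw D (fun i => ν.count i) (fun i => μ.count i) := by
  unfold dqs dqw
  rw [sum_map_count]
  refine Finset.sum_congr rfl fun i _ => ?_
  rw [sum_map_count, Finset.mul_sum]
  refine Finset.sum_congr rfl fun j _ => ?_
  ring

section

variable {m n : ℕ} {M N P : Type} [AddCommGroup M] [Module K M] [Module (KLRAlg D) M]
  [IsScalarTower K (KLRAlg D) M] [AddCommGroup N] [Module K N] [Module (KLRAlg D) N]
  [IsScalarTower K (KLRAlg D) N] [AddCommGroup P] [Module K P] [Module (KLRAlg D) P]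
  [IsScalarTower K (KLRAlg D) P]

theorem Grd.hom_ext_wd (hM : IsStrand D m M) (hN : IsStrand D n N) (gM : Grd D M) (gN : Grd D N)
    {f g : Conv D m M N →ₗ[KLRAlg D] P}
    (h : ∀ p q ν μ u v, ν.length = m → WdAt D 0 ν u → gM.Hm p u → μ.length = n → WdAt D 0 μ v →
      gN.Hm q v → f (Conv.mk D m M N u v) = g (Conv.mk D m M N u v)) : f = g := by
  apply Conv.hom_ext
  intro u v
  induction u using gM.word_induction hM with
  | h0 => simp
  | hadd u u' hu hu' => rw [map_add, LinearMap.add_apply, map_add, map_add, hu, hu']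
  | h p ν u hν hw hu =>
    induction v using gN.word_induction hN with
    | h0 => simp
    | hadd v v' hv hv' => rw [map_add, map_add, map_add, hv, hv']
    | h q μ v hμ hw' hv => exact h p q ν μ u v hν hw hu hμ hw' hv

/-- criterion for homogeneity of a map out of the convolution product -/
theorem HomDeg.of_mk_wd (hM : IsStrand D m M) (hN : IsStrand D n N) {gM : Grd D M} {gN : Grd D N}
    {gP : Grd D P} {s : ℤ} {f : Conv D m M N →ₗ[KLRAlg D] P}
    (h : ∀ p q ν μ u v, ν.length = m → WdAt D 0 ν u → gM.Hm p u → μ.length = n → WdAt D 0 μ v →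
      gN.Hm q v → gP.Hm (p + q + s) (f (Conv.mk D m M N u v))) :
    HomDeg (Grd.conv m gM gN) gP s f := by
  have h1 : gP.rho.comp f = ((Lau.shift D P s).comp (Lau.map f)).comp (Grd.conv m gM gN).rho := by
    apply Grd.hom_ext_wd hM hN gM gN
    intro p q ν μ u v a1 a2 hu a3 a4 hv
    have h2 := h p q ν μ u v a1 a2 hu a3 a4 hv
    have h3 : (Grd.conv m gM gN).Hm (p + q) (Conv.mk D m M N u v) := hu.mk m hv
    unfold Grd.Hm at h2 h3
    rw [LinearMap.comp_apply, h2, LinearMap.comp_apply, h3, LinearMap.comp_apply, Lau.map_sg,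
      Lau.shift_sg]
  exact fun u => LinearMap.congr_fun h1 u

theorem WdAt.mk {ν μ : List I} {u : M} {v : N} (hν : ν.length = m) (hu : WdAt D 0 ν u)
    (hv : WdAt D 0 μ v) : WdAt D 0 (ν ++ μ) (Conv.mk D m M N u v) := by
  rw [wdAt_append, zero_add, wdAt_zero_iff, wdAt_iff_eW, hν, Conv.shn_smul_mk]
  rw [wdAt_zero_iff] at hu hv
  refine ⟨?_, by rw [hv]⟩
  have h := Conv.tr_smul_mk (D := D) (m := m) (D.eW ν) u v
  rwa [D.tr_eW ν hν.le, hu] at h

/-- the degree of the R-matrix -/
theorem HomDeg.Rm (hM : IsStrand D m M) (hN : IsStrand D n N) {gM : Grd D M} {gN : Grd D N}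
    {β γ : I → ℕ} (hβ : WtOf D m M β) (hγ : WtOf D n N γ) :
    HomDeg (Grd.conv m gM gN) (Grd.conv n gN gM) (dqw D β γ) (Conv.Rm hM hN) := by
  apply HomDeg.of_mk_wd hM hN
  intro p q ν μ u v hν hwu hu hμ hwv hv
  rw [Conv.Rm_mk]
  by_cases hu0 : u = 0
  · rw [hu0]; simpa using Grd.Hm.zero
  by_cases hv0 : v = 0
  · rw [hv0]; simpa using Grd.Hm.zero
  have h1 : (Grd.conv n gN gM).Hm (q + p) (Conv.mk D n N M v u) := hv.mk n hu
  have h2 : WdAt D 0 (μ ++ (ν ++ [])) (Conv.mk D n N M v u) := by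
    rw [List.append_nil]; exact hwv.mk hμ hwu
  have h3 := (h1.ph μ ν [] 0 h2).1
  rw [D.shn_zero, hν, hμ, dqs_eq] at h3
  have h4 : (fun i => ν.count i) = β := funext (hβ ν u hν hwu hu0)
  have h5 : (fun i => μ.count i) = γ := funext (hγ μ v hμ hwv hv0)
  rw [h4, h5, dqw_symm] at h3
  convert h3 using 1
  ring

theorem HomDeg.pow {g : Grd D P} {s : ℤ} {f : P →ₗ[KLRAlg D] P} (hf : HomDeg g g s f) (k : ℕ) :
    HomDeg g g (k * s) (f ^ k) := by
  induction k with
  | zero =>
    rw [pow_zero, Nat.cast_zero, zero_mul]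
    exact HomDeg.id
  | succ k ih =>
    rw [pow_succ', Module.End.mul_eq_comp]
    convert ih.comp hf using 1
    push_cast
    ring

end

section

variable {m n : ℕ} {W C N : Type}
  [AddCommGroup W] [Module K W] [Module (KLRAlg D) W] [IsScalarTower K (KLRAlg D) W]
  [AddCommGroup C] [Module K C] [Module (KLRAlg D) C] [IsScalarTower K (KLRAlg D) C]
  [AddCommGroup N] [Module K N] [Module (KLRAlg D) N] [IsScalarTower K (KLRAlg D) N]
  {Z : W →ₗ[KLRAlg D] W} {p : W →ₗ[KLRAlg D] C}

/-- the degree of the leading term of the R-matrix -/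
theorem Lead.homDeg (hb : S_basis D) {hA : IsAff D m Z p} {hN : IsStrand D n N} {s : ℕ}
    {r : Conv D m C N →ₗ[KLRAlg D] Conv D n N C} (h : Lead hA hN s r) {gW : Grd D W} {gC : Grd D C}
    {gN : Grd D N} (hZ : HomDeg gW gW 2 Z) (hp : HomDeg gW gC 0 p) {β γ : I → ℕ}
    (hβ : WtOf D m W β) (hγ : WtOf D n N γ) :
    HomDeg (Grd.conv m gC gN) (Grd.conv n gN gC) (dqw D β γ - 2 * s) r := by
  obtain ⟨T, hT, hr⟩ := h
  have h1 := HomDeg.Rm (gM := gW) (gN := gN) hA.strand hN hβ hγ
  have h2 : HomDeg (Grd.conv n gN gW) (Grd.conv n gN gW) 2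
      (Conv.map (rfl : n = n) (LinearMap.id : N →ₗ[KLRAlg D] N) Z) := by
    have := HomDeg.map (rfl : n = n) (HomDeg.id (gM := gN)) hZ
    rwa [zero_add] at this
  have h3 : HomDeg (Grd.conv m gW gN) (Grd.conv n gN gW) (dqw D β γ - 2 * s) T := by
    refine HomDeg.of_comp_left (h2.pow s) ((hA.redR hb hN).pow_inj s) ?_
    rw [← hT]
    convert h1 using 1
    ring
  have h4 : HomDeg (Grd.conv n gN gW) (Grd.conv n gN gC) 0
      (Conv.map (rfl : n = n) (LinearMap.id : N →ₗ[KLRAlg D] N) p) := by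
    have := HomDeg.map (rfl : n = n) (HomDeg.id (gM := gN)) hp
    rwa [zero_add] at this
  have h5 : HomDeg (Grd.conv m gW gN) (Grd.conv m gC gN) 0
      (Conv.map (rfl : m = m) p (LinearMap.id : N →ₗ[KLRAlg D] N)) := by
    have := HomDeg.map (rfl : m = m) hp (HomDeg.id (gM := gN))
    rwa [zero_add] at this
  refine HomDeg.of_comp_right h5 (hA.redL hb hN).surj ?_
  rw [← hr]
  have h6 := h3.comp h4
  convert h6 using 1
  ring

end

end Pool.Agent.KLR
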