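import Pool.Agent.Work.MP_e487d8_al.Grad.Kr
import Pool.Agent.Work.MP_e487d8_al.Grad.Rdeg
import Pool.Agent.Work.MP_e487d8_al.Pbw.W
import Pool.Agent.Work.MP_e487d8_al.Conv.Fin

/-! MP_e487d8_al, GRAD: the map `Kr i a M ∘ Kr i b N → Kr i (a + b) (M ∘ N)` for `a = ε_i(M)`. -/

set_option autoImplicit false
set_option linter.unusedSectionVars false

namespace Pool.Agent.KLR

variable {K I : Type} [Field K] [Fintype I] [DecidableEq I] {D : Datum K I}

/-- moves `b` strands over `m` strands -/
noncomputable def Datum.CH (D : Datum K I) (m : ℕ) : ℕ → KLRAlg D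
  | 0 => 1
  | b + 1 => D.shn 1 (D.CH m b) * D.chain m

section

variable {i : I} {m : ℕ} {U N P : Type}
  [AddCommGroup U] [Module K U] [Module (KLRAlg D) U] [IsScalarTower K (KLRAlg D) U]
  [AddCommGroup N] [Module K N] [Module (KLRAlg D) N] [IsScalarTower K (KLRAlg D) N]
  [AddCommGroup P] [Module K P] [Module (KLRAlg D) P] [IsScalarTower K (KLRAlg D) P]
  {β : U →ₗ[K] N →ₗ[K] P}

theorem e0_W_smul (hβ : Balanced D m β) (h0 : ∀ w : U, D.e 0 i • w = 0) {w : KLRAlg D}
    (hw : w ∈ Pbw.W D m) (u : U) (v : N) : D.e 0 i • w • β u v = 0 := by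
  unfold Pbw.W at hw
  induction hw using Submodule.span_induction with
  | mem w hw =>
    obtain ⟨hm, a, b, rfl⟩ := hw
    have h1 := D.tr_mul_shn (le_refl 1) (D.e 0 i) a
    rw [D.tr_e, if_pos (by omega)] at h1
    have h2 : D.e 0 i • β (b • u) v = 0 := by
      have h3 := hβ.left (D.e 0 i) (b • u) v
      rw [D.tr_e, if_pos hm, h0, map_zero, LinearMap.zero_apply] at h3
      exact h3
    rw [mul_smul, hβ.left, ← mul_smul, h1, mul_smul, h2, smul_zero]
  | zero => rw [zero_smul, smul_zero]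
  | add x y _ _ hx hy => rw [add_smul, smul_add, hx, hy, add_zero]
  | smul r x _ hx => rw [smul_assoc, smul_comm, hx, smul_zero]

theorem e0_chain_smul (hβ : Balanced D m β) (u : U) {v : N} (hv : D.e 0 i • v = v) :
    D.e 0 i • D.chain m • β u v = D.chain m • β u v := by
  have h1 := hβ.right (D.e 0 i) u v
  rw [D.shn_e, Nat.add_zero, hv] at h1
  rw [← mul_smul, D.e0_chain, mul_smul, h1]

theorem tr_chain_smul (hβ : Balanced D m β) (h0 : ∀ w : U, D.e 0 i • w = 0) (a : KLRAlg D) (u : U)
    {v : N} (hv : D.e 0 i • v = v) :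
    D.shn 1 (D.tr m a) • D.chain m • β u v = D.chain m • β (a • u) v := by
  have h1 := D.tr_mul_shn (le_refl 1) (D.e 0 i) (D.tr m a)
  rw [D.tr_e, if_pos (by omega)] at h1
  have h2 := e0_W_smul hβ h0 (Pbw.prf_W1 D m a) u v
  rw [sub_smul, smul_sub, mul_smul, mul_smul (D.chain m), hβ.left, e0_chain_smul hβ _ hv,
    ← mul_smul, h1, mul_smul, e0_chain_smul hβ _ hv, sub_eq_zero] at h2
  exact h2

theorem shn_chain_smul (hβ : Balanced D m β) (a : KLRAlg D) (u : U) (v : N) :
    D.shn 1 (D.shn m a) • D.chain m • β u v = D.chain m • β u (D.shn 1 a • v) := by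
  rw [D.shn_shn, Nat.add_comm 1 m, ← mul_smul, D.shn_chain_comm, mul_smul, ← D.shn_shn, hβ.right]

theorem x0_chain_smul (hβ : Balanced D m β) (h0 : ∀ w : U, D.e 0 i • w = 0) (u : U)
    {v : N} (hv : D.e 0 i • v = v) :
    D.x 0 • D.chain m • β u v = D.chain m • β u (D.x 0 • v) := by
  have h2 := e0_W_smul hβ h0 (Pbw.prf_W2 D m) u v
  have h3 := hβ.right (D.x 0) u v
  rw [D.shn_x, Nat.add_zero] at h3
  have h4 : D.e 0 i • D.x 0 • v = D.x 0 • v := by
    rw [← mul_smul, ← D.x_e, mul_smul, hv]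
  rw [sub_smul, smul_sub, mul_smul, mul_smul (D.chain m), h3, e0_chain_smul hβ _ h4,
    ← mul_smul, ← D.x_e, mul_smul, e0_chain_smul hβ _ hv, sub_eq_zero] at h2
  exact h2

theorem isKr_chain (hβ : Balanced D m β) (h0 : ∀ w : U, D.e 0 i • w = 0) (u : U)
    {v : N} (hv : IsKr D i 1 v) : IsKr D i 1 (D.chain m • β u v) := by
  intro k hk
  have hk' : k = 0 := by omega
  subst hk'
  have hv := hv 0 hk
  rw [e0_chain_smul hβ _ hv.1, x0_chain_smul hβ h0 _ hv.1, hv.2, map_zero, smul_zero]
  exact ⟨rfl, rfl⟩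

variable (i m) in
/-- the bilinear map `chain m • β u v` -/
noncomputable def stepB (β : U →ₗ[K] N →ₗ[K] P) (hβ : Balanced D m β)
    (h0 : ∀ w : U, D.e 0 i • w = 0) : U →ₗ[K] Kr D i 1 N →ₗ[K] Kr D i 1 P :=
  LinearMap.mk₂ K (fun u v => Kr.of (D.chain m • β u (Kr.val v))
      (isKr_chain hβ h0 u (Kr.val_isKr v)))
    (fun u u' v => Kr.val_injective (by
      change D.chain m • β (u + u') (Kr.val v) =
        D.chain m • β u (Kr.val v) + D.chain m • β u' (Kr.val v)
      rw [map_add, LinearMap.add_apply, smul_add]))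
    (fun r u v => Kr.val_injective (by
      change D.chain m • β (r • u) (Kr.val v) = r • (D.chain m • β u (Kr.val v))
      rw [map_smul, LinearMap.smul_apply, smul_comm]))
    (fun u v v' => Kr.val_injective (by
      change D.chain m • β u (Kr.val v + Kr.val v') =
        D.chain m • β u (Kr.val v) + D.chain m • β u (Kr.val v')
      rw [map_add, smul_add]))
    (fun r u v => Kr.val_injective (by
      change D.chain m • β u (r • Kr.val v) = r • (D.chain m • β u (Kr.val v))
      rw [map_smul, smul_comm]))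

theorem val_stepB (hβ : Balanced D m β) (h0 : ∀ w : U, D.e 0 i • w = 0) (u : U)
    (v : Kr D i 1 N) : Kr.val (stepB i m β hβ h0 u v) = D.chain m • β u (Kr.val v) := rfl

theorem CH_succ_smul {b : ℕ} (hβ : Balanced D m β) (h0 : ∀ w : U, D.e 0 i • w = 0) (u : U)
    (v : Kr D i 1 N) : D.CH m (b + 1) • β u (Kr.val v) =
      Kr.val (D.CH m b • stepB i m β hβ h0 u v) := by
  rw [Kr.val_smul, val_stepB, Datum.CH, mul_smul]

theorem stepB_bal (hβ : Balanced D m β) (h0 : ∀ w : U, D.e 0 i • w = 0) :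
    Balanced D m (stepB i m β hβ h0) where
  left a u v := Kr.val_injective (by
    rw [Kr.val_smul, val_stepB, val_stepB, tr_chain_smul hβ h0 _ _ (Kr.val_isKr v 0 (by omega)).1])
  right a u v := Kr.val_injective (by
    rw [Kr.val_smul, val_stepB, val_stepB, shn_chain_smul hβ, Kr.val_smul])

end

theorem CH_bal (D : Datum K I) {i : I} {m : ℕ} {U : Type}
    [AddCommGroup U] [Module K U] [Module (KLRAlg D) U] [IsScalarTower K (KLRAlg D) U]
    (h0 : ∀ w : U, D.e 0 i • w = 0) : ∀ (b : ℕ) (N P : Type)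
    [AddCommGroup N] [Module K N] [Module (KLRAlg D) N] [IsScalarTower K (KLRAlg D) N]
    [AddCommGroup P] [Module K P] [Module (KLRAlg D) P] [IsScalarTower K (KLRAlg D) P]
    (β : U →ₗ[K] N →ₗ[K] P), Balanced D m β → ∀ (u : U) (v : N), IsKr D i b v →
    IsKr D i b (D.CH m b • β u v) ∧
    (∀ a, D.shn b (D.tr m a) • D.CH m b • β u v = D.CH m b • β (a • u) v) ∧
    (∀ a, D.shn b (D.shn m a) • D.CH m b • β u v = D.CH m b • β u (D.shn b a • v)) := by
  intro b
  induction b with
  | zero =>
    intro N P _ _ _ _ _ _ _ _ β hβ u v hv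
    refine ⟨isKr_nil _, fun a => ?_, fun a => ?_⟩
    · rw [D.shn_zero, Datum.CH, one_smul, one_smul, hβ.left]
    · rw [D.shn_zero, D.shn_zero, Datum.CH, one_smul, one_smul, hβ.right]
  | succ b ih =>
    intro N P _ _ _ _ _ _ _ _ β hβ u v hv
    have hv1 : IsKr D i 1 v := hv.mono (by omega)
    obtain ⟨h1, h2, h3⟩ := ih (Kr D i 1 N) (Kr D i 1 P) (stepB i m β hβ h0) (stepB_bal hβ h0) u
      (Kr.of v hv1) (by
        intro k hk
        constructor
        · apply Kr.val_injective
          rw [Kr.val_smul, Kr.val_of, D.shn_e]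
          exact (hv (1 + k) (by omega)).1
        · apply Kr.val_injective
          rw [Kr.val_smul, Kr.val_of, D.shn_x, Kr.val_zero]
          exact (hv (1 + k) (by omega)).2)
    have key := CH_succ_smul (b := b) hβ h0
    have key1 := key u (Kr.of v hv1)
    rw [Kr.val_of] at key1
    refine ⟨?_, fun a => ?_, fun a => ?_⟩
    · intro k hk
      rcases Nat.eq_zero_or_pos k with h | h
      · subst h
        rw [key1]
        exact Kr.val_isKr _ 0 (by omega)
      · obtain ⟨k, rfl⟩ : ∃ l, k = 1 + l := ⟨k - 1, by omega⟩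
        obtain ⟨h4, h5⟩ := h1 k (by omega)
        have h4' := congrArg Kr.val h4
        have h5' := congrArg Kr.val h5
        rw [Kr.val_smul, D.shn_e] at h4'
        rw [Kr.val_smul, D.shn_x] at h5'
        rw [key1]
        exact ⟨h4', h5'⟩
    · have h4 := congrArg Kr.val (h2 a)
      rw [← key, Kr.val_of, Kr.val_smul, ← key1, D.shn_shn, Nat.add_comm 1 b] at h4
      exact h4
    · have h4 := congrArg Kr.val (h3 a)
      rw [Kr.val_smul, ← key, ← key, Kr.val_smul, Kr.val_of, D.shn_shn 1 b, D.shn_shn 1 b,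
        Nat.add_comm 1 b] at h4
      exact h4

/-! ### degrees -/

/-- `(α_i, γ)` -/
def prw (D : Datum K I) (i : I) (γ : I → ℕ) : ℤ := ∑ j, D.A i j * (γ j : ℤ)

/-- homogeneous bilinear maps -/
def HomBil {U N P : Type}
    [AddCommGroup U] [Module K U] [Module (KLRAlg D) U] [IsScalarTower K (KLRAlg D) U]
    [AddCommGroup N] [Module K N] [Module (KLRAlg D) N] [IsScalarTower K (KLRAlg D) N]
    [AddCommGroup P] [Module K P] [Module (KLRAlg D) P] [IsScalarTower K (KLRAlg D) P]
    (gU : Grd D U) (gN : Grd D N) (gP : Grd D P) (s : ℤ) (β : U →ₗ[K] N →ₗ[K] P) : Prop :=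
  ∀ p q u v, gU.Hm p u → gN.Hm q v → gP.Hm (p + q + s) (β u v)

section

variable {i : I} {m : ℕ} {U N P : Type}
  [AddCommGroup U] [Module K U] [Module (KLRAlg D) U] [IsScalarTower K (KLRAlg D) U]
  [AddCommGroup N] [Module K N] [Module (KLRAlg D) N] [IsScalarTower K (KLRAlg D) N]
  [AddCommGroup P] [Module K P] [Module (KLRAlg D) P] [IsScalarTower K (KLRAlg D) P]
  {β : U →ₗ[K] N →ₗ[K] P}

/-- the word and the degree after the crossing `t k` -/
theorem Grd.Hm.chain {g : Grd D P} (ν ρ : List I) (i : I) {d : ℤ} {u : P} (h : g.Hm d u)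
    (hw : WdAt D 0 (ν ++ i :: ρ) u) :
    g.Hm (d - (ν.map fun j => D.A i j).sum) (D.chain ν.length • u) := by
  induction ν using List.reverseRecOn generalizing ρ d u with
  | nil =>
    rw [List.length_nil, Datum.chain, one_smul]
    simpa using h
  | append_singleton ν a ih =>
    rw [List.append_assoc, wdAt_append, zero_add] at hw
    obtain ⟨h1, h2, h3, h4⟩ := hw
    have h5 := ih (a :: ρ) (h.t_col h2 h3) (by
      rw [wdAt_append, zero_add]
      refine ⟨h1.smul fun l j _ hl => D.t_e _ _ _ (by omega) (by omega), ?_, ?_, ?_⟩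
      · unfold Col at *
        rw [← mul_smul, ← D.t_e1, mul_smul, h3]
      · unfold Col at *
        rw [← mul_smul, ← D.t_e0, mul_smul, h2]
      · exact h4.smul fun l j hl _ => D.t_e _ _ _ (by omega) (by omega))
    rw [List.length_append, List.length_singleton, Datum.chain, mul_smul]
    convert h5 using 1
    rw [List.map_append, List.sum_append, List.map_singleton, List.sum_singleton, D.symm i a]
    ring

theorem stepB_hom {gU : Grd D U} {gN : Grd D N} {gP : Grd D P} {s : ℤ} {γ : I → ℕ}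
    (hU : IsStrand D m U) (hγ : WtOf D m U γ) (hβ : Balanced D m β)
    (h0 : ∀ w : U, D.e 0 i • w = 0) (h : HomBil gU gN gP s β) :
    HomBil gU (gN.kr i 1) (gP.kr i 1) (s - prw D i γ) (stepB i m β hβ h0) := by
  intro p q u v hu hv
  rw [Grd.kr_hm] at hv ⊢
  rw [val_stepB]
  have key : ∀ u : U, gP.Hm (p + q + (s - prw D i γ)) (D.chain m • β (gU.pr p u) (Kr.val v)) := by
    intro u
    induction u using gU.word_induction hU with
    | h0 => simpa using Grd.Hm.zero
    | hadd u u' hu hu' =>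
      rw [map_add, map_add, LinearMap.add_apply, smul_add]
      exact hu.add hu'
    | h d ν u hν hw hd =>
      rw [hd.pr_eq]
      by_cases hdp : d = p
      · subst hdp
        rw [if_pos rfl]
        by_cases hu0 : u = 0
        · rw [hu0]; simpa using Grd.Hm.zero
        have h1 := h d q u (Kr.val v) hd hv
        have h2 : WdAt D 0 (ν ++ i :: []) (β u (Kr.val v)) := by
          rw [wdAt_append, zero_add, hν]
          refine ⟨?_, ?_, trivial⟩
          · rw [wdAt_zero_iff] at hw ⊢
            have h3 := hβ.left (D.eW ν) u (Kr.val v)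
            rwa [D.tr_eW ν hν.le, hw] at h3
          · unfold Col
            have h3 := hβ.right (D.e 0 i) u (Kr.val v)
            rwa [D.shn_e, Nat.add_zero, (Kr.val_isKr v 0 (by omega)).1] at h3
        have h3 := h1.chain ν [] i h2
        have h4 : (fun j => ν.count j) = γ := funext (hγ ν u hν hw hu0)
        rw [hν, sum_map_count] at h3
        convert h3 using 1
        rw [← h4, add_sub_assoc, prw]
        congr 2
        exact Finset.sum_congr rfl fun j _ => mul_comm _ _
      · rw [if_neg hdp]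
        simpa using Grd.Hm.zero
  have h1 := key u
  rwa [Grd.hm_iff.1 hu] at h1

end

theorem CH_hom {i : I} {m : ℕ} {U : Type}
    [AddCommGroup U] [Module K U] [Module (KLRAlg D) U] [IsScalarTower K (KLRAlg D) U]
    (h0 : ∀ w : U, D.e 0 i • w = 0) {gU : Grd D U} {γ : I → ℕ} (hU : IsStrand D m U)
    (hγ : WtOf D m U γ) : ∀ (b : ℕ) (N P : Type)
    [AddCommGroup N] [Module K N] [Module (KLRAlg D) N] [IsScalarTower K (KLRAlg D) N]
    [AddCommGroup P] [Module K P] [Module (KLRAlg D) P] [IsScalarTower K (KLRAlg D) P]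
    (gN : Grd D N) (gP : Grd D P) (s : ℤ)
    (β : U →ₗ[K] N →ₗ[K] P), Balanced D m β → HomBil gU gN gP s β → ∀ (p q : ℤ) (u : U) (v : N),
    gU.Hm p u → gN.Hm q v → IsKr D i b v →
    gP.Hm (p + q + s - b * prw D i γ) (D.CH m b • β u v) := by
  intro b
  induction b with
  | zero =>
    intro N P _ _ _ _ _ _ _ _ gN gP s β hβ h p q u v hu hv _
    have h1 := h p q u v hu hv
    rw [Datum.CH, one_smul]
    convert h1 using 1
    push_cast
    ring
  | succ b ih =>
    intro N P _ _ _ _ _ _ _ _ gN gP s β hβ h p q u v hu hv hk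
    have hv1 : IsKr D i 1 v := hk.mono (by omega)
    have h1 := ih (Kr D i 1 N) (Kr D i 1 P) (gN.kr i 1) (gP.kr i 1) (s - prw D i γ)
      (stepB i m β hβ h0) (stepB_bal hβ h0) (stepB_hom hU hγ hβ h0 h) p q u (Kr.of v hv1) hu
      (Grd.kr_hm.2 hv) (by
        intro k hk'
        constructor
        · apply Kr.val_injective
          rw [Kr.val_smul, Kr.val_of, D.shn_e]
          exact (hk (1 + k) (by omega)).1
        · apply Kr.val_injective
          rw [Kr.val_smul, Kr.val_of, D.shn_x, Kr.val_zero]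
          exact (hk (1 + k) (by omega)).2)
    rw [Grd.kr_hm, ← CH_succ_smul, Kr.val_of] at h1
    convert h1 using 1
    push_cast
    ring

end Pool.Agent.KLR
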