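import Pool.Agent.Work.MP_e487d8_al.Grad.J

/-! MP_e487d8_al, GRAD: the map `J : Kr i a M ∘ Kr i b N → Kr i (a + b) (M ∘ N)`. -/

set_option autoImplicit false
set_option linter.unusedSectionVars false

open scoped TensorProduct

namespace Pool.Agent.KLR

variable {K I : Type} [Field K] [Fintype I] [DecidableEq I] {D : Datum K I}

section

variable {i : I} {m m' a b c : ℕ} {M N : Type}
  [AddCommGroup M] [Module K M] [Module (KLRAlg D) M] [IsScalarTower K (KLRAlg D) M]
  [AddCommGroup N] [Module K N] [Module (KLRAlg D) N] [IsScalarTower K (KLRAlg D) N]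

theorem isKr_mk (hm : a ≤ m) {u : M} (hu : IsKr D i a u) (v : N) :
    IsKr D i a (Conv.mk D m M N u v) := by
  intro k hk
  have h1 := Conv.tr_smul_mk (D := D) (m := m) (D.e k i) u v
  have h2 := Conv.tr_smul_mk (D := D) (m := m) (D.x k) u v
  rw [D.tr_e, if_pos (by omega), (hu k hk).1] at h1
  rw [D.tr_x, if_pos (by omega), (hu k hk).2, map_zero, LinearMap.zero_apply] at h2
  exact ⟨h1, h2⟩

variable (D i m a M N) in
/-- the base map -/
noncomputable def baseB (hm : a ≤ m) : Kr D i a M →ₗ[K] N →ₗ[K] Kr D i a (Conv D m M N) :=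
  LinearMap.mk₂ K (fun u v => Kr.of (Conv.mk D m M N (Kr.val u) v) (isKr_mk hm (Kr.val_isKr u) v))
    (fun u u' v => Kr.val_injective (by
      change Conv.mk D m M N (Kr.val u + Kr.val u') v =
        Conv.mk D m M N (Kr.val u) v + Conv.mk D m M N (Kr.val u') v
      rw [map_add, LinearMap.add_apply]))
    (fun r u v => Kr.val_injective (by
      change Conv.mk D m M N (r • Kr.val u) v = r • Conv.mk D m M N (Kr.val u) v
      rw [map_smul, LinearMap.smul_apply]))
    (fun u v v' => Kr.val_injective (by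
      change Conv.mk D m M N (Kr.val u) (v + v') =
        Conv.mk D m M N (Kr.val u) v + Conv.mk D m M N (Kr.val u) v'
      rw [map_add]))
    (fun r u v => Kr.val_injective (by
      change Conv.mk D m M N (Kr.val u) (r • v) = r • Conv.mk D m M N (Kr.val u) v
      rw [map_smul]))

theorem val_baseB (hm : a ≤ m) (u : Kr D i a M) (v : N) :
    Kr.val (baseB D i m a M N hm u v) = Conv.mk D m M N (Kr.val u) v := rfl

theorem baseB_bal (hm : a ≤ m) (hm' : m = a + m') : Balanced D m' (baseB D i m a M N hm) where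
  left x u v := Kr.val_injective (by
    rw [Kr.val_smul, val_baseB, val_baseB, ← D.tr_shn, ← hm', Conv.tr_smul_mk, Kr.val_smul])
  right x u v := Kr.val_injective (by
    rw [Kr.val_smul, val_baseB, val_baseB, D.shn_shn, ← hm', Conv.shn_smul_mk])

theorem baseB_hom (hm : a ≤ m) (gM : Grd D M) (gN : Grd D N) :
    HomBil (gM.kr i a) gN ((Grd.conv m gM gN).kr i a) 0 (baseB D i m a M N hm) := by
  intro p q u v hu hv
  rw [Grd.kr_hm] at hu ⊢
  rw [add_zero, val_baseB]
  exact hu.mk m hv

theorem val_CH_baseB (hm : a ≤ m) (u : Kr D i a M) (v : N) :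
    Kr.val (D.CH m' b • baseB D i m a M N hm u v) =
      D.shn a (D.CH m' b) • Conv.mk D m M N (Kr.val u) v := rfl

variable (hm' : m = a + m') (hc : a + b = c) (h0 : ∀ w : Kr D i a M, D.e 0 i • w = 0)

include hm' hc h0

theorem isKr_J (u : Kr D i a M) (v : Kr D i b N) :
    IsKr D i c (D.shn a (D.CH m' b) • Conv.mk D m M N (Kr.val u) (Kr.val v)) := by
  have hm : a ≤ m := by omega
  obtain ⟨h1, -, -⟩ := CH_bal D h0 b N (Kr D i a (Conv D m M N)) (baseB D i m a M N hm)
    (baseB_bal hm hm') u (Kr.val v) (Kr.val_isKr v)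
  rw [← val_CH_baseB hm]
  intro k hk
  by_cases hka : k < a
  · exact Kr.val_isKr _ k hka
  · obtain ⟨l, rfl⟩ : ∃ l, k = a + l := ⟨k - a, by omega⟩
    obtain ⟨h2, h3⟩ := h1 l (by omega)
    have h2' := congrArg Kr.val h2
    have h3' := congrArg Kr.val h3
    rw [Kr.val_smul, D.shn_e] at h2'
    rw [Kr.val_smul, D.shn_x] at h3'
    exact ⟨h2', h3'⟩

/-- the bilinear map -/
noncomputable def bilJ : Kr D i a M →ₗ[K] Kr D i b N →ₗ[K] Kr D i c (Conv D m M N) :=
  LinearMap.mk₂ K (fun u v => Kr.of (D.shn a (D.CH m' b) • Conv.mk D m M N (Kr.val u) (Kr.val v))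
      (isKr_J hm' hc h0 u v))
    (fun u u' v => Kr.val_injective (by
      change D.shn a (D.CH m' b) • Conv.mk D m M N (Kr.val u + Kr.val u') (Kr.val v) =
        D.shn a (D.CH m' b) • Conv.mk D m M N (Kr.val u) (Kr.val v) +
          D.shn a (D.CH m' b) • Conv.mk D m M N (Kr.val u') (Kr.val v)
      rw [map_add, LinearMap.add_apply, smul_add]))
    (fun r u v => Kr.val_injective (by
      change D.shn a (D.CH m' b) • Conv.mk D m M N (r • Kr.val u) (Kr.val v) =
        r • (D.shn a (D.CH m' b) • Conv.mk D m M N (Kr.val u) (Kr.val v))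
      rw [map_smul, LinearMap.smul_apply, smul_comm]))
    (fun u v v' => Kr.val_injective (by
      change D.shn a (D.CH m' b) • Conv.mk D m M N (Kr.val u) (Kr.val v + Kr.val v') =
        D.shn a (D.CH m' b) • Conv.mk D m M N (Kr.val u) (Kr.val v) +
          D.shn a (D.CH m' b) • Conv.mk D m M N (Kr.val u) (Kr.val v')
      rw [map_add, smul_add]))
    (fun r u v => Kr.val_injective (by
      change D.shn a (D.CH m' b) • Conv.mk D m M N (Kr.val u) (r • Kr.val v) =
        r • (D.shn a (D.CH m' b) • Conv.mk D m M N (Kr.val u) (Kr.val v))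
      rw [map_smul, smul_comm]))

theorem val_bilJ (u : Kr D i a M) (v : Kr D i b N) : Kr.val (bilJ hm' hc h0 u v) =
    D.shn a (D.CH m' b) • Conv.mk D m M N (Kr.val u) (Kr.val v) := rfl

theorem bilJ_bal : Balanced D m' (bilJ (N := N) hm' hc h0) where
  left x u v := Kr.val_injective (by
    have hm : a ≤ m := by omega
    obtain ⟨-, h1, -⟩ := CH_bal D h0 b N (Kr D i a (Conv D m M N)) (baseB D i m a M N hm)
      (baseB_bal hm hm') u (Kr.val v) (Kr.val_isKr v)
    have h2 := congrArg Kr.val (h1 x)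
    rw [Kr.val_smul, val_CH_baseB, val_CH_baseB, D.shn_shn, hc] at h2
    rw [Kr.val_smul, val_bilJ, val_bilJ]
    exact h2)
  right x u v := Kr.val_injective (by
    have hm : a ≤ m := by omega
    obtain ⟨-, -, h1⟩ := CH_bal D h0 b N (Kr D i a (Conv D m M N)) (baseB D i m a M N hm)
      (baseB_bal hm hm') u (Kr.val v) (Kr.val_isKr v)
    have h2 := congrArg Kr.val (h1 x)
    rw [Kr.val_smul, val_CH_baseB, val_CH_baseB, D.shn_shn, hc] at h2
    rw [Kr.val_smul, val_bilJ, val_bilJ, Kr.val_smul]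
    exact h2)

/-- the map `Kr i a M ∘ Kr i b N → Kr i (a + b) (M ∘ N)` -/
noncomputable def mapJ : Conv D m' (Kr D i a M) (Kr D i b N) →ₗ[KLRAlg D]
    Kr D i c (Conv D m M N) :=
  Conv.lift (bilJ hm' hc h0) (bilJ_bal hm' hc h0)

theorem mapJ_mk (u : Kr D i a M) (v : Kr D i b N) :
    mapJ hm' hc h0 (Conv.mk D m' (Kr D i a M) (Kr D i b N) u v) = bilJ hm' hc h0 u v :=
  Conv.lift_mk _ _ u v

theorem mapJ_hom {γ : I → ℕ} (hU : IsStrand D m' (Kr D i a M)) (hγ : WtOf D m' (Kr D i a M) γ)
    (gM : Grd D M) (gN : Grd D N) :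
    HomDeg (Grd.conv m' (gM.kr i a) (gN.kr i b)) ((Grd.conv m gM gN).kr i c) (- (b * prw D i γ))
      (mapJ (N := N) hm' hc h0) := by
  have hm : a ≤ m := by omega
  apply HomDeg.of_mk
  intro p q u v hu hv
  rw [mapJ_mk, Grd.kr_hm, val_bilJ]
  rw [Grd.kr_hm] at hv
  have h1 := CH_hom h0 hU hγ b N (Kr D i a (Conv D m M N)) gN ((Grd.conv m gM gN).kr i a) 0
    (baseB D i m a M N hm) (baseB_bal hm hm') (baseB_hom hm gM gN) p q u (Kr.val v) hu hv
    (Kr.val_isKr v)
  rw [Grd.kr_hm, val_CH_baseB] at h1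
  convert h1 using 1
  ring

omit hm' hc h0 in
theorem tw_rep_true (w : List Bool) (m' b : ℕ) (hw : w.count false = m') (h1 : D.tw w = 1) :
    D.tw (List.replicate b true ++ w) = D.CH m' b := by
  induction b with
  | zero => rw [List.replicate_zero, List.nil_append, h1, Datum.CH]
  | succ b ih =>
    rw [List.replicate_succ, List.cons_append, Datum.tw, ih, Datum.CH, List.count_append, hw]
    simp [List.count_replicate]

theorem mapJ_ne {n : ℕ} (hb : S_basis D) (hM : IsStrand D m M) (hN : IsStrand D n N)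
    {u : Kr D i a M} {v : Kr D i b N} (hu : u ≠ 0) (hv : v ≠ 0) :
    mapJ hm' hc h0 (Conv.mk D m' (Kr D i a M) (Kr D i b N) u v) ≠ 0 := by
  have hbn : b ≤ n := by
    by_contra h
    apply hv
    apply Kr.val_injective
    rw [Kr.val_zero]
    exact isEw_eq_zero hN (by omega) (Kr.val_isKr v).isEw
  intro h
  have h1 := congrArg Kr.val h
  rw [mapJ_mk, val_bilJ, Kr.val_zero] at h1
  let w : Shf m n := ⟨List.replicate a false ++ (List.replicate b true ++
    (List.replicate m' false ++ List.replicate (n - b) true)), by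
      simp only [List.count_append, List.count_replicate]
      simp
      omega⟩
  have h2 : D.tw w.1 = D.shn a (D.CH m' b) := by
    change D.tw (List.replicate a false ++ (List.replicate b true ++
      (List.replicate m' false ++ List.replicate (n - b) true))) = _
    rw [D.tw_false_append, tw_rep_true (D := D) _ m' b]
    · simp [List.count_append, List.count_replicate]
    · exact D.tw_one m' (n - b)
  have h3 : convSum D m n M N (Finsupp.single w (Kr.val u ⊗ₜ Kr.val v)) = 0 := by
    rw [convSum_single, h2, h1]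
  have h4 := (hb m n M N hM hN).1 (h3.trans (map_zero _).symm)
  rw [Finsupp.single_eq_zero] at h4
  have hu' : Kr.val u ≠ 0 := fun h => hu (Kr.val_injective h)
  have hv' : Kr.val v ≠ 0 := fun h => hv (Kr.val_injective h)
  obtain ⟨f, hf⟩ : ∃ f : Module.Dual K M, f (Kr.val u) ≠ 0 := by
    by_contra h5
    push Not at h5
    exact hu' ((Module.forall_dual_apply_eq_zero_iff K (Kr.val u)).1 h5)
  have h5 := congrArg (fun z => TensorProduct.lid K N (f.rTensor N z)) h4
  simp only [LinearMap.rTensor_tmul, TensorProduct.lid_tmul, map_zero] at h5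
  exact hv' ((smul_eq_zero.1 h5).resolve_left hf)

end

end Pool.Agent.KLR
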