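import Pool.Agent.Work.MP_e487d8_al.Grad.Sub
import Pool.Agent.Work.MP_e487d8_al.Cry.Kr

/-! MP_e487d8_al, GRAD: the grading of the module `Kr i a M`. -/

set_option autoImplicit false
set_option linter.unusedSectionVars false

namespace Pool.Agent.KLR

variable {K I : Type} [Field K] [Fintype I] [DecidableEq I] {D : Datum K I}

section

variable {M N : Type} [AddCommGroup M] [Module K M] [Module (KLRAlg D) M]
  [IsScalarTower K (KLRAlg D) M] [AddCommGroup N] [Module K N] [Module (KLRAlg D) N]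
  [IsScalarTower K (KLRAlg D) N]

/-- functoriality of the twist -/
noncomputable def Tw.mapS (f : KLRAlg D →ₐ[K] KLRAlg D) (g : M →ₗ[KLRAlg D] N) : Tw f M →ₗ[KLRAlg D] Tw f N where
  toFun u := Tw.mk f (g ((Tw.mk f).symm u))
  map_add' u v := by rw [map_add, map_add, map_add]
  map_smul' a u := by
    obtain ⟨u, rfl⟩ := (Tw.mk f).surjective u
    rw [Tw.smul_mk, LinearEquiv.symm_apply_apply, LinearEquiv.symm_apply_apply, map_smul]
    rfl

theorem Tw.mapS_mk (f : KLRAlg D →ₐ[K] KLRAlg D) (g : M →ₗ[KLRAlg D] N) (u : M) :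
    Tw.mapS f g (Tw.mk f u) = Tw.mk f (g u) := rfl

namespace Lau

/-- the twist by `shn m` of the families -/
noncomputable def twS (m : ℕ) : Tw (D.shn m) (Lau D M) →ₗ[KLRAlg D] Lau D (Tw (D.shn m) M) :=
  ofGens ((lift D fun d => (sg D d).comp (Tw.mk (D.shn m) : M ≃ₗ[K] _).toLinearMap).comp
    (Tw.mk (D.shn m) : Lau D M ≃ₗ[K] _).symm.toLinearMap)
    (fun k i z => by
      obtain ⟨z, rfl⟩ := (Tw.mk (D.shn m)).surjective z
      rw [Tw.smul_mk]
      simp only [LinearMap.comp_apply, LinearEquiv.coe_coe, LinearEquiv.symm_apply_apply]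
      induction z using Lau.induction with
      | h0 => simp
      | h d u =>
        rw [shn_e_sg, lift_sg, lift_sg]
        simp only [LinearMap.comp_apply, LinearEquiv.coe_coe]
        rw [e_sg, Tw.smul_mk]
      | hadd y z hy hz => rw [smul_add, map_add, map_add, smul_add, hy, hz])
    (fun k z => by
      obtain ⟨z, rfl⟩ := (Tw.mk (D.shn m)).surjective z
      rw [Tw.smul_mk]
      simp only [LinearMap.comp_apply, LinearEquiv.coe_coe, LinearEquiv.symm_apply_apply]
      induction z using Lau.induction with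
      | h0 => simp
      | h d u =>
        rw [shn_x_sg, lift_sg, lift_sg]
        simp only [LinearMap.comp_apply, LinearEquiv.coe_coe]
        rw [x_sg, Tw.smul_mk]
      | hadd y z hy hz => rw [smul_add, map_add, map_add, smul_add, hy, hz])
    (fun k z => by
      obtain ⟨z, rfl⟩ := (Tw.mk (D.shn m)).surjective z
      rw [Tw.smul_mk]
      simp only [LinearMap.comp_apply, LinearEquiv.coe_coe, LinearEquiv.symm_apply_apply]
      induction z using Lau.induction with
      | h0 => simp
      | h d u =>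
        rw [shn_t_sg, lift_sg]
        simp only [LinearMap.comp_apply, LinearEquiv.coe_coe]
        rw [t_sg, map_sum]
        refine Finset.sum_congr rfl fun i _ => ?_
        rw [map_sum]
        refine Finset.sum_congr rfl fun j _ => ?_
        rw [lift_sg, Tw.smul_mk]
        rfl
      | hadd y z hy hz => rw [smul_add, map_add, map_add, smul_add, hy, hz])

theorem twS_sg (m : ℕ) (d : ℤ) (u : M) :
    twS m (Tw.mk (D.shn m) (sg D d u)) = sg D d (Tw.mk (D.shn m) u) := by
  unfold twS
  rw [ofGens_apply]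
  simp only [LinearMap.comp_apply, LinearEquiv.coe_coe, LinearEquiv.symm_apply_apply]
  rw [lift_sg]
  rfl

end Lau

namespace Grd

/-- the grading of the twist by `shn m` -/
noncomputable def tw (g : Grd D M) (m : ℕ) : Grd D (Tw (D.shn m) M) where
  rho := (Lau.twS m).comp (Tw.mapS (D.shn m) g.rho)
  tot u := by
    obtain ⟨u, rfl⟩ := (Tw.mk (D.shn m)).surjective u
    induction u using g.induction with
    | h0 => simp
    | hadd u v hu hv => simp only [map_add] at hu hv ⊢; rw [hu, hv]
    | h d u hu =>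
      rw [LinearMap.comp_apply, Tw.mapS_mk, hu, Lau.twS_sg, Lau.tot_sg]
  dg u := by
    obtain ⟨u, rfl⟩ := (Tw.mk (D.shn m)).surjective u
    induction u using g.induction with
    | h0 => simp
    | hadd u v hu hv => simp only [map_add] at hu hv ⊢; rw [hu, hv]
    | h d u hu =>
      have h1 : ((Lau.twS m).comp (Tw.mapS (D.shn m) g.rho)) (Tw.mk (D.shn m) u) =
          Lau.sg D d (Tw.mk (D.shn m) u) := by
        rw [LinearMap.comp_apply, Tw.mapS_mk, hu, Lau.twS_sg]
      rw [h1, Lau.map_sg, h1, Lau.dg_sg]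

theorem Hm.tw {g : Grd D M} {d : ℤ} {u : M} (h : g.Hm d u) (m : ℕ) :
    (g.tw m).Hm d (Tw.mk (D.shn m) u) := by
  change ((Lau.twS m).comp (Tw.mapS (D.shn m) g.rho)) (Tw.mk (D.shn m) u) = _
  rw [LinearMap.comp_apply, Tw.mapS_mk, h, Lau.twS_sg]

theorem tw_pr (g : Grd D M) (m : ℕ) (d : ℤ) (u : M) :
    (g.tw m).pr d (Tw.mk (D.shn m) u) = Tw.mk (D.shn m) (g.pr d u) := by
  induction u using g.induction with
  | h0 => simp
  | hadd u v hu hv => rw [map_add, map_add, hu, hv, map_add, map_add]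
  | h p u hu =>
    rw [(hu.tw m).pr_eq, hu.pr_eq]
    split_ifs
    · rfl
    · rw [map_zero]

variable {i : I} {a : ℕ}

theorem pr_isKr (g : Grd D M) {u : M} (h : IsKr D i a u) (d : ℤ) : IsKr D i a (g.pr d u) := by
  intro k hk
  have he : HomDeg g g 0 (LinearMap.id : M →ₗ[KLRAlg D] M) := HomDeg.id
  have key : ∀ (u : M), g.pr d (D.e k i • u) = D.e k i • g.pr d u ∧
      g.pr (d + 2) (D.x k • u) = D.x k • g.pr d u := by
    intro u
    induction u using g.induction with
    | h0 => simp
    | hadd u v hu hv =>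
      simp only [smul_add, map_add]
      rw [hu.1, hu.2, hv.1, hv.2]
      exact ⟨rfl, rfl⟩
    | h p u hu =>
      rw [(hu.e k i).pr_eq, (hu.x k).pr_eq, hu.pr_eq]
      by_cases hp : p = d
      · rw [if_pos hp, if_pos hp, if_pos (by rw [hp])]
        exact ⟨rfl, rfl⟩
      · rw [if_neg hp, if_neg hp, if_neg (fun h => hp (by linarith)), smul_zero, smul_zero]
        exact ⟨rfl, rfl⟩
  rw [← (key u).1, ← (key u).2, (h k hk).1, (h k hk).2, map_zero]
  exact ⟨rfl, rfl⟩

/-- the grading of `Kr i a M` -/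
noncomputable def kr (g : Grd D M) (i : I) (a : ℕ) : Grd D (Kr D i a M) :=
  (g.tw a).ofInj (Kr D i a M).subtype (Submodule.subtype_injective _) (by
    intro v d
    have h1 : IsKr D i a (Kr.val v) := Kr.val_isKr v
    refine ⟨Kr.of (g.pr d (Kr.val v)) (g.pr_isKr h1 d), ?_⟩
    exact (g.tw_pr a d (Kr.val v)).symm)

theorem kr_hm {g : Grd D M} {d : ℤ} {u : Kr D i a M} :
    (g.kr i a).Hm d u ↔ g.Hm d (Kr.val u) := by
  have h1 : HomDeg (g.kr i a) (g.tw a) 0 (Kr D i a M).subtype := Grd.ofInj_hom _ _ _ _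
  have h2 : (g.tw a).pr d ((Kr D i a M).subtype u) = (Kr D i a M).subtype ((g.kr i a).pr d u) := by
    have := h1.pr d u
    rwa [add_zero] at this
  have h3 : (g.tw a).pr d ((Kr D i a M).subtype u) = Tw.mk (D.shn a) (g.pr d (Kr.val u)) :=
    g.tw_pr a d (Kr.val u)
  rw [hm_iff, hm_iff]
  constructor
  · intro h
    rw [h, h3] at h2
    exact h2
  · intro h
    rw [h3, h] at h2
    exact (Submodule.subtype_injective _ h2).symm

end Grd

/-! ### functoriality of `Kr` -/

section

variable {i : I} {a : ℕ}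

/-- functoriality of `Kr` -/
noncomputable def Kr.map (f : M →ₗ[KLRAlg D] N) : Kr D i a M →ₗ[KLRAlg D] Kr D i a N where
  toFun u := Kr.of (f (Kr.val u)) ((Kr.val_isKr u).map f)
  map_add' u v := Kr.val_injective (by
    change f (Kr.val (u + v)) = f (Kr.val u) + f (Kr.val v)
    rw [Kr.val_add, map_add])
  map_smul' b u := Kr.val_injective (by
    change f (Kr.val (b • u)) = D.shn a b • f (Kr.val u)
    rw [Kr.val_smul, map_smul])

theorem Kr.val_map (f : M →ₗ[KLRAlg D] N) (u : Kr D i a M) : Kr.val (Kr.map f u) = f (Kr.val u) :=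
  rfl

theorem Kr.map_bijective {f : M →ₗ[KLRAlg D] N} (hf : Function.Bijective f) :
    Function.Bijective (Kr.map f : Kr D i a M →ₗ[KLRAlg D] Kr D i a N) := by
  constructor
  · intro u v h
    exact Kr.val_injective (hf.1 (congrArg Kr.val h))
  · intro v
    obtain ⟨u, hu⟩ := hf.2 (Kr.val v)
    refine ⟨Kr.of u fun k hk => ?_, Kr.val_injective hu⟩
    have h1 := Kr.val_isKr v k hk
    rw [← hu, ← map_smul, ← map_smul] at h1
    exact ⟨hf.1 h1.1, hf.1 (h1.2.trans (map_zero f).symm)⟩

theorem HomDeg.kr {gM : Grd D M} {gN : Grd D N} {s : ℤ} {f : M →ₗ[KLRAlg D] N}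
    (hf : HomDeg gM gN s f) : HomDeg (gM.kr i a) (gN.kr i a) s (Kr.map f) :=
  HomDeg.of_hm fun d u hu => by
    rw [Grd.kr_hm] at hu ⊢
    exact hf.hm hu

end

end

end Pool.Agent.KLR
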