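import Pool.Agent.Work.MP_e487d8_al.Alg.Lem

/-! MP_e487d8_al: the grading of the KLR algebra, in the form of the twisted action on
`ℤ →₀ M` (`e` of degree `0`, `x` of degree `2`, `t e_i e_j` of degree `-A i j`). -/

set_option autoImplicit false

namespace Pool.Agent.KLR

variable {K I : Type} [Field K] [Fintype I] [DecidableEq I]

section psi

variable (D : Datum K I) (M : Type) [AddCommGroup M] [Module K M] [Module (KLRAlg D) M]
  [IsScalarTower K (KLRAlg D) M]

/-- the element `a` acts and the degree is raised by `s` -/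
noncomputable def psi (s : ℤ) : KLRAlg D →ₗ[K] Module.End K (ℤ →₀ M) where
  toFun a := Finsupp.lsum K fun d => (Finsupp.lsingle (d + s)).comp (Algebra.lsmul K K M a)
  map_add' a b := by
    ext d u : 2
    simp
  map_smul' r a := by
    ext d u : 2
    simp

variable {D M}

@[simp] theorem psi_single (s : ℤ) (a : KLRAlg D) (d : ℤ) (u : M) :
    psi D M s a (Finsupp.single d u) = Finsupp.single (d + s) (a • u) := by
  simp [psi]

theorem psi_mul (s s' : ℤ) (a b : KLRAlg D) :
    psi D M s a * psi D M s' b = psi D M (s' + s) (a * b) := by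
  ext d u : 2
  simp [mul_smul, add_assoc]

theorem psi_one : psi D M 0 1 = 1 := by
  ext d u : 2
  simp

theorem psi_pow (s : ℤ) (a : KLRAlg D) (n : ℕ) :
    psi D M s a ^ n = psi D M (n * s) (a ^ n) := by
  induction n with
  | zero => simp [psi_one]
  | succ n ih =>
    rw [pow_succ, ih, psi_mul, pow_succ]
    congr 2
    push_cast
    ring

variable (D M)

/-- the crossing with its degrees -/
noncomputable def psiT (k : ℕ) : Module.End K (ℤ →₀ M) :=
  ∑ i, ∑ j, psi D M (-D.A i j) (D.t k * (D.e k i * D.e (k + 1) j))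

variable {D M}

theorem psiT_mul_psi (k : ℕ) (s : ℤ) (i j : I) (y : KLRAlg D)
    (hy : D.e k i * D.e (k + 1) j * y = y) :
    psiT D M k * psi D M s y = psi D M (s - D.A i j) (D.t k * y) := by
  unfold psiT
  simp only [Finset.sum_mul, psi_mul]
  rw [Finset.sum_eq_single i, Finset.sum_eq_single j]
  · rw [mul_assoc, hy, sub_eq_add_neg]
  · intro j' _ hj
    rw [← hy]
    have : D.t k * (D.e k i * D.e (k + 1) j') * (D.e k i * D.e (k + 1) j * y) = 0 := by
      have h1 : D.e (k + 1) j' * (D.e k i * D.e (k + 1) j * y) = 0 := by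
        rw [← mul_assoc, ← mul_assoc, D.e_comm (k + 1) k j' i, mul_assoc (D.e k i),
          D.e_mul_e_ne (k + 1) hj]
        simp
      rw [mul_assoc, mul_assoc (D.e k i), h1]
      simp
    rw [this, map_zero]
  · simp
  · intro i' _ hi
    apply Finset.sum_eq_zero
    intro j' _
    rw [← hy]
    have : D.t k * (D.e k i' * D.e (k + 1) j') * (D.e k i * D.e (k + 1) j * y) = 0 := by
      have h1 : D.e k i' * (D.e k i * D.e (k + 1) j * y) = 0 := by
        rw [← mul_assoc, ← mul_assoc, D.e_mul_e_ne k hi]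
        simp
      rw [D.e_comm k (k + 1) i' j', mul_assoc, mul_assoc (D.e (k + 1) j'), h1]
      simp
    rw [this, map_zero]
  · simp

theorem e_sum_two (k : ℕ) (y : KLRAlg D) (h0 : D.E k * y = y) (h1 : D.E (k + 1) * y = y) :
    ∑ i, ∑ j, D.e k i * D.e (k + 1) j * y = y := by
  have : ∑ i, ∑ j, D.e k i * D.e (k + 1) j * y = D.E k * (D.E (k + 1) * y) := by
    unfold Datum.E
    simp only [Finset.sum_mul, Finset.mul_sum, mul_assoc]
    rw [Finset.sum_comm]
  rw [this, h1, h0]

theorem psi_E_comm (s : ℤ) (a : KLRAlg D) (l : ℕ) :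
    psi D M s a * psi D M 0 (D.E l) = psi D M 0 (D.E l) * psi D M s a := by
  rw [psi_mul, psi_mul, D.E_comm, zero_add, add_zero]

theorem psiT_E_comm (k l : ℕ) :
    psiT D M k * psi D M 0 (D.E l) = psi D M 0 (D.E l) * psiT D M k := by
  unfold psiT
  simp only [Finset.sum_mul, Finset.mul_sum, psi_E_comm]

theorem psiT_E (k : ℕ) : psiT D M k * psi D M 0 (D.E k) = psiT D M k := by
  unfold psiT
  simp only [Finset.sum_mul, psi_mul, zero_add]
  refine Finset.sum_congr rfl fun i _ => Finset.sum_congr rfl fun j _ => ?_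
  rw [← D.E_comm, ← mul_assoc, D.E_comm, D.t_E]

theorem psiT_E' (k : ℕ) : psiT D M k * psi D M 0 (D.E (k + 1)) = psiT D M k := by
  unfold psiT
  simp only [Finset.sum_mul, psi_mul, zero_add]
  refine Finset.sum_congr rfl fun i _ => Finset.sum_congr rfl fun j _ => ?_
  rw [← D.E_comm, ← mul_assoc, D.E_comm, D.t_E']

theorem psiT_e0 (k : ℕ) (i : I) :
    psiT D M k * psi D M 0 (D.e k i) = psi D M 0 (D.e (k + 1) i) * psiT D M k := by
  unfold psiT
  simp only [Finset.sum_mul, Finset.mul_sum, psi_mul, zero_add, add_zero]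
  refine Finset.sum_congr rfl fun a _ => Finset.sum_congr rfl fun b _ => ?_
  rw [← mul_assoc (D.e (k + 1) i), ← D.t_e0, mul_assoc, mul_assoc, mul_assoc, D.e_comm (k + 1) k,
    ← mul_assoc (D.e k a), D.e_comm k k a i, mul_assoc]

theorem psiT_e1 (k : ℕ) (i : I) :
    psiT D M k * psi D M 0 (D.e (k + 1) i) = psi D M 0 (D.e k i) * psiT D M k := by
  unfold psiT
  simp only [Finset.sum_mul, Finset.mul_sum, psi_mul, zero_add, add_zero]
  refine Finset.sum_congr rfl fun a _ => Finset.sum_congr rfl fun b _ => ?_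
  rw [← mul_assoc (D.e k i), ← D.t_e1, mul_assoc, mul_assoc, mul_assoc,
    D.e_comm (k + 1) (k + 1) b i, ← mul_assoc (D.e k a), D.e_comm k (k + 1) a i, mul_assoc]

theorem psiT_e (k l : ℕ) (i : I) (h : l ≠ k) (h' : l ≠ k + 1) :
    psiT D M k * psi D M 0 (D.e l i) = psi D M 0 (D.e l i) * psiT D M k := by
  unfold psiT
  simp only [Finset.sum_mul, Finset.mul_sum, psi_mul, zero_add, add_zero]
  refine Finset.sum_congr rfl fun a _ => Finset.sum_congr rfl fun b _ => ?_
  rw [← mul_assoc (D.e l i), ← D.t_e k l i h h', mul_assoc, mul_assoc, mul_assoc,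
    D.e_comm (k + 1) l b i, ← mul_assoc (D.e k a), D.e_comm k l a i, mul_assoc]

theorem psiT_x (k l : ℕ) (h : l ≠ k) (h' : l ≠ k + 1) :
    psiT D M k * psi D M 2 (D.x l) = psi D M 2 (D.x l) * psiT D M k := by
  unfold psiT
  simp only [Finset.sum_mul, Finset.mul_sum, psi_mul]
  refine Finset.sum_congr rfl fun a _ => Finset.sum_congr rfl fun b _ => ?_
  rw [← mul_assoc (D.x l), ← D.t_x k l h h', mul_assoc, mul_assoc, mul_assoc,
    ← D.x_e, ← mul_assoc (D.e k a), ← D.x_e l k a, mul_assoc, add_comm]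

/-- comparison on the words of length two -/
theorem eq_of_two (k : ℕ) {F G : Module.End K (ℤ →₀ M)}
    (hF : F * psi D M 0 (D.E k * D.E (k + 1)) = F) (hG : G * psi D M 0 (D.E k * D.E (k + 1)) = G)
    (h : ∀ a b, F * psi D M 0 (D.e k a * D.e (k + 1) b) = G * psi D M 0 (D.e k a * D.e (k + 1) b)) :
    F = G := by
  rw [← hF, ← hG]
  unfold Datum.E
  simp only [Finset.sum_mul, Finset.mul_sum, map_sum]
  exact Finset.sum_congr rfl fun i _ => Finset.sum_congr rfl fun j _ => h j i

/-- comparison on the words of length three -/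
theorem eq_of_three (k : ℕ) {F G : Module.End K (ℤ →₀ M)}
    (hF : F * psi D M 0 (D.E k * D.E (k + 1) * D.E (k + 2)) = F)
    (hG : G * psi D M 0 (D.E k * D.E (k + 1) * D.E (k + 2)) = G)
    (h : ∀ a b c, F * psi D M 0 (D.e k a * D.e (k + 1) b * D.e (k + 2) c) =
      G * psi D M 0 (D.e k a * D.e (k + 1) b * D.e (k + 2) c)) :
    F = G := by
  rw [← hF, ← hG]
  unfold Datum.E
  simp only [Finset.sum_mul, Finset.mul_sum, map_sum]
  exact Finset.sum_congr rfl fun i _ => Finset.sum_congr rfl fun j _ =>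
    Finset.sum_congr rfl fun l _ => h l j i

theorem ee_idem (k : ℕ) (a b : I) :
    D.e k a * D.e (k + 1) b * (D.e k a * D.e (k + 1) b) = D.e k a * D.e (k + 1) b := by
  rw [mul_assoc, ← mul_assoc (D.e (k + 1) b), D.e_comm (k + 1) k b a, mul_assoc (D.e k a),
    D.e_idem, ← mul_assoc, D.e_idem]

theorem ee_ne (k : ℕ) (i j a b : I) (h : ¬ (i = a ∧ j = b)) :
    D.e k i * D.e (k + 1) j * (D.e k a * D.e (k + 1) b) = 0 := by
  by_cases hi : i = a
  · have hj : j ≠ b := fun hj => h ⟨hi, hj⟩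
    rw [D.e_comm k (k + 1) a b, mul_assoc, ← mul_assoc (D.e (k + 1) j), D.e_mul_e_ne _ hj]
    simp
  · rw [D.e_comm k (k + 1) i j, mul_assoc, ← mul_assoc (D.e k i), D.e_mul_e_ne _ hi]
    simp

theorem eee_ne (k : ℕ) (i j l a b c : I) (h : ¬ (i = a ∧ j = b ∧ l = c)) :
    D.e k i * D.e (k + 1) j * D.e (k + 2) l * (D.e k a * D.e (k + 1) b * D.e (k + 2) c) = 0 := by
  have h1 : D.e k i * D.e (k + 1) j * D.e (k + 2) l * (D.e k a * D.e (k + 1) b * D.e (k + 2) c) =
      D.e k i * D.e (k + 1) j * (D.e k a * D.e (k + 1) b) * (D.e (k + 2) l * D.e (k + 2) c) := by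
    rw [mul_assoc (D.e k i * D.e (k + 1) j), mul_assoc (D.e k i * D.e (k + 1) j),
      ← mul_assoc (D.e (k + 2) l), ← mul_assoc (D.e (k + 2) l) (D.e k a),
      D.e_comm (k + 2) k l a, mul_assoc (D.e k a) (D.e (k + 2) l), D.e_comm (k + 2) (k + 1) l b]
    simp only [mul_assoc]
  rw [h1]
  by_cases h2 : i = a ∧ j = b
  · have hl : l ≠ c := fun hl => h ⟨h2.1, h2.2, hl⟩
    rw [D.e_mul_e_ne _ hl, mul_zero]
  · rw [ee_ne k i j a b h2, zero_mul]

theorem psi_EE (k : ℕ) :
    psi D M 0 (D.E k * D.E (k + 1)) = psi D M 0 (D.E k) * psi D M 0 (D.E (k + 1)) := by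
  rw [psi_mul, add_zero]

theorem psi_EEE (k : ℕ) :
    psi D M 0 (D.E k * D.E (k + 1) * D.E (k + 2)) =
      psi D M 0 (D.E k) * psi D M 0 (D.E (k + 1)) * psi D M 0 (D.E (k + 2)) := by
  rw [psi_mul, psi_mul, add_zero, add_zero]

theorem psiT_EE (k : ℕ) : psiT D M k * psi D M 0 (D.E k * D.E (k + 1)) = psiT D M k := by
  rw [psi_EE, ← mul_assoc, psiT_E, psiT_E']

theorem psi_EE_comm (s : ℤ) (a : KLRAlg D) (k : ℕ) :
    psi D M s a * psi D M 0 (D.E k * D.E (k + 1)) =
      psi D M 0 (D.E k * D.E (k + 1)) * psi D M s a := by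
  rw [psi_EE, ← mul_assoc, psi_E_comm, mul_assoc, psi_E_comm, mul_assoc]

theorem ee_EE (k : ℕ) (i j : I) :
    D.e k i * D.e (k + 1) j * (D.E k * D.E (k + 1)) = D.e k i * D.e (k + 1) j := by
  rw [mul_assoc, ← mul_assoc (D.e (k + 1) j), ← D.E_comm k (D.e (k + 1) j), mul_assoc (D.E k),
    D.e_E, ← mul_assoc, D.e_E]

theorem x_ee (l k : ℕ) (a b : I) :
    D.x l * (D.e k a * D.e (k + 1) b) = D.e k a * D.e (k + 1) b * D.x l := by
  rw [← mul_assoc, D.x_e, mul_assoc, D.x_e, mul_assoc]

theorem ee_x_ee (l k : ℕ) (a b : I) :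
    D.e k a * D.e (k + 1) b * (D.x l * (D.e k a * D.e (k + 1) b)) =
      D.x l * (D.e k a * D.e (k + 1) b) := by
  rw [x_ee, ← mul_assoc, ee_idem]

theorem psi_x_tx0 (k : ℕ) : psiT D M k * psi D M 2 (D.x k) =
    psi D M 2 (D.x (k + 1)) * psiT D M k - ∑ i, psi D M 0 (D.e k i) * psi D M 0 (D.e (k + 1) i) := by
  have hd : ∑ i, psi D M 0 (D.e k i) * psi D M 0 (D.e (k + 1) i) = psi D M 0 (D.dl k) := by
    unfold Datum.dl
    simp only [psi_mul, map_sum, add_zero]
  have hdE : D.dl k * (D.E k * D.E (k + 1)) = D.dl k := by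
    unfold Datum.dl
    rw [Finset.sum_mul]
    refine Finset.sum_congr rfl fun i _ => ?_
    rw [ee_EE]
  rw [hd]
  refine eq_of_two (D := D) k ?_ ?_ ?_
  · rw [mul_assoc, psi_EE_comm, ← mul_assoc, psiT_EE]
  · rw [sub_mul, mul_assoc, psiT_EE, psi_mul, hdE, add_zero]
  · intro a b
    rw [mul_assoc, psi_mul, psiT_mul_psi k _ a b, sub_mul, mul_assoc, psiT_mul_psi k _ a b, psi_mul,
      psi_mul, ← mul_assoc, D.t_x0, sub_mul, map_sub, mul_assoc]
    · congr 1
      · congr 2
        ring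
      · by_cases hab : a = b
        · subst hab
          rw [D.diag]
          congr 2
        · have : D.dl k * (D.e k a * D.e (k + 1) b) = 0 := by
            unfold Datum.dl
            rw [Finset.sum_mul]
            refine Finset.sum_eq_zero fun i _ => ee_ne k i i a b fun h => hab ?_
            rw [← h.1, ← h.2]
          rw [this, map_zero, map_zero]
    · exact ee_idem k a b
    · exact ee_x_ee _ k a b

theorem psi_x_tx1 (k : ℕ) : psiT D M k * psi D M 2 (D.x (k + 1)) =
    psi D M 2 (D.x k) * psiT D M k + ∑ i, psi D M 0 (D.e k i) * psi D M 0 (D.e (k + 1) i) := by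
  have hd : ∑ i, psi D M 0 (D.e k i) * psi D M 0 (D.e (k + 1) i) = psi D M 0 (D.dl k) := by
    unfold Datum.dl
    simp only [psi_mul, map_sum, add_zero]
  have hdE : D.dl k * (D.E k * D.E (k + 1)) = D.dl k := by
    unfold Datum.dl
    rw [Finset.sum_mul]
    refine Finset.sum_congr rfl fun i _ => ?_
    rw [ee_EE]
  rw [hd]
  refine eq_of_two (D := D) k ?_ ?_ ?_
  · rw [mul_assoc, psi_EE_comm, ← mul_assoc, psiT_EE]
  · rw [add_mul, mul_assoc, psiT_EE, psi_mul, hdE, add_zero]
  · intro a b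
    rw [mul_assoc, psi_mul, psiT_mul_psi k _ a b, add_mul, mul_assoc, psiT_mul_psi k _ a b, psi_mul,
      psi_mul, ← mul_assoc, D.t_x1, add_mul, map_add, mul_assoc]
    · congr 1
      · congr 2
        ring
      · by_cases hab : a = b
        · subst hab
          rw [D.diag]
          congr 2
        · have : D.dl k * (D.e k a * D.e (k + 1) b) = 0 := by
            unfold Datum.dl
            rw [Finset.sum_mul]
            refine Finset.sum_eq_zero fun i _ => ee_ne k i i a b fun h => hab ?_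
            rw [← h.1, ← h.2]
          rw [this, map_zero, map_zero]
    · exact ee_idem k a b
    · exact ee_x_ee _ k a b

theorem t_ee (k : ℕ) (a b : I) :
    D.t k * (D.e k a * D.e (k + 1) b) = D.e k b * D.e (k + 1) a * D.t k := by
  rw [← mul_assoc, D.t_e0, mul_assoc, D.t_e1, ← mul_assoc, D.e_comm (k + 1) k a b]

theorem psi_sub_pow (k : ℕ) (n : ℕ) : (psi D M 2 (D.x k) - psi D M 2 (D.x (k + 1))) ^ n =
    psi D M (n * 2) ((D.x k - D.x (k + 1)) ^ n) := by
  rw [← map_sub, psi_pow]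

theorem psi_sub_pow' (k : ℕ) (n : ℕ) : (psi D M 2 (D.x (k + 2)) - psi D M 2 (D.x (k + 1))) ^ n =
    psi D M (n * 2) ((D.x (k + 2) - D.x (k + 1)) ^ n) := by
  rw [← map_sub, psi_pow]

omit [Fintype I] [DecidableEq I] in
theorem q_eq (D : Datum K I) {i j : I} (h : i ≠ j) : (D.q i j : ℤ) = -D.A i j := by
  unfold Datum.q
  have := D.nonpos i j h
  omega

theorem psi_tt (k : ℕ) : psiT D M k * psiT D M k = ∑ i, ∑ j, if i = j then 0 else
    D.c i j • ((psi D M 2 (D.x k) - psi D M 2 (D.x (k + 1))) ^ D.q i j *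
      (psi D M 0 (D.e k i) * psi D M 0 (D.e (k + 1) j))) := by
  simp only [psi_sub_pow, psi_mul]
  refine eq_of_two (D := D) k ?_ ?_ ?_
  · rw [mul_assoc, psiT_EE]
  · simp only [Finset.sum_mul]
    refine Finset.sum_congr rfl fun i _ => Finset.sum_congr rfl fun j _ => ?_
    split_ifs with h
    · simp
    · rw [smul_mul_assoc, psi_mul, zero_add, mul_assoc, ee_EE]
  · intro a b
    rw [mul_assoc, psiT_mul_psi k _ a b _ (ee_idem k a b), psiT_mul_psi k _ b a]
    · rw [← mul_assoc, D.t_t, Finset.sum_mul, Finset.sum_mul, map_sum]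
      refine Finset.sum_congr rfl fun i _ => ?_
      rw [Finset.sum_mul, Finset.sum_mul, map_sum]
      refine Finset.sum_congr rfl fun j _ => ?_
      split_ifs with h
      · simp
      · rw [smul_mul_assoc, smul_mul_assoc, map_smul, psi_mul, mul_assoc _ _ (D.e k a * _)]
        by_cases h2 : i = a ∧ j = b
        · obtain ⟨rfl, rfl⟩ := h2
          rw [q_eq D h, D.symm j i]
          congr 3
          ring
        · rw [ee_ne k i j a b h2]
          simp
    · rw [t_ee, ← mul_assoc, ee_idem]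

theorem psiT_comm (k : ℕ) (s : ℤ) (y : KLRAlg D)
    (h : ∀ i j, D.t k * (D.e k i * D.e (k + 1) j) * y = y * (D.t k * (D.e k i * D.e (k + 1) j))) :
    psiT D M k * psi D M s y = psi D M s y * psiT D M k := by
  unfold psiT
  simp only [Finset.sum_mul, Finset.mul_sum, psi_mul]
  refine Finset.sum_congr rfl fun a _ => Finset.sum_congr rfl fun b _ => ?_
  rw [h, add_comm]

theorem psi_far (k l : ℕ) (h : k + 1 < l) : psiT D M k * psiT D M l = psiT D M l * psiT D M k := by
  conv_lhs => rw [psiT.eq_1 D M l]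
  conv_rhs => rw [psiT.eq_1 D M l]
  rw [Finset.mul_sum, Finset.sum_mul]
  refine Finset.sum_congr rfl fun a _ => ?_
  rw [Finset.mul_sum, Finset.sum_mul]
  refine Finset.sum_congr rfl fun b _ => ?_
  apply psiT_comm
  intro i j
  have h1 : D.e k i * D.e (k + 1) j * D.t l = D.t l * (D.e k i * D.e (k + 1) j) := by
    rw [mul_assoc, ← D.t_e l (k + 1) j (by omega) (by omega), ← mul_assoc,
      ← D.t_e l k i (by omega) (by omega), mul_assoc]
  have h2 : D.e l a * D.e (l + 1) b * D.t k = D.t k * (D.e l a * D.e (l + 1) b) := by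
    rw [mul_assoc, ← D.t_e k (l + 1) b (by omega) (by omega), ← mul_assoc,
      ← D.t_e k l a (by omega) (by omega), mul_assoc]
  have h3 : D.e k i * D.e (k + 1) j * (D.e l a * D.e (l + 1) b) =
      D.e l a * D.e (l + 1) b * (D.e k i * D.e (k + 1) j) := by
    rw [mul_assoc, ← mul_assoc (D.e (k + 1) j), D.e_comm (k + 1) l j a, mul_assoc (D.e l a),
      ← mul_assoc (D.e k i), D.e_comm k l i a, D.e_comm (k + 1) (l + 1) j b, mul_assoc (D.e l a),
      ← mul_assoc (D.e k i), D.e_comm k (l + 1) i b]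
    simp only [mul_assoc]
  calc D.t k * (D.e k i * D.e (k + 1) j) * (D.t l * (D.e l a * D.e (l + 1) b))
      = D.t k * (D.e k i * D.e (k + 1) j * D.t l) * (D.e l a * D.e (l + 1) b) := by
        simp only [mul_assoc]
    _ = D.t k * D.t l * (D.e k i * D.e (k + 1) j * (D.e l a * D.e (l + 1) b)) := by
        rw [h1]; simp only [mul_assoc]
    _ = D.t l * (D.t k * (D.e l a * D.e (l + 1) b)) * (D.e k i * D.e (k + 1) j) := by
        rw [h3, D.t_far k l h]; simp only [mul_assoc]
    _ = D.t l * (D.e l a * D.e (l + 1) b) * (D.t k * (D.e k i * D.e (k + 1) j)) := by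
        rw [← h2]; simp only [mul_assoc]

theorem eee_idem (k : ℕ) (a b c : I) :
    D.e k a * D.e (k + 1) b * D.e (k + 2) c * (D.e k a * D.e (k + 1) b * D.e (k + 2) c) =
      D.e k a * D.e (k + 1) b * D.e (k + 2) c := by
  have h1 : D.e k a * D.e (k + 1) b * D.e (k + 2) c * (D.e k a * D.e (k + 1) b * D.e (k + 2) c) =
      D.e k a * D.e (k + 1) b * (D.e k a * D.e (k + 1) b) * (D.e (k + 2) c * D.e (k + 2) c) := by
    rw [mul_assoc (D.e k a * D.e (k + 1) b), mul_assoc (D.e k a * D.e (k + 1) b),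
      ← mul_assoc (D.e (k + 2) c), ← mul_assoc (D.e (k + 2) c) (D.e k a),
      D.e_comm (k + 2) k c a, mul_assoc (D.e k a) (D.e (k + 2) c), D.e_comm (k + 2) (k + 1) c b]
    simp only [mul_assoc]
  rw [h1, ee_idem, D.e_idem]

/-- the first crossing changes the word -/
theorem t_eee0 (k : ℕ) (a b c : I) :
    D.t k * (D.e k a * D.e (k + 1) b * D.e (k + 2) c) =
      D.e k b * D.e (k + 1) a * D.e (k + 2) c * D.t k := by
  rw [← mul_assoc, t_ee, mul_assoc, D.t_e k (k + 2) c (by omega) (by omega), ← mul_assoc]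

theorem t_eee1 (k : ℕ) (a b c : I) :
    D.t (k + 1) * (D.e k a * D.e (k + 1) b * D.e (k + 2) c) =
      D.e k a * D.e (k + 1) c * D.e (k + 2) b * D.t (k + 1) := by
  rw [mul_assoc (D.e k a), ← mul_assoc, D.t_e (k + 1) k a (by omega) (by omega), mul_assoc,
    t_ee (k + 1) b c, ← mul_assoc, ← mul_assoc]

theorem eee_EEE (k : ℕ) (a b c : I) :
    D.e k a * D.e (k + 1) b * D.e (k + 2) c * (D.E k * D.E (k + 1) * D.E (k + 2)) =
      D.e k a * D.e (k + 1) b * D.e (k + 2) c := by
  have hc : D.e (k + 2) c * (D.E k * D.E (k + 1)) = D.E k * D.E (k + 1) * D.e (k + 2) c := by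
    rw [mul_assoc, D.E_comm (k + 1), ← mul_assoc, ← mul_assoc, D.E_comm k]
  rw [← mul_assoc, mul_assoc (D.e k a * D.e (k + 1) b), hc, ← mul_assoc (D.e k a * D.e (k + 1) b),
    ee_EE, mul_assoc, D.e_E]

/-- `y` has the left word `a b c` -/
def LW (D : Datum K I) (k : ℕ) (a b c : I) (y : KLRAlg D) : Prop :=
  D.e k a * D.e (k + 1) b * D.e (k + 2) c * y = y

theorem LW.one {k : ℕ} {a b c : I} : LW D k a b c (D.e k a * D.e (k + 1) b * D.e (k + 2) c) :=
  eee_idem k a b c

theorem LW.t0 {k : ℕ} {a b c : I} {y : KLRAlg D} (h : LW D k a b c y) :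
    LW D k b a c (D.t k * y) := by
  unfold LW at *
  rw [← mul_assoc, ← t_eee0, mul_assoc, h]

theorem LW.t1 {k : ℕ} {a b c : I} {y : KLRAlg D} (h : LW D k a b c y) :
    LW D k a c b (D.t (k + 1) * y) := by
  unfold LW at *
  rw [← mul_assoc, ← t_eee1, mul_assoc, h]

theorem LW.left {k : ℕ} {a b c : I} {y : KLRAlg D} (h : LW D k a b c y) :
    D.e k a * D.e (k + 1) b * y = y := by
  unfold LW at h
  conv_lhs => rw [← h]
  rw [← mul_assoc, ← mul_assoc (D.e k a * D.e (k + 1) b), ee_idem, h]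

theorem LW.right {k : ℕ} {a b c : I} {y : KLRAlg D} (h : LW D k a b c y) :
    D.e (k + 1) b * D.e (k + 1 + 1) c * y = y := by
  unfold LW at h
  conv_lhs => rw [← h]
  have h1 : D.e (k + 1) b * D.e (k + 1 + 1) c * (D.e k a * D.e (k + 1) b * D.e (k + 2) c) =
      D.e k a * D.e (k + 1) b * D.e (k + 2) c := by
    rw [mul_assoc (D.e k a), ← mul_assoc, mul_assoc (D.e (k + 1) b), D.e_comm (k + 1 + 1) k c a,
      ← mul_assoc (D.e (k + 1) b), D.e_comm (k + 1) k b a, mul_assoc (D.e k a), mul_assoc (D.e k a),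
      ee_idem (k + 1) b c]
  rw [← mul_assoc, h1, h]

theorem psiT_three0 {k : ℕ} {a b c : I} {y : KLRAlg D} (h : LW D k a b c y) :
    psiT D M (k + 1) * psiT D M k * psiT D M (k + 1) * psi D M 0 y =
      psi D M (0 - D.A b c - D.A a c - D.A a b) (D.t (k + 1) * (D.t k * (D.t (k + 1) * y))) := by
  rw [mul_assoc, psiT_mul_psi (k + 1) 0 b c _ h.right, mul_assoc, psiT_mul_psi k _ a c _ h.t1.left,
    psiT_mul_psi (k + 1) _ a b _ h.t1.t0.right]

theorem psiT_three1 {k : ℕ} {a b c : I} {y : KLRAlg D} (h : LW D k a b c y) :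
    psiT D M k * psiT D M (k + 1) * psiT D M k * psi D M 0 y =
      psi D M (0 - D.A b c - D.A a c - D.A a b) (D.t k * (D.t (k + 1) * (D.t k * y))) := by
  rw [mul_assoc, psiT_mul_psi k 0 a b _ h.left, mul_assoc,
    psiT_mul_psi (k + 1) _ a c _ h.t0.right, psiT_mul_psi k _ b c _ h.t0.t1.left]
  congr 1
  ring_nf

theorem psi_braid (k : ℕ) :
    psiT D M (k + 1) * psiT D M k * psiT D M (k + 1) -
      psiT D M k * psiT D M (k + 1) * psiT D M k =
    ∑ i, ∑ j, if i = j then 0 else
      D.c i j • ((∑ p ∈ Finset.range (D.q i j),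
        (psi D M 2 (D.x k) - psi D M 2 (D.x (k + 1))) ^ p *
          (psi D M 2 (D.x (k + 2)) - psi D M 2 (D.x (k + 1))) ^ (D.q i j - 1 - p)) *
          (psi D M 0 (D.e k i) * psi D M 0 (D.e (k + 1) j) * psi D M 0 (D.e (k + 2) i))) := by
  simp only [psi_sub_pow, psi_sub_pow', psi_mul, Finset.sum_mul]
  have hz0 : psiT D M k * psi D M 0 (D.E k) = psiT D M k := psiT_E k
  have hz1 : psiT D M k * psi D M 0 (D.E (k + 1)) = psiT D M k := psiT_E' k
  have hz2 : psiT D M k * psi D M 0 (D.E (k + 2)) = psi D M 0 (D.E (k + 2)) * psiT D M k :=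
    psiT_E_comm k (k + 2)
  have hw0 : psiT D M (k + 1) * psi D M 0 (D.E k) = psi D M 0 (D.E k) * psiT D M (k + 1) :=
    psiT_E_comm (k + 1) k
  have hw1 : psiT D M (k + 1) * psi D M 0 (D.E (k + 1)) = psiT D M (k + 1) := psiT_E (k + 1)
  have hw2 : psiT D M (k + 1) * psi D M 0 (D.E (k + 2)) = psiT D M (k + 1) := psiT_E' (k + 1)
  refine eq_of_three (D := D) k ?_ ?_ ?_
  · rw [psi_EEE, sub_mul]
    congr 1
    · calc psiT D M (k + 1) * psiT D M k * psiT D M (k + 1) *
            (psi D M 0 (D.E k) * psi D M 0 (D.E (k + 1)) * psi D M 0 (D.E (k + 2)))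
          = psiT D M (k + 1) * psiT D M k * (psiT D M (k + 1) * psi D M 0 (D.E k)) *
              psi D M 0 (D.E (k + 1)) * psi D M 0 (D.E (k + 2)) := by simp only [mul_assoc]
        _ = psiT D M (k + 1) * (psiT D M k * psi D M 0 (D.E k)) *
              (psiT D M (k + 1) * psi D M 0 (D.E (k + 1))) * psi D M 0 (D.E (k + 2)) := by
            rw [hw0]; simp only [mul_assoc]
        _ = psiT D M (k + 1) * psiT D M k * (psiT D M (k + 1) * psi D M 0 (D.E (k + 2))) := by
            rw [hz0, hw1]; simp only [mul_assoc]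
        _ = _ := by rw [hw2]
    · calc psiT D M k * psiT D M (k + 1) * psiT D M k *
            (psi D M 0 (D.E k) * psi D M 0 (D.E (k + 1)) * psi D M 0 (D.E (k + 2)))
          = psiT D M k * psiT D M (k + 1) * (psiT D M k * psi D M 0 (D.E k)) *
              psi D M 0 (D.E (k + 1)) * psi D M 0 (D.E (k + 2)) := by simp only [mul_assoc]
        _ = psiT D M k * psiT D M (k + 1) * (psiT D M k * psi D M 0 (D.E (k + 1))) *
              psi D M 0 (D.E (k + 2)) := by
            rw [hz0]; simp only [mul_assoc]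
        _ = psiT D M k * psiT D M (k + 1) * (psiT D M k * psi D M 0 (D.E (k + 2))) := by
            rw [hz1]; simp only [mul_assoc]
        _ = psiT D M k * (psiT D M (k + 1) * psi D M 0 (D.E (k + 2))) * psiT D M k := by
            rw [hz2]; simp only [mul_assoc]
        _ = _ := by rw [hw2]
  · simp only [Finset.sum_mul]
    refine Finset.sum_congr rfl fun i _ => Finset.sum_congr rfl fun j _ => ?_
    split_ifs with h
    · simp
    · rw [smul_mul_assoc, Finset.sum_mul]
      congr 1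
      refine Finset.sum_congr rfl fun p _ => ?_
      rw [psi_mul, mul_assoc _ _ (D.E k * _ * _), eee_EEE, zero_add]
  · intro a b c
    have h3 := @LW.one K I _ _ _ D k a b c
    rw [sub_mul, psiT_three0 h3, psiT_three1 h3, ← map_sub]
    have hb : D.t (k + 1) * (D.t k * (D.t (k + 1) * (D.e k a * D.e (k + 1) b * D.e (k + 2) c))) -
        D.t k * (D.t (k + 1) * (D.t k * (D.e k a * D.e (k + 1) b * D.e (k + 2) c))) =
        (D.t (k + 1) * D.t k * D.t (k + 1) - D.t k * D.t (k + 1) * D.t k) *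
          (D.e k a * D.e (k + 1) b * D.e (k + 2) c) := by
      rw [sub_mul]; simp only [mul_assoc]
    rw [hb, D.t_braid, Finset.sum_mul, Finset.sum_mul, map_sum]
    refine Finset.sum_congr rfl fun i _ => ?_
    rw [Finset.sum_mul, Finset.sum_mul, map_sum]
    refine Finset.sum_congr rfl fun j _ => ?_
    split_ifs with h
    · simp
    · rw [smul_mul_assoc, smul_mul_assoc, map_smul, Finset.sum_mul, Finset.sum_mul, Finset.sum_mul,
        map_sum]
      congr 1
      refine Finset.sum_congr rfl fun p hp => ?_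
      rw [psi_mul, mul_assoc _ _ (D.e k a * _ * _)]
      by_cases h2 : i = a ∧ j = b ∧ i = c
      · obtain ⟨rfl, rfl, rfl⟩ := h2
        rw [eee_idem]
        congr 2
        have h4 := q_eq D h
        have h5 : p < D.q i j := Finset.mem_range.1 hp
        have h6 : ((D.q i j - 1 - p : ℕ) : ℤ) = D.q i j - 1 - p := by omega
        rw [h6, D.diag, D.symm j i, h4]
        ring
      · rw [eee_ne k i j i a b c h2]
        simp

/-- the relations of the KLR algebra hold for the operators with degrees -/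
theorem psi_rels : Rels D (fun k i => psi D M 0 (D.e k i)) (fun k => psi D M 2 (D.x k))
    (psiT D M) where
  ee k i j := by
    rw [psi_mul, D.e_mul_e, add_zero]
    split_ifs <;> simp
  ee_comm k l i j := by rw [psi_mul, psi_mul, D.e_comm]
  xx k l := by rw [psi_mul, psi_mul, D.x_comm]
  xe k l i := by rw [psi_mul, psi_mul, D.x_e, add_comm]
  xE k := by
    have : ∑ i, psi D M 0 (D.e k i) = psi D M 0 (D.E k) := by
      unfold Datum.E; rw [map_sum]
    rw [this, psi_mul, D.x_E, zero_add]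
  tE k := by
    have : ∑ i, psi D M 0 (D.e k i) = psi D M 0 (D.E k) := by
      unfold Datum.E; rw [map_sum]
    rw [this, psiT_E]
  tE' k := by
    have : ∑ i, psi D M 0 (D.e (k + 1) i) = psi D M 0 (D.E (k + 1)) := by
      unfold Datum.E; rw [map_sum]
    rw [this, psiT_E']
  te0 := psiT_e0
  te1 := psiT_e1
  te := psiT_e
  tx := psiT_x
  tx0 := psi_x_tx0
  tx1 := psi_x_tx1
  tt := psi_tt
  far := psi_far
  braid := psi_braid

end psi

end Pool.Agent.KLR
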