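import Pool.Agent.Work.MP_e487d8_al.Grad.Word

/-! MP_e487d8_al, GRAD: gradings of submodules and quotients, uniqueness of degrees, the associated
graded submodule. -/

set_option autoImplicit false
set_option linter.unusedSectionVars false

namespace Pool.Agent.KLR

variable {K I : Type} [Field K] [Fintype I] [DecidableEq I] {D : Datum K I}

section

variable {M N P : Type} [AddCommGroup M] [Module K M] [Module (KLRAlg D) M]
  [IsScalarTower K (KLRAlg D) M] [AddCommGroup N] [Module K N] [Module (KLRAlg D) N]
  [IsScalarTower K (KLRAlg D) N] [AddCommGroup P] [Module K P] [Module (KLRAlg D) P]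
  [IsScalarTower K (KLRAlg D) P]

namespace Lau

theorem map_injective {f : M →ₗ[KLRAlg D] N} (hf : Function.Injective f) :
    Function.Injective (map f) := by
  intro y z h
  apply ext_co
  intro d
  apply hf
  rw [← co_map, ← co_map, h]

theorem map_congr {f f' : M →ₗ[KLRAlg D] N} (h : f = f') (z : Lau D M) : map f z = map f' z := by
  rw [h]

end Lau

namespace Grd

/-- the grading induced on a module which maps injectively onto a homogeneous submodule -/
noncomputable def ofInj (g : Grd D M) (j : N →ₗ[KLRAlg D] M) (hj : Function.Injective j)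
    (h : ∀ v d, g.pr d (j v) ∈ LinearMap.range j) : Grd D N := by
  have hmem : ∀ v, (g.rho.comp j) v ∈ LinearMap.range (Lau.map j) := by
    intro v
    obtain ⟨S, hS⟩ := Lau.co_fin (g.rho (j v))
    have h1 := Lau.sum_co (g.rho (j v)) S hS
    rw [LinearMap.comp_apply, ← h1]
    refine Submodule.sum_mem _ fun d _ => ?_
    obtain ⟨w, hw⟩ := h v d
    refine ⟨Lau.sg D d w, ?_⟩
    rw [Lau.map_sg, hw]
    rfl
  let R : N →ₗ[KLRAlg D] Lau D N :=
    (LinearEquiv.ofInjective (Lau.map j) (Lau.map_injective hj)).symm.toLinearMap ∘ₗ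
      LinearMap.codRestrict (LinearMap.range (Lau.map j)) (g.rho.comp j) hmem
  have hR : ∀ v, Lau.map j (R v) = g.rho (j v) := by
    intro v
    have h2 := (LinearEquiv.ofInjective (Lau.map j) (Lau.map_injective hj)).apply_symm_apply
      (LinearMap.codRestrict (LinearMap.range (Lau.map j)) (g.rho.comp j) hmem v)
    have h3 := congrArg Subtype.val h2
    rw [LinearEquiv.ofInjective_apply] at h3
    exact h3
  exact
    { rho := R
      tot := fun v => by
        apply hj
        rw [← Lau.tot_map, hR, g.tot]
      dg := fun v => by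
        apply Lau.map_injective (Lau.map_injective hj)
        rw [Lau.map_map, Lau.map_dg, hR, ← g.dg, ← hR, Lau.map_map]
        apply Lau.map_congr
        ext w
        exact hR w }

theorem ofInj_hom (g : Grd D M) (j : N →ₗ[KLRAlg D] M) (hj : Function.Injective j)
    (h : ∀ v d, g.pr d (j v) ∈ LinearMap.range j) : HomDeg (g.ofInj j hj h) g 0 j := by
  intro v
  rw [Lau.shift_zero]
  have hmem : ∀ v, (g.rho.comp j) v ∈ LinearMap.range (Lau.map j) := by
    intro v
    obtain ⟨S, hS⟩ := Lau.co_fin (g.rho (j v))
    have h1 := Lau.sum_co (g.rho (j v)) S hS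
    rw [LinearMap.comp_apply, ← h1]
    refine Submodule.sum_mem _ fun d _ => ?_
    obtain ⟨w, hw⟩ := h v d
    refine ⟨Lau.sg D d w, ?_⟩
    rw [Lau.map_sg, hw]
    rfl
  have h2 := (LinearEquiv.ofInjective (Lau.map j) (Lau.map_injective hj)).apply_symm_apply
    (LinearMap.codRestrict (LinearMap.range (Lau.map j)) (g.rho.comp j) hmem v)
  have h3 := congrArg Subtype.val h2
  rw [LinearEquiv.ofInjective_apply] at h3
  exact h3.symm

/-- the grading induced on a quotient by a homogeneous submodule -/
noncomputable def ofSurj (g : Grd D M) (q : M →ₗ[KLRAlg D] P) (hq : Function.Surjective q)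
    (h : ∀ u d, q u = 0 → q (g.pr d u) = 0) : Grd D P := by
  have hker : ∀ u, q u = 0 → ((Lau.map q).comp g.rho) u = 0 := by
    intro u hu
    apply Lau.ext_co
    intro d
    rw [LinearMap.comp_apply, Lau.co_map, map_zero]
    exact h u d hu
  let R : P →ₗ[KLRAlg D] Lau D P :=
    (Submodule.liftQ (LinearMap.ker q) ((Lau.map q).comp g.rho) (fun u hu => hker u hu)) ∘ₗ
      (q.quotKerEquivOfSurjective hq).symm.toLinearMap
  have hR : ∀ u, R (q u) = Lau.map q (g.rho u) := by
    intro u
    have h2 : (q.quotKerEquivOfSurjective hq).symm (q u) = Submodule.Quotient.mk u := by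
      rw [LinearEquiv.symm_apply_eq]
      rfl
    simp only [R, LinearMap.comp_apply, LinearEquiv.coe_coe, h2]
    rfl
  exact
    { rho := R
      tot := fun v => by
        obtain ⟨u, rfl⟩ := hq v
        rw [hR, Lau.tot_map, g.tot]
      dg := fun v => by
        obtain ⟨u, rfl⟩ := hq v
        rw [hR, Lau.map_map, ← Lau.map_dg, ← g.dg, Lau.map_map]
        apply Lau.map_congr
        ext w
        exact hR w }

theorem ofSurj_hom (g : Grd D M) (q : M →ₗ[KLRAlg D] P) (hq : Function.Surjective q)
    (h : ∀ u d, q u = 0 → q (g.pr d u) = 0) : HomDeg g (g.ofSurj q hq h) 0 q := by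
  intro u
  rw [Lau.shift_zero]
  have hker : ∀ u, q u = 0 → ((Lau.map q).comp g.rho) u = 0 := by
    intro u hu
    apply Lau.ext_co
    intro d
    rw [LinearMap.comp_apply, Lau.co_map, map_zero]
    exact h u d hu
  have h2 : (q.quotKerEquivOfSurjective hq).symm (q u) = Submodule.Quotient.mk u := by
    rw [LinearEquiv.symm_apply_eq]
    rfl
  change (Submodule.liftQ (LinearMap.ker q) ((Lau.map q).comp g.rho) (fun u hu => hker u hu))
    ((q.quotKerEquivOfSurjective hq).symm (q u)) = _
  rw [h2]
  rfl

/-- transport of a grading along an isomorphism -/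
noncomputable def ofEquiv (g : Grd D M) (φ : M ≃ₗ[KLRAlg D] P) : Grd D P :=
  g.ofSurj φ.toLinearMap φ.surjective (fun u d hu => by
    have : u = 0 := φ.injective (by simpa using hu)
    rw [this]; simp)

theorem ofEquiv_hom (g : Grd D M) (φ : M ≃ₗ[KLRAlg D] P) :
    HomDeg g (g.ofEquiv φ) 0 φ.toLinearMap := ofSurj_hom _ _ _ _

/-- the grading shifted by `s` -/
noncomputable def shift (g : Grd D M) (s : ℤ) : Grd D M where
  rho := (Lau.shift D M s).comp g.rho
  tot u := by rw [LinearMap.comp_apply, Lau.tot_shift, g.tot]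
  dg u := by
    rw [LinearMap.comp_apply]
    have h1 : ∀ z : Lau D M, Lau.map ((Lau.shift D M s).comp g.rho) z =
        Lau.map (Lau.shift D M s) (Lau.map g.rho z) := fun z => (Lau.map_map _ _ z).symm
    have h2 : ∀ z : Lau D M, Lau.map (Lau.shift D M s) (Lau.shift D (Lau D M) s (Lau.dg D M z)) =
        Lau.dg D M (Lau.shift D M s z) := by
      intro z
      induction z using Lau.induction with
      | h0 => simp
      | h d u => simp
      | hadd y z hy hz => simp only [map_add, hy, hz]
    rw [h1, Lau.map_shift, g.dg, h2]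

theorem shift_hm {g : Grd D M} {s d : ℤ} {u : M} (h : g.Hm d u) : (g.shift s).Hm (d + s) u := by
  unfold Hm at *
  change Lau.shift D M s (g.rho u) = _
  rw [h, Lau.shift_sg]

/-- uniqueness of homogeneous components: nonzero homogeneous vectors have a unique degree -/
theorem Hm.deg_unique {g : Grd D M} {d d' : ℤ} {u : M} (h : g.Hm d u) (h' : g.Hm d' u)
    (hu : u ≠ 0) : d = d' := by
  by_contra hd
  have h1 := h.pr_eq d'
  rw [if_neg hd] at h1
  exact hu ((hm_iff.1 h').symm.trans h1)

/-- a finite dimensional graded module has finitely many degrees -/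
theorem fin_degrees [FiniteDimensional K M] (g : Grd D M) :
    ∃ S : Finset ℤ, ∀ d, d ∉ S → ∀ u, g.pr d u = 0 := by
  classical
  let b := Module.finBasis K M
  choose T hT using fun i => Lau.co_fin (g.rho (b i))
  refine ⟨Finset.univ.biUnion T, fun d hd u => ?_⟩
  have h1 : g.pr d = 0 := by
    apply b.ext
    intro i
    rw [LinearMap.zero_apply]
    exact hT i d fun h => hd (Finset.mem_biUnion.2 ⟨i, Finset.mem_univ i, h⟩)
  rw [h1, LinearMap.zero_apply]

theorem exists_hm_ne (g : Grd D M) {u : M} (hu : u ≠ 0) : ∃ d, g.pr d u ≠ 0 := by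
  by_contra h
  push Not at h
  obtain ⟨S, _, hS⟩ := g.sum_pr u
  apply hu
  rw [← hS]
  exact Finset.sum_eq_zero fun d _ => h d

end Grd

/-- an injective homogeneous endomorphism of a nonzero finite dimensional graded module has
degree `0` -/
theorem HomDeg.deg_eq_zero [FiniteDimensional K M] [Nontrivial M] {g : Grd D M} {s : ℤ}
    {f : M →ₗ[KLRAlg D] M} (hf : HomDeg g g s f) (hi : Function.Injective f) : s = 0 := by
  obtain ⟨S, hS⟩ := g.fin_degrees
  obtain ⟨u, hu⟩ := exists_ne (0 : M)
  obtain ⟨d, hd⟩ := g.exists_hm_ne hu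
  have hpow : ∀ k : ℕ, f^[k] (g.pr d u) ≠ 0 ∧ g.Hm (d + k * s) (f^[k] (g.pr d u)) := by
    intro k
    induction k with
    | zero => exact ⟨hd, by simpa using g.hm_pr d u⟩
    | succ k ih =>
      rw [Function.iterate_succ_apply']
      refine ⟨fun h => ih.1 (hi (by rw [h, map_zero])), ?_⟩
      have := hf.hm ih.2
      convert this using 1
      push_cast
      ring
  have hmem : ∀ k : ℕ, d + k * s ∈ S := by
    intro k
    by_contra h
    have h1 := Grd.hm_iff.1 (hpow k).2
    rw [hS _ h] at h1
    exact (hpow k).1 h1.symm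
  by_contra hs
  have hinj : Function.Injective fun k : ℕ => d + k * s := by
    intro a b hab
    simp only [add_right_inj] at hab
    have := mul_right_cancel₀ hs hab
    exact_mod_cast this
  exact Set.infinite_of_injective_forall_mem hinj hmem (Finset.finite_toSet S)

/-- two isomorphisms between finite dimensional graded modules which are homogeneous have the
same degree -/
theorem HomDeg.deg_unique [FiniteDimensional K M] [Nontrivial M] {gM : Grd D M} {gN : Grd D N}
    {s s' : ℤ} {f f' : M →ₗ[KLRAlg D] N} (hf : HomDeg gM gN s f) (hf' : HomDeg gM gN s' f')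
    (hi : Function.Bijective f) (hi' : Function.Bijective f') : s = s' := by
  let e := LinearEquiv.ofBijective f' hi'
  have he : HomDeg gN gM (-s') e.symm.toLinearMap := by
    refine HomDeg.of_comp_right hf' hi'.2 ?_
    have h1 : e.symm.toLinearMap.comp f' = LinearMap.id := by
      ext u
      exact e.symm_apply_apply u
    rw [h1, add_neg_cancel]
    exact HomDeg.id
  have h2 := (hf.comp he).deg_eq_zero (by
    intro u v h
    exact hi.1 (e.symm.injective h))
  omega

end

end Pool.Agent.KLR
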