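import Pool.Agent.Work.MP_e487d8_al.Fin.Bridge
import Pool.Agent.Work.MP_e487d8_al.Grad.Gr
import Pool.Agent.Work.MP_e487d8_al.Grad.Able

/-! MP_e487d8_al, GRAD: the two descriptions of a grading, `GMod` (homogeneous subspaces) and `Grd`
(coaction); graded simple modules are simple, simple modules have a grading. -/

set_option autoImplicit false

namespace Pool.Agent.KLR

variable {K I : Type} [Field K] [Fintype I] [DecidableEq I] {D : Datum K I}

namespace GMod

variable (X : GMod D)

/-- the decomposition into homogeneous components -/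
noncomputable def dec : (DirectSum ℤ fun d => X.gr d) ≃ₗ[K] X.M :=
  LinearEquiv.ofBijective (DirectSum.coeLinearMap X.gr) X.internal

theorem dec_lof (d : ℤ) (u : X.gr d) :
    X.dec (DirectSum.lof K ℤ (fun d => X.gr d) d u) = (u : X.M) :=
  DirectSum.coeLinearMap_lof X.gr d u

theorem ind {p : X.M → Prop} (h0 : p 0) (h : ∀ d u, u ∈ X.gr d → p u)
    (hadd : ∀ u v, p u → p v → p (u + v)) (u : X.M) : p u := by
  obtain ⟨z, rfl⟩ := X.dec.surjective u
  induction z using DirectSum.induction_on with
  | zero => rw [map_zero]; exact h0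
  | of d u =>
    have h1 := X.dec_lof d u
    rw [DirectSum.lof_eq_of] at h1
    rw [h1]
    exact h d _ u.2
  | add y z hy hz => rw [map_add]; exact hadd _ _ hy hz

/-- the coaction as a `K`-linear map -/
noncomputable def rhoK : X.M →ₗ[K] Lau D X.M :=
  (DirectSum.toModule K ℤ (Lau D X.M) fun d => (Lau.sg D d).comp (X.gr d).subtype).comp
    X.dec.symm.toLinearMap

theorem rhoK_of {d : ℤ} {u : X.M} (hu : u ∈ X.gr d) : X.rhoK u = Lau.sg D d u := by
  have h : X.dec.symm u = DirectSum.lof K ℤ (fun d => X.gr d) d ⟨u, hu⟩ := by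
    rw [LinearEquiv.symm_apply_eq, dec_lof]
  unfold rhoK
  rw [LinearMap.comp_apply, LinearEquiv.coe_coe, h, DirectSum.toModule_lof]
  rfl

theorem t_mem' (k : ℕ) (i j : I) {d : ℤ} {u : X.M} (hu : u ∈ X.gr d) :
    (D.t k * (D.e k i * D.e (k + 1) j)) • u ∈ X.gr (d - D.A i j) := by
  rw [mul_smul, mul_smul]
  exact X.t_mem k i j d u hu

/-- the grading as a coaction -/
noncomputable def grd : Grd D X.M where
  rho := ofGens X.rhoK
    (fun k i u => by
      induction u using X.ind with
      | h0 => simp
      | h d u hu => rw [X.rhoK_of (X.e_mem k i d u hu), X.rhoK_of hu, Lau.e_sg]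
      | hadd u v hu hv => rw [smul_add, map_add, map_add, smul_add, hu, hv])
    (fun k u => by
      induction u using X.ind with
      | h0 => simp
      | h d u hu => rw [X.rhoK_of (X.x_mem k d u hu), X.rhoK_of hu, Lau.x_sg]
      | hadd u v hu hv => rw [smul_add, map_add, map_add, smul_add, hu, hv])
    (fun k u => by
      induction u using X.ind with
      | h0 => simp
      | h d u hu =>
        rw [X.rhoK_of hu, Lau.t_sg, ← Lau.t_smul_sum k u, map_sum]
        refine Finset.sum_congr rfl fun i _ => ?_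
        rw [map_sum]
        exact Finset.sum_congr rfl fun j _ => X.rhoK_of (X.t_mem' k i j hu)
      | hadd u v hu hv => rw [smul_add, map_add, map_add, smul_add, hu, hv])
  tot u := by
    rw [ofGens_apply]
    induction u using X.ind with
    | h0 => simp
    | h d u hu => rw [X.rhoK_of hu, Lau.tot_sg]
    | hadd u v hu hv => rw [map_add, map_add, hu, hv]
  dg u := by
    rw [ofGens_apply]
    induction u using X.ind with
    | h0 => simp
    | h d u hu => rw [X.rhoK_of hu, Lau.map_sg, ofGens_apply, X.rhoK_of hu, Lau.dg_sg]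
    | hadd u v hu hv => rw [map_add, map_add, map_add, hu, hv]

theorem grd_rho (u : X.M) : X.grd.rho u = X.rhoK u := rfl

theorem pr_mem (d : ℤ) (u : X.M) : X.grd.pr d u ∈ X.gr d := by
  induction u using X.ind with
  | h0 => rw [map_zero]; exact Submodule.zero_mem _
  | h d' u hu =>
    have h1 : X.grd.Hm d' u := X.rhoK_of hu
    rw [h1.pr_eq]
    split_ifs with h2
    · rw [← h2]; exact hu
    · exact Submodule.zero_mem _
  | hadd u v hu hv => rw [map_add]; exact Submodule.add_mem _ hu hv

theorem hm_iff (d : ℤ) (u : X.M) : X.grd.Hm d u ↔ u ∈ X.gr d := by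
  constructor
  · intro h
    rw [Grd.hm_iff] at h
    rw [← h]
    exact X.pr_mem d u
  · intro h
    exact X.rhoK_of h

/-- a graded simple module is simple -/
theorem simple_of_irr (h : X.Irr) : IsSimpleModule (KLRAlg D) X.M := by
  have := X.fd
  have := h.nontrivial
  refine simple_of_graded_simple X.grd fun S hS => h.simple S ?_
  intro u hu
  obtain ⟨T, hT, hT'⟩ := X.grd.sum_pr u
  rw [← hT']
  exact Submodule.sum_mem _ fun d _ =>
    Submodule.subset_span ⟨hS u hu d, d, X.pr_mem d u⟩

end GMod

namespace Grd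

variable {M : Type} [AddCommGroup M] [Module K M] [Module (KLRAlg D) M]
  [IsScalarTower K (KLRAlg D) M]

/-- the homogeneous elements of degree `d` -/
noncomputable def hmSub (g : Grd D M) (d : ℤ) : Submodule K M :=
  LinearMap.eqLocus (Conv.toK g.rho) (Lau.sg D d)

theorem mem_hmSub (g : Grd D M) (d : ℤ) (u : M) : u ∈ g.hmSub d ↔ g.Hm d u := Iff.rfl

theorem internal (g : Grd D M) : DirectSum.IsInternal g.hmSub := by
  have h1 : ∀ (z : DirectSum ℤ fun d => g.hmSub d) (d : ℤ),
      g.pr d (DirectSum.coeLinearMap g.hmSub z) = (z d : M) := by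
    intro z d
    induction z using DirectSum.induction_on with
    | zero => simp
    | of d' u =>
      rw [← DirectSum.lof_eq_of K, DirectSum.coeLinearMap_lof,
        ((g.mem_hmSub d' _).1 u.2).pr_eq, DirectSum.lof_eq_of, DirectSum.of_apply]
      by_cases h : d' = d
      · subst h
        rw [if_pos rfl, dif_pos rfl]
      · rw [if_neg h, dif_neg h]
        rfl
    | add y z hy hz => rw [map_add, map_add, hy, hz]; rfl
  refine ⟨?_, ?_⟩
  · intro y z hyz
    have hyz' : DirectSum.coeLinearMap g.hmSub y = DirectSum.coeLinearMap g.hmSub z := hyz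
    refine DFinsupp.ext fun d => Subtype.ext ?_
    rw [← h1, ← h1, hyz']
  · intro u
    obtain ⟨T, hT, hT'⟩ := g.sum_pr u
    refine ⟨∑ d ∈ T, DirectSum.lof K ℤ (fun d => g.hmSub d) d ⟨g.pr d u, g.hm_pr d u⟩, ?_⟩
    change DirectSum.coeLinearMap g.hmSub _ = u
    rw [map_sum]
    simp only [DirectSum.coeLinearMap_lof]
    exact hT'

/-- a graded module from a coaction -/
noncomputable def gmod (g : Grd D M) {n : ℕ} (hM : IsStrand D n M) (hfd : FiniteDimensional K M) :
    GMod D where
  n := n
  M := M
  strand := hM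
  fd := hfd
  gr := g.hmSub
  internal := g.internal
  e_mem k i _ _ hu := Hm.e hu k i
  x_mem k _ _ hu := Hm.x hu k
  t_mem k i j _ _ hu := by
    have h := Hm.t hu k i j
    rw [mul_smul, mul_smul] at h
    exact h

end Grd

/-- every simple module has a grading -/
theorem exists_gmod (hb : S_basis D) (Y : SMod D) :
    ∃ X : GMod D, X.Irr ∧ X.n = Y.n ∧ Nonempty (X.M ≃ₗ[KLRAlg D] Y.M) := by
  obtain ⟨g⟩ := gradable hb Y.n Y.M Y.smp
  refine ⟨g.gmod Y.smp.strand Y.smp.fd, GMod.irr_of_simple _ Y.smp.simple, rfl,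
    ⟨LinearEquiv.refl _ _⟩⟩

end Pool.Agent.KLR
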