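import Pool.Agent.Work.MP_e487d8_al.Grad.Conv
import Pool.Agent.Work.MP_e487d8_al.Rmat.R
import Pool.Agent.Work.MP_e487d8_al.Mod.Word

/-! MP_e487d8_al, GRAD: homogeneous vectors with a word; the degrees of the intertwiners. -/

set_option autoImplicit false
set_option linter.unusedSectionVars false

namespace Pool.Agent.KLR

variable {K I : Type} [Field K] [Fintype I] [DecidableEq I] {D : Datum K I}

/-- `u` has the word `ν` at the strands `k, k + 1, ...` -/
def WdAt (D : Datum K I) {M : Type} [AddCommGroup M] [Module (KLRAlg D) M] :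
    ℕ → List I → M → Prop
  | _, [], _ => True
  | k, i :: ν, u => Col D k i u ∧ WdAt D (k + 1) ν u

section word

variable {M : Type} [AddCommGroup M] [Module (KLRAlg D) M]

theorem wdAt_nil {k : ℕ} {u : M} : WdAt D k [] u := trivial
theorem wdAt_cons {k : ℕ} {i : I} {ν : List I} {u : M} :
    WdAt D k (i :: ν) u ↔ Col D k i u ∧ WdAt D (k + 1) ν u := Iff.rfl

theorem wdAt_append {k : ℕ} {ν μ : List I} {u : M} :
    WdAt D k (ν ++ μ) u ↔ WdAt D k ν u ∧ WdAt D (k + ν.length) μ u := by
  induction ν generalizing k with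
  | nil => simp [WdAt]
  | cons i ν ih =>
    rw [List.cons_append, wdAt_cons, wdAt_cons, ih, List.length_cons, and_assoc,
      show k + 1 + ν.length = k + (ν.length + 1) by omega]

/-- the word of `u` is kept by an element which commutes with the idempotents -/
theorem WdAt.smul {k : ℕ} {ν : List I} {u : M} (h : WdAt D k ν u) {a : KLRAlg D}
    (ha : ∀ l i, k ≤ l → l < k + ν.length → a * D.e l i = D.e l i * a) :
    WdAt D k ν (a • u) := by
  induction ν generalizing k with
  | nil => exact trivial
  | cons i ν ih =>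
    refine ⟨?_, ih h.2 fun l j h1 h2 => ha l j (by omega) (by
      rw [List.length_cons]; omega)⟩
    have h1 := h.1
    unfold Col at *
    rw [← mul_smul, ← ha k i le_rfl (by rw [List.length_cons]; omega), mul_smul, h1]

theorem WdAt.e {k l : ℕ} {ν : List I} {u : M} (h : WdAt D k ν u) (j : I) :
    WdAt D k ν (D.e l j • u) := h.smul fun _ _ _ _ => D.e_comm _ _ _ _

theorem WdAt.x {k l : ℕ} {ν : List I} {u : M} (h : WdAt D k ν u) :
    WdAt D k ν (D.x l • u) := h.smul fun _ _ _ _ => D.x_e _ _ _

theorem Col.shn {k m : ℕ} {i : I} {u : M} (h : Col D k i u) (hk : k < m) (a : KLRAlg D) :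
    Col D k i (D.shn m a • u) := by
  have h1 := D.tr_mul_shn (m := m) (m' := m) le_rfl (D.e k i) a
  rw [D.tr_e, if_pos hk] at h1
  unfold Col at *
  rw [← mul_smul, h1, mul_smul, h]

theorem wdAt_iff_eW {ν : List I} (k : ℕ) {u : M} : WdAt D k ν u ↔ D.shn k (D.eW ν) • u = u := by
  induction ν generalizing k with
  | nil => simp [WdAt, D.eW_nil]
  | cons i ν ih =>
    rw [wdAt_cons, ih, D.eW_cons, map_mul, D.shn_e, D.shn_shn, add_zero, mul_smul]
    constructor
    · rintro ⟨h1, h2⟩
      rw [h2]; exact h1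
    · intro h
      have h1 : Col D k i u := by
        unfold Col
        conv_lhs => rw [← h]
        rw [← mul_smul, D.e_idem, h]
      refine ⟨h1, ?_⟩
      have h3 : Col D k i (D.shn (k + 1) (D.eW ν) • u) := h1.shn (Nat.lt_succ_self k) _
      exact h3.symm.trans h

theorem wdAt_zero_iff {ν : List I} {u : M} : WdAt D 0 ν u ↔ D.eW ν • u = u := by
  rw [wdAt_iff_eW, D.shn_zero]

theorem WdAt.zero_vec {k : ℕ} {ν : List I} : WdAt D k ν (0 : M) := by
  rw [wdAt_iff_eW, smul_zero]

theorem WdAt.add {k : ℕ} {ν : List I} {u v : M} (hu : WdAt D k ν u) (hv : WdAt D k ν v) :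
    WdAt D k ν (u + v) := by
  rw [wdAt_iff_eW] at *
  rw [smul_add, hu, hv]

/-- the words have letters at the strands only -/
theorem WdAt.length_le {n : ℕ} (hM : IsStrand D n M) {ν : List I} {u : M} (h : WdAt D 0 ν u)
    (hu : u ≠ 0) : ν.length ≤ n := by
  by_contra hn
  push Not at hn
  have h1 : WdAt D 0 (ν.take n ++ ν.drop n) u := by rwa [List.take_append_drop]
  rw [wdAt_append, List.length_take, Nat.min_eq_left hn.le] at h1
  rcases hd : ν.drop n with _ | ⟨i, μ⟩
  · have := congrArg List.length hd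
    rw [List.length_drop, List.length_nil] at this
    omega
  · rw [hd] at h1
    have h2 := h1.2.1
    unfold Col at h2
    rw [hM.zero _ (by omega)] at h2
    exact hu h2.symm

end word

section hm

variable {M : Type} [AddCommGroup M] [Module K M] [Module (KLRAlg D) M]
  [IsScalarTower K (KLRAlg D) M]

/-- induction over homogeneous vectors with a word -/
theorem Grd.word_induction {n : ℕ} (g : Grd D M) (hM : IsStrand D n M) {p : M → Prop} (h0 : p 0)
    (h : ∀ d ν u, ν.length = n → WdAt D 0 ν u → g.Hm d u → p u)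
    (hadd : ∀ u v, p u → p v → p (u + v)) (u : M) : p u := by
  have key : ∀ k, k ≤ n → ∀ d ν u, ν.length = n - k → WdAt D 0 ν u → g.Hm d u → p u := by
    intro k
    induction k with
    | zero => intro _ d ν u hν hw hd; exact h d ν u (by simpa using hν) hw hd
    | succ k ih =>
      intro hk d ν u hν hw hd
      have h1 : u = ∑ i, D.e (n - (k + 1)) i • u := by
        rw [← Finset.sum_smul]
        exact (hM.one (n - (k + 1)) (by omega) u).symm
      rw [h1]
      have h2 : ∀ S : Finset I, p (∑ i ∈ S, D.e (n - (k + 1)) i • u) := by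
        intro S
        induction S using Finset.induction_on with
        | empty => simpa using h0
        | insert a S ha ihS =>
          rw [Finset.sum_insert ha]
          refine hadd _ _ ?_ ihS
          refine ih (by omega) d (ν ++ [a]) _ ?_ ?_ (hd.e _ _)
          · rw [List.length_append, hν, List.length_singleton]; omega
          · rw [wdAt_append]
            refine ⟨hw.e _, ?_, trivial⟩
            rw [zero_add, hν]
            exact Col.mk_e _ _ _
      exact h2 _
  induction u using g.induction with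
  | h0 => exact h0
  | hadd u v hu hv => exact hadd u v hu hv
  | h d u hd => exact key n le_rfl d [] u (by simp) trivial hd

theorem Grd.Hm.t_col {g : Grd D M} {d : ℤ} {u : M} (h : g.Hm d u) {k : ℕ} {i j : I}
    (hi : Col D k i u) (hj : Col D (k + 1) j u) : g.Hm (d - D.A i j) (D.t k • u) := by
  have h1 := h.t k i j
  rwa [mul_smul, mul_smul, hj, hi] at h1

theorem Grd.Hm.sub {g : Grd D M} {d : ℤ} {u v : M} (hu : g.Hm d u) (hv : g.Hm d v) :
    g.Hm d (u - v) := by
  unfold Grd.Hm at *; rw [map_sub, map_sub, hu, hv]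

theorem Grd.Hm.smulK {g : Grd D M} {d : ℤ} {u : M} (hu : g.Hm d u) (r : K) :
    g.Hm d (r • u) := by
  unfold Grd.Hm at *
  have h1 : g.rho (r • u) = r • g.rho u := (Conv.toK g.rho).map_smul r u
  rw [h1, hu, map_smul]

/-- the degree of the intertwiner on the colours `i j` -/
def dq (D : Datum K I) (i j : I) : ℤ := if i = j then 0 else (D.q i j : ℤ)

theorem Grd.Hm.phi {g : Grd D M} {d : ℤ} {u : M} (h : g.Hm d u) {k : ℕ} {i j : I}
    (hi : Col D k i u) (hj : Col D (k + 1) j u) : g.Hm (d + dq D i j) (D.phi k • u) := by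
  by_cases hij : i = j
  · subst hij
    rw [phi_eq hi hj, dq, if_pos rfl, add_zero]
    have h1 := (h.x k).t_col (hi.x k) (hj.x k)
    have h2 := (h.x (k + 1)).t_col (hi.x (k + 1)) (hj.x (k + 1))
    rw [D.diag, add_sub_cancel_right] at h1 h2
    exact (h1.sub h2).add h
  · rw [phi_ne hi hj hij, dq, if_neg hij, q_eq D hij, ← sub_eq_add_neg]
    exact h.t_col hi hj

end hm

/-- sum of `dq` over pairs -/
def dqs (D : Datum K I) (ν μ : List I) : ℤ := (ν.map fun i => (μ.map fun j => dq D i j).sum).sum

section cp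

variable {M : Type} [AddCommGroup M] [Module K M] [Module (KLRAlg D) M]
  [IsScalarTower K (KLRAlg D) M]

/-- the degree and the word of `Cp n` -/
theorem Grd.Hm.cp {g : Grd D M} (ν ρ : List I) (b : I) (o : ℕ) {d : ℤ} {u : M} (h : g.Hm d u)
    (hw : WdAt D o (ν ++ b :: ρ) u) :
    g.Hm (d + (ν.map fun i => dq D i b).sum) (D.shn o (D.Cp ν.length) • u) ∧
      WdAt D o (b :: (ν ++ ρ)) (D.shn o (D.Cp ν.length) • u) := by
  induction ν generalizing o with
  | nil =>
    rw [List.length_nil, D.Cp_zero, map_one, one_smul]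
    exact ⟨by simpa using h, hw⟩
  | cons a ν ih =>
    rw [List.cons_append, wdAt_cons] at hw
    obtain ⟨h1, h2⟩ := ih (o + 1) hw.2
    have hC : D.shn o (D.Cp (a :: ν).length) = D.phi o * D.shn (o + 1) (D.Cp ν.length) := by
      rw [List.length_cons, Nat.add_comm, D.Cp_add, D.Cp_succ, D.Cp_zero, one_mul, map_mul,
        D.shn_phi, D.shn_shn, add_zero]
    rw [hC, mul_smul]
    have h3 : Col D o a (D.shn (o + 1) (D.Cp ν.length) • u) :=
      hw.1.shn (Nat.lt_succ_self o) _
    rw [wdAt_cons] at h2
    refine ⟨?_, h3.phi1 h2.1, ?_, ?_⟩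
    · have h4 := h1.phi h3 h2.1
      rw [List.map_cons, List.sum_cons]
      convert h4 using 1
      ring
    · exact h3.phi0 h2.1
    · exact h2.2.smul fun l i hl _ => D.phi_e o l i (by omega) (by omega)

/-- the degree and the word of `Ph n m` -/
theorem Grd.Hm.ph {g : Grd D M} (ν μ ρ : List I) (o : ℕ) {d : ℤ} {u : M} (h : g.Hm d u)
    (hw : WdAt D o (ν ++ (μ ++ ρ)) u) :
    g.Hm (d + dqs D ν μ) (D.shn o (D.Ph ν.length μ.length) • u) ∧
      WdAt D o (μ ++ (ν ++ ρ)) (D.shn o (D.Ph ν.length μ.length) • u) := by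
  induction μ generalizing o d u with
  | nil =>
    rw [List.length_nil, D.Ph_zero, map_one, one_smul]
    exact ⟨by simpa [dqs] using h, hw⟩
  | cons b μ ih =>
    rw [List.length_cons, D.Ph_succ, map_mul, D.shn_shn, mul_smul]
    obtain ⟨h1, h2⟩ := h.cp ν (μ ++ ρ) b o hw
    rw [wdAt_cons] at h2
    obtain ⟨h3, h4⟩ := ih (o + 1) h1 h2.2
    refine ⟨?_, h2.1.shn (Nat.lt_succ_self o) _, h4⟩
    convert h3 using 1
    have h5 : dqs D ν (b :: μ) = (ν.map fun i => dq D i b).sum + dqs D ν μ := by
      unfold dqs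
      simp only [List.map_cons, List.sum_cons]
      rw [← List.sum_map_add]
    rw [h5]
    ring

end cp

end Pool.Agent.KLR
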